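import Pool.Agent.KO.Base

/-!
# Project KO (MP_eb6d9f_ag), block G: meromorphic functions on the cone are algebraic

Specification. Base space `Fin 5 → ℂ`, coordinates `b 0 = z`, `b 1 = u`, `b 2 = w`, `b 3 = x`
(weights 1, 5, 6, 22) and `b 4 = t` (weight 0); the cone is the double cover `y² = cc b`.
-/

set_option autoImplicit false

namespace Pool.Agent.KO.GA

open Set Filter Topology Metric

/-! ## Meromorphic functions of several variables -/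

/-- The function `h` is a quotient `M / N` near `b`, where `N ≠ 0`. -/
def MerAt {n : ℕ} (h : (Fin n → ℂ) → ℂ) (b : Fin n → ℂ) : Prop :=
  ∃ ε : ℝ, 0 < ε ∧ ∃ N M : (Fin n → ℂ) → ℂ, DifferentiableOn ℂ N (ball b ε) ∧
    DifferentiableOn ℂ M (ball b ε) ∧ (∃ x ∈ ball b ε, N x ≠ 0) ∧
      ∀ x ∈ ball b ε, N x ≠ 0 → N x * h x = M x

/-- The same, on `D` only. -/
def WMer {n : ℕ} (D : Set (Fin n → ℂ)) (h : (Fin n → ℂ) → ℂ) (b : Fin n → ℂ) : Prop :=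
  ∃ ε : ℝ, 0 < ε ∧ ∃ N M : (Fin n → ℂ) → ℂ, DifferentiableOn ℂ N (ball b ε) ∧
    DifferentiableOn ℂ M (ball b ε) ∧ (∃ x ∈ ball b ε, N x ≠ 0) ∧
      ∀ x ∈ ball b ε, x ∈ D → N x * h x = M x

/-- The function `h` is holomorphic near `b`. -/
def Reg {n : ℕ} (h : (Fin n → ℂ) → ℂ) (b : Fin n → ℂ) : Prop :=
  ∀ᶠ x in 𝓝 b, DifferentiableAt ℂ h x

open Classical in
/-- The limit of `h` along `D`, and `0` where there is none. -/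
noncomputable def ext {n : ℕ} (D : Set (Fin n → ℂ)) (h : (Fin n → ℂ) → ℂ) (b : Fin n → ℂ) : ℂ :=
  if H : ∃ c, Tendsto h (𝓝[D] b) (𝓝 c) then H.choose else 0

/-! ## The base -/

/-- The weights of `z, u, w, x, t`. -/
def w5 : Fin 5 → ℕ := ![1, 5, 6, 22, 0]

/-- The action of `ℂ^*` on the base. -/
def act5 (l : ℂ) (b : Fin 5 → ℂ) : Fin 5 → ℂ := fun i => l ^ w5 i * b i

/-- The function with `y² = cc`. -/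
def cc (b : Fin 5 → ℂ) : ℂ :=
  b 0 ^ 66 + b 0 ^ 12 * b 2 ^ 9 - b 3 ^ 3 - b 4 * b 2 ^ 11 - b 1 * b 0 * b 2 ^ 10
    - b 1 ^ 12 * b 2

/-- The point over `b` with the given `y`. -/
def up (b : Fin 5 → ℂ) (y : ℂ) : Fin 6 → ℂ := ![b 0, b 1, b 2, b 3, y, b 4]

/-- The base, over the disc of radius `r`, without the vertices and the image of `Γ`. -/
def U5 (r : ℝ) : Set (Fin 5 → ℂ) :=
  {b | ‖b 4‖ < r ∧ (∃ i : Fin 5, i ≠ 4 ∧ b i ≠ 0) ∧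
    ¬ (b 4 = 0 ∧ b 1 = 0 ∧ b 3 = b 0 ^ 4 * b 2 ^ 3)}

/-! ## The data on the cone -/

/-- The cone without `Γ`, over the disc of radius `r`. -/
def ConeR (r : ℝ) : Set (Fin 6 → ℂ) := {p | p ∈ Cone ∧ p ∉ Gam ∧ ‖p 5‖ < r}

/-- The data of the main theorem: an invariant meromorphic function on the cone without `Γ`,
over the disc of radius `r`; it is given on a dense relatively open stable set `D`. -/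
structure MData (r : ℝ) (D : Set (Fin 6 → ℂ)) (f : (Fin 6 → ℂ) → ℂ) : Prop where
  pos : 0 < r
  le_one : r ≤ 1
  rel : ∃ O : Set (Fin 6 → ℂ), IsOpen O ∧ D = O ∩ ConeR r
  dense : ConeR r ⊆ closure D
  stable : ∀ l : ℂ, l ≠ 0 → ∀ p ∈ D, act l p ∈ D
  inv : ∀ l : ℂ, l ≠ 0 → ∀ p ∈ D, f (act l p) = f p
  cont : ContinuousOn f D
  mer : ∀ p ∈ ConeR r, ∃ V : Set (Fin 6 → ℂ), IsOpen V ∧ p ∈ V ∧
    ∃ F0 F1 : (Fin 6 → ℂ) → ℂ, DifferentiableOn ℂ F0 V ∧ DifferentiableOn ℂ F1 V ∧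
      V ∩ Cone ⊆ closure {x | x ∈ V ∩ Cone ∧ F0 x ≠ 0} ∧ ∀ x ∈ V ∩ D, F0 x * f x = F1 x

/-- The domain of the traces. -/
def Dp (r : ℝ) (D : Set (Fin 6 → ℂ)) : Set (Fin 5 → ℂ) :=
  {b | b ∈ U5 r ∧ cc b ≠ 0 ∧ ∀ y : ℂ, y ^ 2 = cc b → up b y ∈ D}

/-- A square root of `cc b`. -/
noncomputable def sq (b : Fin 5 → ℂ) : ℂ := cc b ^ (1 / 2 : ℂ)

/-- The even part of `f`. -/
noncomputable def f0 (f : (Fin 6 → ℂ) → ℂ) (b : Fin 5 → ℂ) : ℂ :=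
  (f (up b (sq b)) + f (up b (-sq b))) / 2

/-- The odd part of `f`, divided by `y`. -/
noncomputable def f1 (f : (Fin 6 → ℂ) → ℂ) (b : Fin 5 → ℂ) : ℂ :=
  (f (up b (sq b)) - f (up b (-sq b))) / (2 * sq b)

/-- **The main theorem of block G.** -/
def GMain : Prop := ∀ (r : ℝ) (D : Set (Fin 6 → ℂ)) (f : (Fin 6 → ℂ) → ℂ), MData r D f →
  ∃ r' : ℝ, 0 < r' ∧ r' ≤ r ∧ ∃ P Q : MvPolynomial (Fin 4) (AnR r'), ¬ gAff (tR r') ∣ Q ∧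
    ∀ p ∈ D, p 0 = 1 → ∀ h : p 5 ∈ ball (0 : ℂ) r',
      MvPolynomial.eval₂ (evR ⟨p 5, h⟩) (affPt p) Q * f p =
        MvPolynomial.eval₂ (evR ⟨p 5, h⟩) (affPt p) P

/-! ## Rows: several variables -/

/-- Row G1 (file `T.lean`). Integrals with parameters. -/
def SpT : Prop := ∀ (n : ℕ) (f : (Fin n → ℂ) → ℂ) (V W : Set (Fin n → ℂ)) (g : ℂ → Fin n → ℂ)
  (c : ℂ → ℂ) (s : ℝ), 0 < s → IsOpen V → DifferentiableOn ℂ f V →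
  ContinuousOn g (sphere 0 s) → ContinuousOn c (sphere 0 s) → IsOpen W →
  (∀ v ∈ W, ∀ z ∈ sphere (0 : ℂ) s, v + g z ∈ V) →
  DifferentiableOn ℂ (fun v => ∮ z in C(0, s), c z * f (v + g z)) W

/-- Row G2 (file `Gen.lean`). Generic points: countably many local denominators. -/
def SpGen : Prop := ∀ (n : ℕ) (h : (Fin n → ℂ) → ℂ) (U : Set (Fin n → ℂ)), IsOpen U →
  (∀ b ∈ U, MerAt h b) → ∃ R : Set (Fin n → ℂ), R ∈ residual (Fin n → ℂ) ∧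
    (∀ b ∈ R, b ∈ U → Reg h b) ∧
    ∀ (φ : ℂ → Fin n → ℂ) (l : ℂ), (∀ᶠ x in 𝓝 l, DifferentiableAt ℂ φ x) → φ l ∈ U →
      (∃ᶠ x in 𝓝[≠] l, φ x ∈ R) →
        MeromorphicAt (fun x => h (φ x)) l ∧ ∀ᶠ x in 𝓝[≠] l, Reg h (φ x)

/-- Row G3 (file `One.lean`). One variable: clearing the poles in the closed unit disc. -/
def SpOne : Prop := ∀ H : ℂ → ℂ, (∀ l ∈ closedBall (0 : ℂ) 1, MeromorphicAt H l) →
  (∀ l ∈ sphere (0 : ℂ) 1, ContinuousAt H l) →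
  ∃ B : Polynomial ℂ, B.Monic ∧ (∀ x ∈ B.roots, ‖x‖ < 1) ∧ ∃ A : ℂ → ℂ,
    DiffContOnCl ℂ A (ball 0 1) ∧
      ∀ l ∈ closedBall (0 : ℂ) 1, ContinuousAt H l → B.eval l * H l = A l

/-- Row G4 (file `Kron.lean`). The moments satisfy a linear recurrence. -/
def SpKron : Prop := ∀ H : ℂ → ℂ, (∀ l ∈ closedBall (0 : ℂ) 1, MeromorphicAt H l) →
  (∀ l ∈ sphere (0 : ℂ) 1, ContinuousAt H l) →
  ∃ (k : ℕ) (B : ℕ → ℂ), B k = 1 ∧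
    ∀ m, ∑ j ∈ Finset.range (k + 1), B j * (∮ z in C(0, 1), z ^ (m + j) * H z) = 0

/-- Row G5 (file `Mom.lean`). Vanishing moments: Cauchy's formula for `q H`. -/
def SpMom : Prop := ∀ H : ℂ → ℂ, (∀ l ∈ closedBall (0 : ℂ) 1, MeromorphicAt H l) →
  (∀ l ∈ sphere (0 : ℂ) 1, ContinuousAt H l) → ∀ (k : ℕ) (q : ℕ → ℂ),
  (∀ m, ∑ j ∈ Finset.range (k + 1), q j * (∮ z in C(0, 1), z ^ (m + j) * H z) = 0) →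
  ∀ l ∈ ball (0 : ℂ) 1, ContinuousAt H l →
    (∑ j ∈ Finset.range (k + 1), q j * l ^ j) * H l =
      (2 * Real.pi * Complex.I)⁻¹ *
        ∑ j ∈ Finset.range (k + 1), q j * ∮ z in C(0, 1), z ^ j / (z - l) * H z

/-- Row G6 (file `Baire.lean`). The recurrence can be chosen holomorphic in the parameter. -/
def SpBaire : Prop := ∀ (n : ℕ) (δ : ℝ) (a : ℕ → (Fin n → ℂ) → ℂ), 0 < δ →
  (∀ i, DifferentiableOn ℂ (a i) (ball 0 δ)) →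
  (∀ᶠ v in residual (Fin n → ℂ), v ∈ ball (0 : Fin n → ℂ) δ → ∃ (k : ℕ) (B : ℕ → ℂ), B k = 1 ∧
    ∀ m, ∑ j ∈ Finset.range (k + 1), B j * a (m + j) v = 0) →
  ∃ (k : ℕ) (q : ℕ → (Fin n → ℂ) → ℂ), (∀ j, DifferentiableOn ℂ (q j) (ball 0 δ)) ∧
    (∃ v ∈ ball (0 : Fin n → ℂ) δ, q k v ≠ 0) ∧
      ∀ v ∈ ball (0 : Fin n → ℂ) δ, ∀ m, ∑ j ∈ Finset.range (k + 1), q j v * a (m + j) v = 0

/-- Row G7 (file `Levi.lean`). Extension to the vertex. -/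
def SpLevi : Prop := ∀ (n : ℕ) (h : (Fin n → ℂ) → ℂ) (U : Set (Fin n → ℂ))
  (g : ℂ → Fin n → ℂ) (δ : ℝ), 0 < δ → IsOpen U → (∀ b ∈ U, MerAt h b) →
  Differentiable ℂ g → g 0 = 0 →
  (∀ l ∈ sphere (0 : ℂ) 1, ∀ v ∈ ball (0 : Fin n → ℂ) δ, DifferentiableAt ℂ h (v + g l)) →
  (∀ᶠ v in residual (Fin n → ℂ), v ∈ ball (0 : Fin n → ℂ) δ →
    ∀ l ∈ closedBall (0 : ℂ) 1, v + g l ∈ U) →
  ∃ δ' : ℝ, 0 < δ' ∧ ∃ q p : (Fin n → ℂ) → ℂ, DifferentiableOn ℂ q (ball 0 δ') ∧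
    DifferentiableOn ℂ p (ball 0 δ') ∧ (∃ v ∈ ball (0 : Fin n → ℂ) δ', q v ≠ 0) ∧
      ∀ᶠ v in residual (Fin n → ℂ), v ∈ ball (0 : Fin n → ℂ) δ' → q v * h v = p v

/-- Row G8 (file `Circ.lean`). The curve `l ↦ (l z, l⁵ u, l⁶ w, l²² x, l ρ)`. -/
def SpCirc : Prop := ∀ (r : ℝ) (k : ℤ) (h : (Fin 5 → ℂ) → ℂ), 0 < r →
  (∀ b ∈ U5 r, MerAt h b) → (∀ l : ℂ, l ≠ 0 → ∀ b ∈ U5 r, h (act5 l b) = l ^ k * h b) →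
  ∃ (g : ℂ → Fin 5 → ℂ) (δ : ℝ), 0 < δ ∧ Differentiable ℂ g ∧ g 0 = 0 ∧
    (∀ l ∈ sphere (0 : ℂ) 1, ∀ v ∈ ball (0 : Fin 5 → ℂ) δ, DifferentiableAt ℂ h (v + g l)) ∧
    (∀ᶠ v in residual (Fin 5 → ℂ), v ∈ ball (0 : Fin 5 → ℂ) δ →
      ∀ l ∈ closedBall (0 : ℂ) 1, v + g l ∈ U5 r)

/-- Row G9 (file `Hom.lean`). Weighted homogeneous components. -/
def SpHom : Prop := ∀ (δ : ℝ) (F : (Fin 5 → ℂ) → ℂ), 0 < δ → DifferentiableOn ℂ F (ball 0 δ) →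
  ∃ Fd : ℕ → (Fin 5 → ℂ) → ℂ, (∀ d, DifferentiableOn ℂ (Fd d) {b | ‖b 4‖ < δ}) ∧
    (∀ d, ∀ l : ℂ, ∀ b : Fin 5 → ℂ, ‖b 4‖ < δ → Fd d (act5 l b) = l ^ d * Fd d b) ∧
    ∀ b ∈ ball (0 : Fin 5 → ℂ) δ, ∀ l : ℂ, ‖l‖ ≤ 1 →
      HasSum (fun d => l ^ d * Fd d b) (F (act5 l b))

/-- Row G10 (file `Lag.lean`). Entire functions of polynomial growth, by interpolation. -/
def SpLag : Prop := ∀ (d : ℕ) (F : ℂ → ℂ) (C : ℝ), Differentiable ℂ F →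
  (∀ z, ‖F z‖ ≤ C * (1 + ‖z‖) ^ d) → ∀ z,
    F z = ∑ i ∈ Finset.range (d + 1),
      (Lagrange.basis (Finset.range (d + 1)) (fun i : ℕ => (i : ℂ)) i).eval z * F i

/-- Row G11 (file `Pol.lean`). Homogeneous functions are polynomials. -/
def SpPol : Prop := ∀ (δ : ℝ) (d : ℕ) (F : (Fin 5 → ℂ) → ℂ), 0 < δ →
  DifferentiableOn ℂ F {b | ‖b 4‖ < δ} →
  (∀ l : ℂ, ∀ b : Fin 5 → ℂ, ‖b 4‖ < δ → F (act5 l b) = l ^ d * F b) →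
  ∃ P : MvPolynomial (Fin 4) (AnR δ), ∀ (s : ball (0 : ℂ) δ) (u w x y : ℂ),
    MvPolynomial.eval₂ (evR s) ![u, w, x, y] P = F ![1, u, w, x, s]

/-- Row G12 (file `BaseT.lean`). The theorem on the base. -/
def SpBase : Prop := ∀ (r : ℝ) (k : ℤ) (h : (Fin 5 → ℂ) → ℂ), 0 < r →
  (∀ b ∈ U5 r, MerAt h b) → (∀ l : ℂ, l ≠ 0 → ∀ b ∈ U5 r, h (act5 l b) = l ^ k * h b) →
  ∃ (δ : ℝ) (d e : ℕ) (q p : (Fin 5 → ℂ) → ℂ), 0 < δ ∧ δ ≤ r ∧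
    DifferentiableOn ℂ q {b | ‖b 4‖ < δ} ∧ DifferentiableOn ℂ p {b | ‖b 4‖ < δ} ∧
    (∀ l : ℂ, ∀ b : Fin 5 → ℂ, ‖b 4‖ < δ → q (act5 l b) = l ^ d * q b) ∧
    (∀ l : ℂ, ∀ b : Fin 5 → ℂ, ‖b 4‖ < δ → p (act5 l b) = l ^ e * p b) ∧
    (∃ b : Fin 5 → ℂ, ‖b 4‖ < δ ∧ q b ≠ 0) ∧
      ∀ᶠ b in residual (Fin 5 → ℂ), ‖b 4‖ < δ → q b * h b = p b

/-! ## Rows: the double cover -/

/-- Row G13 (file `Div.lean`). Division by `y² - cc` near a branch point. -/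
def SpDiv : Prop := ∀ (F : (Fin 6 → ℂ) → ℂ) (V : Set (Fin 6 → ℂ)) (b₀ : Fin 5 → ℂ), IsOpen V →
  DifferentiableOn ℂ F V → cc b₀ = 0 → up b₀ 0 ∈ V →
  ∃ ε : ℝ, 0 < ε ∧ ∃ A B : (Fin 5 → ℂ) → ℂ, DifferentiableOn ℂ A (ball b₀ ε) ∧
    DifferentiableOn ℂ B (ball b₀ ε) ∧
      ∀ b ∈ ball b₀ ε, ∀ y : ℂ, y ^ 2 = cc b → up b y ∈ V ∧ F (up b y) = A b + y * B b

/-- Row G14 (file `Root.lean`). The root near a point that is not a branch point. -/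
def SpRoot : Prop := ∀ (V₁ V₂ : Set (Fin 6 → ℂ)) (b₀ : Fin 5 → ℂ) (y₀ : ℂ), IsOpen V₁ →
  IsOpen V₂ → y₀ ^ 2 = cc b₀ → y₀ ≠ 0 → up b₀ y₀ ∈ V₁ → up b₀ (-y₀) ∈ V₂ →
  ∃ ε : ℝ, 0 < ε ∧ ∃ Y : (Fin 5 → ℂ) → ℂ, DifferentiableOn ℂ Y (ball b₀ ε) ∧
    ∀ b ∈ ball b₀ ε, Y b ^ 2 = cc b ∧ Y b ≠ 0 ∧ up b (Y b) ∈ V₁ ∧ up b (-Y b) ∈ V₂

/-- Row G15 (file `Lift.lean`). Local form of `f` over a point of the base. -/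
def SpLift : Prop := ∀ (r : ℝ) (D : Set (Fin 6 → ℂ)) (f : (Fin 6 → ℂ) → ℂ), MData r D f →
  ∀ b₀ ∈ U5 r, ∃ ε : ℝ, 0 < ε ∧ ∃ A0 B0 A1 B1 : (Fin 5 → ℂ) → ℂ,
    DifferentiableOn ℂ A0 (ball b₀ ε) ∧ DifferentiableOn ℂ B0 (ball b₀ ε) ∧
    DifferentiableOn ℂ A1 (ball b₀ ε) ∧ DifferentiableOn ℂ B1 (ball b₀ ε) ∧
    (∃ b ∈ ball b₀ ε, A0 b ^ 2 - cc b * B0 b ^ 2 ≠ 0) ∧
    ∀ b ∈ ball b₀ ε, ∀ y : ℂ, y ^ 2 = cc b → up b y ∈ D →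
      (A0 b + y * B0 b) * f (up b y) = A1 b + y * B1 b

/-- Row G16 (file `Tr.lean`). The traces are meromorphic. -/
def SpTr : Prop := ∀ (r : ℝ) (D : Set (Fin 6 → ℂ)) (f : (Fin 6 → ℂ) → ℂ), MData r D f →
  ∀ b ∈ U5 r, WMer (Dp r D) (f0 f) b ∧ WMer (Dp r D) (f1 f) b

/-- Row G17 (file `DpT.lean`). The domain of the traces. -/
def SpDpT : Prop := ∀ (r : ℝ) (D : Set (Fin 6 → ℂ)) (f : (Fin 6 → ℂ) → ℂ), MData r D f →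
  IsOpen (U5 r) ∧ {b : Fin 5 → ℂ | ‖b 4‖ < r} ⊆ closure (U5 r) ∧ IsOpen (Dp r D) ∧
    U5 r ⊆ closure (Dp r D)

/-- Row G21 (file `DpH.lean`). Homogeneity of the traces. -/
def SpDpH : Prop := ∀ (r : ℝ) (D : Set (Fin 6 → ℂ)) (f : (Fin 6 → ℂ) → ℂ), MData r D f →
    (∀ l : ℂ, l ≠ 0 → ∀ b ∈ U5 r, act5 l b ∈ U5 r) ∧
    (∀ l : ℂ, l ≠ 0 → ∀ b ∈ Dp r D, act5 l b ∈ Dp r D) ∧
    (∀ l : ℂ, l ≠ 0 → ∀ b ∈ Dp r D, f0 f (act5 l b) = l ^ (0 : ℤ) * f0 f b) ∧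
    (∀ l : ℂ, l ≠ 0 → ∀ b ∈ Dp r D, f1 f (act5 l b) = l ^ (-33 : ℤ) * f1 f b)

/-- Row G18 (file `Ext.lean`). From functions on `D` to functions everywhere. -/
def SpExt : Prop := ∀ (n : ℕ) (U D : Set (Fin n → ℂ)) (h : (Fin n → ℂ) → ℂ), IsOpen U →
  U ⊆ closure D → (∀ b ∈ U, WMer D h b) →
  (∀ b ∈ U, MerAt (ext D h) b) ∧
    ∀ᶠ b in residual (Fin n → ℂ), b ∈ U → b ∈ D → ext D h b = h b

/-- Row G19 (file `ExtHom.lean`). Homogeneity of the extension. -/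
def SpExtHom : Prop := ∀ (D : Set (Fin 5 → ℂ)) (h : (Fin 5 → ℂ) → ℂ) (k : ℤ),
  (∀ l : ℂ, l ≠ 0 → ∀ b ∈ D, act5 l b ∈ D) →
  (∀ l : ℂ, l ≠ 0 → ∀ b ∈ D, h (act5 l b) = l ^ k * h b) →
  ∀ l : ℂ, l ≠ 0 → ∀ b ∈ closure D, ext D h (act5 l b) = l ^ k * ext D h b

/-- Row G20 (file `Dense.lean`). Density on the cone. -/
def SpDense : Prop := ∀ (r : ℝ) (D : Set (Fin 6 → ℂ)) (f : (Fin 6 → ℂ) → ℂ), MData r D f →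
  ∀ R : Set (Fin 5 → ℂ), R ∈ residual (Fin 5 → ℂ) → ∀ p ∈ D,
    p ∈ closure {x | x ∈ D ∧ ∃ (b : Fin 5 → ℂ) (y : ℂ), x = up b y ∧ y ^ 2 = cc b ∧ b ∈ R ∧
      b ∈ Dp r D}

end Pool.Agent.KO.GA
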