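import Pool.Agent.KO.GA.Spec
import Pool.Agent.H86.Lang.Ext

/-!
# Project KO, block G, row G7: extension to the vertex
-/

set_option autoImplicit false
set_option maxHeartbeats 400000

namespace Pool.Agent.KO.GA

open Set Filter Topology Metric

lemma levi_translate {n : ℕ} (a : Fin n → ℂ) {p : (Fin n → ℂ) → Prop}
    (h : ∀ᶠ v in residual (Fin n → ℂ), p v) : ∀ᶠ v in residual (Fin n → ℂ), p (v + a) :=
  (tendsto_residual_of_isOpenMap (f := fun v : Fin n → ℂ => v + a) (by fun_prop)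
    (Homeomorph.addRight a).isOpenMap).eventually h

lemma levi_frequently {L : Set ℂ} (hL : Dense L) (l : ℂ) : ∃ᶠ x in 𝓝[≠] l, x ∈ L := by
  rw [Filter.frequently_iff]
  intro W hW
  rw [mem_nhdsWithin] at hW
  obtain ⟨O, hO, hlO, hOW⟩ := hW
  have h1 : IsOpen (O ∩ {l}ᶜ) := hO.inter isOpen_compl_singleton
  have h2 : (O ∩ {l}ᶜ).Nonempty := by
    have h3 : (O ∩ {l}ᶜ) ∈ 𝓝[≠] l := inter_mem_nhdsWithin' hO hlO
    exact (NormedField.nhdsNE_neBot l).nonempty_of_mem h3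
  obtain ⟨x, hx1, hx2⟩ := hL.inter_open_nonempty _ h1 h2
  exact ⟨x, hOW hx1, hx2⟩
where
  inter_mem_nhdsWithin' {O : Set ℂ} {l : ℂ} (hO : IsOpen O) (hl : l ∈ O) :
      (O ∩ {l}ᶜ) ∈ 𝓝[≠] l := by
    rw [mem_nhdsWithin]
    exact ⟨O, hO, hl, subset_refl _⟩

theorem levi (hT : SpT) (hG : SpGen) (hK : SpKron) (hM : SpMom) (hB : SpBaire) : SpLevi := by
  intro n h U g δ hδ hU hmer hg hg0 hcirc hres
  obtain ⟨R, hR, hR1, hR2⟩ := hG n h U hU hmer
  obtain ⟨L, hLc, hLd⟩ := TopologicalSpace.exists_countable_dense ℂ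
  have hgc : Continuous g := hg.continuous
  have hgen : ∀ᶠ v in residual (Fin n → ℂ), ∀ l ∈ L, v + g l ∈ R := by
    rw [eventually_countable_ball hLc]
    intro l _
    exact levi_translate (g l) (p := fun v => v ∈ R) hR
  -- the functions on the generic curves
  have hmero : ∀ v : Fin n → ℂ, (∀ l ∈ L, v + g l ∈ R) →
      (∀ l ∈ closedBall (0 : ℂ) 1, v + g l ∈ U) →
      ∀ l ∈ closedBall (0 : ℂ) 1, MeromorphicAt (fun x => h (v + g x)) l := by
    intro v hv1 hv2 l hl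
    refine (hR2 (fun x => v + g x) l (Eventually.of_forall fun x => ?_) (hv2 l hl) ?_).1
    · exact (hg x).const_add v
    · exact (levi_frequently hLd l).mono fun x hx => hv1 x hx
  have hcont : ∀ v ∈ ball (0 : Fin n → ℂ) δ, ∀ l ∈ sphere (0 : ℂ) 1,
      ContinuousAt (fun x => h (v + g x)) l := by
    intro v hv l hl
    have h1 := (hcirc l hl v hv).continuousAt
    exact ContinuousAt.comp (f := fun x => v + g x) (g := h) h1 (by fun_prop)
  -- the open set on the circle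
  set V : Set (Fin n → ℂ) := ⋃ l ∈ sphere (0 : ℂ) 1, (fun x => x - g l) ⁻¹' ball 0 δ with hV
  have hVo : IsOpen V := by
    rw [hV]
    refine isOpen_biUnion fun l _ => isOpen_ball.preimage (by fun_prop)
  have hhV : DifferentiableOn ℂ h V := by
    intro x hx
    rw [hV, mem_iUnion₂] at hx
    obtain ⟨l, hl, hx⟩ := hx
    have h1 := hcirc l hl (x - g l) hx
    rw [sub_add_cancel] at h1
    exact h1.differentiableWithinAt
  have hmem : ∀ v ∈ ball (0 : Fin n → ℂ) δ, ∀ z ∈ sphere (0 : ℂ) 1, v + g z ∈ V := by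
    intro v hv z hz
    rw [hV, mem_iUnion₂]
    refine ⟨z, hz, ?_⟩
    rw [mem_preimage, add_sub_cancel_right]
    exact hv
  have hTc : ∀ c : ℂ → ℂ, ContinuousOn c (sphere 0 1) →
      DifferentiableOn ℂ (fun v => ∮ z in C(0, 1), c z * h (v + g z)) (ball 0 δ) := fun c hc =>
    hT n h V (ball 0 δ) g c 1 one_pos hVo hhV hgc.continuousOn hc isOpen_ball hmem
  obtain ⟨k, q, hq, ⟨v₀, hv₀, hqk⟩, hrel⟩ := hB n δ
    (fun m v => ∮ z in C(0, 1), z ^ m * h (v + g z)) hδ
    (fun m => hTc (fun z => z ^ m) (by fun_prop)) (by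
      filter_upwards [hgen, hres] with v hv1 hv2 hv
      exact hK (fun x => h (v + g x)) (hmero v hv1 (hv2 hv)) (hcont v hv))
  -- the point `l₁`
  obtain ⟨ρ, hρ, hρg⟩ : ∃ ρ : ℝ, 0 < ρ ∧ ∀ l ∈ ball (0 : ℂ) ρ, ‖g l‖ < δ / 2 := by
    have h1 : ∀ᶠ l in 𝓝 (0 : ℂ), ‖g l‖ < δ / 2 := by
      have h2 : Tendsto (fun l => ‖g l‖) (𝓝 0) (𝓝 ‖g 0‖) := (hgc.norm).tendsto 0
      rw [hg0, norm_zero] at h2
      exact h2.eventually (gt_mem_nhds (by positivity))
    obtain ⟨ρ, hρ, h2⟩ := Metric.eventually_nhds_iff_ball.mp h1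
    exact ⟨ρ, hρ, h2⟩
  set pol : Polynomial ℂ := ∑ j ∈ Finset.range (k + 1), Polynomial.C (q j v₀) *
    Polynomial.X ^ j with hpol
  have hpole : ∀ l : ℂ, pol.eval l = ∑ j ∈ Finset.range (k + 1), q j v₀ * l ^ j := by
    intro l
    rw [hpol, Polynomial.eval_finsetSum]
    simp
  have hpol0 : pol ≠ 0 := by
    intro h0
    have h1 : pol.coeff k = q k v₀ := by
      rw [hpol, Polynomial.finset_sum_coeff]
      rw [Finset.sum_eq_single k]
      · simp
      · intro j _ hjk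
        rw [Polynomial.coeff_C_mul, Polynomial.coeff_X_pow, if_neg (Ne.symm hjk), mul_zero]
      · intro hk
        exact absurd (Finset.mem_range.mpr (Nat.lt_succ_self k)) hk
    rw [h0, Polynomial.coeff_zero] at h1
    exact hqk h1.symm
  obtain ⟨l₁, hl₁L, hl₁, hl₁0⟩ : ∃ l₁ ∈ L, l₁ ∈ ball (0 : ℂ) (min ρ 1) ∧ pol.eval l₁ ≠ 0 := by
    have h1 : IsOpen (ball (0 : ℂ) (min ρ 1) ∩ {l | pol.eval l ≠ 0}) :=
      isOpen_ball.inter (isOpen_ne_fun pol.continuous continuous_const)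
    have h2 : (ball (0 : ℂ) (min ρ 1) ∩ {l | pol.eval l ≠ 0}).Nonempty := by
      by_contra hemp
      rw [Set.not_nonempty_iff_eq_empty] at hemp
      refine hpol0 (Polynomial.eq_zero_of_infinite_isRoot pol ?_)
      have h3 : ball (0 : ℂ) (min ρ 1) ⊆ {x | pol.IsRoot x} := by
        intro x hx
        by_contra hne
        exact Set.notMem_empty x (hemp ▸ ⟨hx, hne⟩ : x ∈ (∅ : Set ℂ))
      refine Set.Infinite.mono h3 ?_
      exact infinite_of_mem_nhds (0 : ℂ) (ball_mem_nhds 0 (by positivity))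
    obtain ⟨x, hx1, hx2⟩ := hLd.inter_open_nonempty _ h1 h2
    exact ⟨x, hx2, hx1.1, hx1.2⟩
  have hl₁ρ : l₁ ∈ ball (0 : ℂ) ρ := ball_subset_ball (min_le_left _ _) hl₁
  have hl₁1 : l₁ ∈ ball (0 : ℂ) 1 := ball_subset_ball (min_le_right _ _) hl₁
  have hgl : ‖g l₁‖ < δ / 2 := hρg l₁ hl₁ρ
  set Q : (Fin n → ℂ) → ℂ := fun v => ∑ j ∈ Finset.range (k + 1), q j v * l₁ ^ j with hQ
  set P : (Fin n → ℂ) → ℂ := fun v => (2 * Real.pi * Complex.I)⁻¹ *
    ∑ j ∈ Finset.range (k + 1), q j v * ∮ z in C(0, 1), z ^ j / (z - l₁) * h (v + g z) with hP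
  have hQd : DifferentiableOn ℂ Q (ball 0 δ) := by
    rw [hQ]
    refine DifferentiableOn.fun_sum fun j _ => ?_
    exact (hq j).mul_const _
  have hPd : DifferentiableOn ℂ P (ball 0 δ) := by
    rw [hP]
    refine DifferentiableOn.const_mul ?_ _
    refine DifferentiableOn.fun_sum fun j _ => ?_
    refine (hq j).mul (hTc (fun z => z ^ j / (z - l₁)) ?_)
    refine ContinuousOn.div (by fun_prop) (by fun_prop) fun z hz => ?_
    intro h0
    rw [sub_eq_zero] at h0
    rw [mem_sphere, dist_zero_right, h0] at hz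
    rw [mem_ball, dist_zero_right] at hl₁1
    exact absurd hz hl₁1.ne
  have hsub : ∀ v ∈ ball (0 : Fin n → ℂ) (δ / 2), v - g l₁ ∈ ball (0 : Fin n → ℂ) δ := by
    intro v hv
    rw [mem_ball, dist_zero_right] at hv ⊢
    have := norm_sub_le v (g l₁)
    linarith
  refine ⟨δ / 2, by positivity, fun v => Q (v - g l₁), fun v => P (v - g l₁), ?_, ?_, ?_, ?_⟩
  · exact hQd.comp (by fun_prop) hsub
  · exact hPd.comp (by fun_prop) hsub
  · by_contra hcon
    push Not at hcon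
    have h1 : ∀ᶠ v in 𝓝 (-g l₁), Q v = 0 := by
      filter_upwards [ball_mem_nhds (-g l₁) (show 0 < δ / 2 by positivity)] with v hv
      have h2 := hcon (v + g l₁) (by
        rw [mem_ball, dist_zero_right]
        rw [mem_ball, dist_eq_norm, sub_neg_eq_add] at hv
        exact hv)
      rwa [add_sub_cancel_right] at h2
    have h2 := H86.Lang.eqOn_zero_ball hQd (u₁ := -g l₁) (by
      rw [mem_ball, dist_zero_right, norm_neg]
      linarith) h1 v₀ hv₀
    apply hl₁0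
    rw [hpole]
    exact h2
  · have h1 := levi_translate (-g l₁) (hgen.and hres)
    filter_upwards [h1] with v hv hvb
    obtain ⟨hv1, hv2⟩ := hv
    rw [← sub_eq_add_neg] at hv1 hv2
    have hvδ := hsub v hvb
    have h3 : v - g l₁ + g l₁ = v := sub_add_cancel _ _
    have hvU := hv2 hvδ l₁ (ball_subset_closedBall hl₁1)
    have hcl : ContinuousAt (fun x => h (v - g l₁ + g x)) l₁ := by
      have h4 := (hR1 _ (hv1 l₁ hl₁L) hvU).self_of_nhds.continuousAt
      exact ContinuousAt.comp (f := fun x => v - g l₁ + g x) (g := h) h4 (by fun_prop)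
    have h5 := hM (fun x => h (v - g l₁ + g x)) (hmero _ hv1 (hv2 hvδ)) (hcont _ hvδ) k
      (fun j => q j (v - g l₁)) (hrel _ hvδ) l₁ hl₁1 hcl
    rw [h3] at h5
    exact h5

end Pool.Agent.KO.GA
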