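import Pool.Agent.KO.GA.Spec
import Pool.Agent.KO.GA.Levi
import Pool.Agent.H86.Lang.Ext

/-!
# Project KO, block G, row G12: the theorem on the base
-/

set_option autoImplicit false
set_option maxHeartbeats 400000

namespace Pool.Agent.KO.GA

open Set Filter Topology Metric

lemma isOpen_U5 (r : ℝ) : IsOpen (U5 r) := by
  have h1 : IsOpen {b : Fin 5 → ℂ | ‖b 4‖ < r} :=
    isOpen_lt (by fun_prop) continuous_const
  have h2 : IsOpen {b : Fin 5 → ℂ | ∃ i : Fin 5, i ≠ 4 ∧ b i ≠ 0} := by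
    have : {b : Fin 5 → ℂ | ∃ i : Fin 5, i ≠ 4 ∧ b i ≠ 0} =
        ⋃ i : Fin 5, {b : Fin 5 → ℂ | i ≠ 4 ∧ b i ≠ 0} := by
      ext b
      simp
    rw [this]
    refine isOpen_iUnion fun i => ?_
    exact isOpen_const.inter (isOpen_ne_fun (continuous_apply i) continuous_const)
  have h3 : IsOpen {b : Fin 5 → ℂ | ¬ (b 4 = 0 ∧ b 1 = 0 ∧ b 3 = b 0 ^ 4 * b 2 ^ 3)} := by
    have : IsClosed {b : Fin 5 → ℂ | b 4 = 0 ∧ b 1 = 0 ∧ b 3 = b 0 ^ 4 * b 2 ^ 3} :=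
      (isClosed_eq (by fun_prop) continuous_const).inter
        ((isClosed_eq (by fun_prop) continuous_const).inter
          (isClosed_eq (by fun_prop) (by fun_prop)))
    exact this.isOpen_compl
  exact h1.inter (h2.inter h3)

lemma act5_act5 (l m : ℂ) (b : Fin 5 → ℂ) : act5 l (act5 m b) = act5 (l * m) b := by
  funext i
  simp only [act5, mul_pow]
  ring

lemma act5_one (b : Fin 5 → ℂ) : act5 1 b = b := by
  funext i
  simp [act5]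

lemma continuous_act5 (l : ℂ) : Continuous (act5 l) := by
  refine continuous_pi fun i => ?_
  simp only [act5]
  fun_prop

lemma act5_four (l : ℂ) (b : Fin 5 → ℂ) : act5 l b 4 = b 4 := by
  simp [act5, w5]

/-- The action as a homeomorphism. -/
noncomputable def act5H (l : ℂ) (hl : l ≠ 0) : (Fin 5 → ℂ) ≃ₜ (Fin 5 → ℂ) where
  toFun := act5 l
  invFun := act5 l⁻¹
  left_inv b := by rw [act5_act5, inv_mul_cancel₀ hl, act5_one]
  right_inv b := by rw [act5_act5, mul_inv_cancel₀ hl, act5_one]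
  continuous_toFun := continuous_act5 l
  continuous_invFun := continuous_act5 l⁻¹

lemma base_act {l : ℂ} (hl : l ≠ 0) {p : (Fin 5 → ℂ) → Prop}
    (h : ∀ᶠ b in residual (Fin 5 → ℂ), p b) : ∀ᶠ b in residual (Fin 5 → ℂ), p (act5 l b) :=
  (tendsto_residual_of_isOpenMap (f := act5 l) (continuous_act5 l)
    (act5H l hl).isOpenMap).eventually h

lemma residual_ne (i : Fin 5) : ∀ᶠ b in residual (Fin 5 → ℂ), b i ≠ 0 := by
  have h1 : IsOpen {b : Fin 5 → ℂ | b i ≠ 0} :=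
    isOpen_ne_fun (continuous_apply i) continuous_const
  refine residual_of_dense_open h1 ?_
  rw [dense_iff_closure_eq, eq_univ_iff_forall]
  intro b
  rw [Metric.mem_closure_iff]
  intro ε hε
  by_cases hb : b i = 0
  · refine ⟨Function.update b i ((ε / 2 : ℝ) : ℂ), ?_, ?_⟩
    · rw [mem_setOf_eq, Function.update_self]
      exact_mod_cast (by positivity : (ε / 2 : ℝ) ≠ 0)
    · rw [dist_pi_lt_iff hε]
      intro j
      by_cases hj : j = i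
      · subst hj
        rw [Function.update_self, hb, dist_zero_left, Complex.norm_real, Real.norm_eq_abs,
          abs_of_pos (by positivity)]
        linarith
      · rw [Function.update_of_ne hj, dist_self]
        exact hε
  · exact ⟨b, hb, by rwa [dist_self]⟩

lemma base_coeff {A B : ℕ → ℂ} {F G : ℂ → ℂ} {L : Set ℂ} (hL : Dense L) {μ : ℝ} (hμ : 0 < μ)
    (hA : ∀ x : ℂ, ‖x‖ < μ → HasSum (fun n => x ^ n * A n) (F x))
    (hB : ∀ x : ℂ, ‖x‖ < μ → HasSum (fun n => x ^ n * B n) (G x))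
    (hFG : ∀ x ∈ L, x ≠ 0 → ‖x‖ < μ → F x = G x) : A = B := by
  have h1 : ∀ (A : ℕ → ℂ) (F : ℂ → ℂ),
      (∀ x : ℂ, ‖x‖ < μ → HasSum (fun n => x ^ n * A n) (F x)) →
      HasFPowerSeriesAt F (FormalMultilinearSeries.ofScalars ℂ A) 0 := by
    intro A F hA
    rw [hasFPowerSeriesAt_iff]
    filter_upwards [ball_mem_nhds (0 : ℂ) hμ] with x hx
    rw [mem_ball, dist_zero_right] at hx
    simp only [FormalMultilinearSeries.coeff_ofScalars, smul_eq_mul, zero_add]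
    exact hA x hx
  have hF := h1 A F hA
  have hG := h1 B G hB
  have h2 : F =ᶠ[𝓝 0] G := by
    refine (hF.analyticAt.frequently_eq_iff_eventually_eq hG.analyticAt).mp ?_
    have h3 : ∀ᶠ x in 𝓝[≠] (0 : ℂ), x ≠ 0 ∧ ‖x‖ < μ := by
      refine (eventually_mem_nhdsWithin).and ?_
      refine nhdsWithin_le_nhds ?_
      filter_upwards [ball_mem_nhds (0 : ℂ) hμ] with x hx
      rwa [mem_ball, dist_zero_right] at hx
    exact ((levi_frequently hL 0).and_eventually h3).mono fun x hx =>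
      hFG x hx.1 hx.2.1 hx.2.2
  have h4 := HasFPowerSeriesAt.eq_formalMultilinearSeries hF (hG.congr h2.symm)
  funext n
  have h5 := congrArg (fun p => p.coeff n) h4
  simpa [FormalMultilinearSeries.coeff_ofScalars] using h5

lemma base_shift {A B : ℕ → ℂ} {S x : ℂ} (m : ℕ) (hB0 : ∀ n, n < m → B n = 0)
    (hB : ∀ n, B (n + m) = A n) (h : HasSum (fun n => x ^ n * A n) S) :
    HasSum (fun n => x ^ n * B n) (x ^ m * S) := by
  rw [← hasSum_nat_add_iff' m]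
  have h1 : ∑ i ∈ Finset.range m, x ^ i * B i = 0 := by
    refine Finset.sum_eq_zero fun i hi => ?_
    rw [hB0 i (Finset.mem_range.mp hi), mul_zero]
  rw [h1, sub_zero]
  have h2 := h.mul_left (x ^ m)
  have h3 : (fun n => x ^ (n + m) * B (n + m)) = fun n => x ^ m * (x ^ n * A n) := by
    funext n
    rw [hB, pow_add]
    ring
  rw [h3]
  exact h2

lemma base_seq (A : ℕ → ℂ) (m : ℕ) : ∃ B : ℕ → ℂ, (∀ n, n < m → B n = 0) ∧
    ∀ n, B (n + m) = A n :=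
  ⟨fun n => if n < m then 0 else A (n - m), fun n hn => if_pos hn, fun n => by
    change (if n + m < m then 0 else A (n + m - m)) = A n
    rw [if_neg (by omega), Nat.add_sub_cancel]⟩

lemma base_radius {δ : ℝ} (hδ : 0 < δ) (b : Fin 5 → ℂ) (hb4 : ‖b 4‖ < δ) :
    ∃ μ : ℝ, 0 < μ ∧ act5 (μ : ℂ) b ∈ ball (0 : Fin 5 → ℂ) δ := by
  have h1 : Continuous fun x : ℝ => act5 (x : ℂ) b := by
    refine continuous_pi fun i => ?_
    simp only [act5]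
    fun_prop
  have h2 : act5 ((0 : ℝ) : ℂ) b ∈ ball (0 : Fin 5 → ℂ) δ := by
    rw [mem_ball, dist_zero_right, pi_norm_lt_iff hδ]
    intro i
    fin_cases i
    · simp [act5, w5, hδ]
    · simp [act5, w5, hδ]
    · simp [act5, w5, hδ]
    · simp [act5, w5, hδ]
    · simpa [act5, w5] using hb4
  have h3 : ∀ᶠ x : ℝ in 𝓝 0, act5 (x : ℂ) b ∈ ball (0 : Fin 5 → ℂ) δ :=
    h1.tendsto 0 (isOpen_ball.mem_nhds h2)
  obtain ⟨ε, hε, h4⟩ := Metric.eventually_nhds_iff_ball.mp h3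
  refine ⟨ε / 2, by positivity, h4 _ ?_⟩
  rw [mem_ball, dist_zero_right, Real.norm_eq_abs, abs_of_pos (by positivity)]
  linarith

lemma base_norm {l : ℂ} (hl : ‖l‖ ≤ 1) (b : Fin 5 → ℂ) : ‖act5 l b‖ ≤ ‖b‖ := by
  rw [pi_norm_le_iff_of_nonneg (norm_nonneg _)]
  intro i
  have h4 : ‖l‖ ^ w5 i ≤ 1 := pow_le_one₀ (norm_nonneg _) hl
  have h5 : ‖b i‖ ≤ ‖b‖ := norm_le_pi_norm b i
  calc ‖act5 l b i‖ = ‖l‖ ^ w5 i * ‖b i‖ := by
        simp only [act5]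
        rw [norm_mul, norm_pow]
    _ ≤ 1 * ‖b i‖ := by gcongr
    _ ≤ _ := by rw [one_mul]; exact h5

lemma base_sum {δ μ : ℝ} (hμ : 0 < μ) {b : Fin 5 → ℂ} (hb4 : ‖b 4‖ < δ)
    (hμb : act5 (μ : ℂ) b ∈ ball (0 : Fin 5 → ℂ) δ) (F : (Fin 5 → ℂ) → ℂ)
    (Fd : ℕ → (Fin 5 → ℂ) → ℂ)
    (h1 : ∀ d, ∀ l : ℂ, ∀ b : Fin 5 → ℂ, ‖b 4‖ < δ → Fd d (act5 l b) = l ^ d * Fd d b)
    (h2 : ∀ b ∈ ball (0 : Fin 5 → ℂ) δ, ∀ l : ℂ, ‖l‖ ≤ 1 →
      HasSum (fun d => l ^ d * Fd d b) (F (act5 l b))) (x : ℂ) (hx : ‖x‖ < μ) :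
    HasSum (fun n => x ^ n * Fd n b) (F (act5 x b)) := by
  have hμ0 : (μ : ℂ) ≠ 0 := by exact_mod_cast hμ.ne'
  have h3 := h2 _ hμb (x / μ) (by
    rw [norm_div, Complex.norm_real, Real.norm_eq_abs, abs_of_pos hμ]
    rw [div_le_one hμ]
    exact hx.le)
  rw [act5_act5, div_mul_cancel₀ _ hμ0] at h3
  have h4 : (fun n => x ^ n * Fd n b) = fun d => (x / (μ : ℂ)) ^ d * Fd d (act5 (μ : ℂ) b) := by
    funext n
    rw [h1 n _ b hb4, ← mul_assoc, ← mul_pow, div_mul_cancel₀ _ hμ0]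
  rw [h4]
  exact h3

lemma base_final {r δ₁ δ₂ : ℝ} {k : ℤ} {h q p : (Fin 5 → ℂ) → ℂ} {L : Set ℂ} (hLd : Dense L)
    (hhom : ∀ l : ℂ, l ≠ 0 → ∀ b ∈ U5 r, h (act5 l b) = l ^ k * h b)
    (hδ₂0 : 0 < δ₂) (hδ₂r : δ₂ ≤ r) (hsub : ball (0 : Fin 5 → ℂ) δ₂ ⊆ ball 0 δ₁)
    {Q P : ℕ → (Fin 5 → ℂ) → ℂ}
    (hQ2 : ∀ d, ∀ l : ℂ, ∀ b : Fin 5 → ℂ, ‖b 4‖ < δ₂ → Q d (act5 l b) = l ^ d * Q d b)
    (hQ3 : ∀ b ∈ ball (0 : Fin 5 → ℂ) δ₂, ∀ l : ℂ, ‖l‖ ≤ 1 →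
      HasSum (fun d => l ^ d * Q d b) (q (act5 l b)))
    (hP2 : ∀ d, ∀ l : ℂ, ∀ b : Fin 5 → ℂ, ‖b 4‖ < δ₂ → P d (act5 l b) = l ^ d * P d b)
    (hP3 : ∀ b ∈ ball (0 : Fin 5 → ℂ) δ₂, ∀ l : ℂ, ‖l‖ ≤ 1 →
      HasSum (fun d => l ^ d * P d b) (p (act5 l b)))
    {b : Fin 5 → ℂ} (hb1 : ∀ l ∈ L, l ≠ 0 → act5 l b ∈ ball 0 δ₁ →
      q (act5 l b) * h (act5 l b) = p (act5 l b)) (hb0 : b 0 ≠ 0) (hb1' : b 1 ≠ 0)
    (hb4 : ‖b 4‖ < δ₂) (d k₁ k₂ : ℕ) (hk : k = (k₁ : ℤ) - k₂) :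
    Q d b * h b = if d + k₁ < k₂ then 0 else P (d + k₁ - k₂) b := by
  have hbU : b ∈ U5 r :=
    ⟨hb4.trans_le hδ₂r, ⟨0, by decide, hb0⟩, fun h0 => hb1' h0.2.1⟩
  obtain ⟨μ, hμ, hμb⟩ := base_radius hδ₂0 b hb4
  have hμ0 : (μ : ℂ) ≠ 0 := by exact_mod_cast hμ.ne'
  have hq' := base_sum hμ hb4 hμb q Q hQ2 hQ3
  have hp' := base_sum hμ hb4 hμb p P hP2 hP3
  obtain ⟨A, hA0, hA1⟩ := base_seq (fun n => Q n b * h b) k₁
  obtain ⟨B, hB0, hB1⟩ := base_seq (fun n => P n b) k₂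
  have hA : ∀ x : ℂ, ‖x‖ < μ → HasSum (fun n => x ^ n * A n)
      (x ^ k₁ * (q (act5 x b) * h b)) := by
    intro x hx
    refine base_shift k₁ hA0 hA1 ?_
    have h4 : (fun n => x ^ n * (Q n b * h b)) = fun n => x ^ n * Q n b * h b := by
      funext n
      ring
    rw [h4]
    exact (hq' x hx).mul_right (h b)
  have hB : ∀ x : ℂ, ‖x‖ < μ → HasSum (fun n => x ^ n * B n) (x ^ k₂ * p (act5 x b)) :=
    fun x hx => base_shift k₂ hB0 hB1 (hp' x hx)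
  have hkey := base_coeff (A := A) (B := B)
    (F := fun x => x ^ k₁ * (q (act5 x b) * h b)) (G := fun x => x ^ k₂ * p (act5 x b)) hLd hμ
    hA hB (by
      intro x hxL hx0 hx
      have h1 : act5 x b ∈ ball (0 : Fin 5 → ℂ) δ₁ := by
        apply hsub
        have h2 : act5 x b = act5 (x / μ) (act5 μ b) := by
          rw [act5_act5, div_mul_cancel₀ _ hμ0]
        rw [h2, mem_ball, dist_zero_right]
        rw [mem_ball, dist_zero_right] at hμb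
        refine lt_of_le_of_lt (base_norm ?_ _) hμb
        rw [norm_div, Complex.norm_real, Real.norm_eq_abs, abs_of_pos hμ, div_le_one hμ]
        exact hx.le
      have h2 := hb1 x hxL hx0 h1
      rw [hhom x hx0 b hbU] at h2
      have h3 : x ^ k₂ * x ^ k = x ^ k₁ := by
        rw [← zpow_natCast, ← zpow_natCast, ← zpow_add₀ hx0]
        congr 1
        omega
      calc x ^ k₁ * (q (act5 x b) * h b) = x ^ k₂ * (q (act5 x b) * (x ^ k * h b)) := by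
            rw [← h3]; ring
        _ = x ^ k₂ * p (act5 x b) := by rw [h2])
  have h1 := congrFun hkey (d + k₁)
  rw [hA1] at h1
  have h2 : Q d b * h b = B (d + k₁) := h1
  rw [h2]
  split_ifs with hlt
  · exact hB0 _ hlt
  · have h3 := hB1 (d + k₁ - k₂)
    rw [Nat.sub_add_cancel (by omega)] at h3
    exact h3

theorem baseT (hC : SpCirc) (hL : SpLevi) (hH : SpHom) : SpBase := by
  intro r k h hr hmer hhom
  obtain ⟨g, δ, hδ, hg, hg0, hc, hres⟩ := hC r k h hr hmer hhom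
  obtain ⟨δ₁, hδ₁, q, p, hq, hp, ⟨v₀, hv₀, hqv₀⟩, hqp⟩ :=
    hL 5 h (U5 r) g δ hδ (isOpen_U5 r) hmer hg hg0 hc hres
  obtain ⟨L, hLc, hLd⟩ := TopologicalSpace.exists_countable_dense ℂ
  obtain ⟨δ₂, hδ₂0, hδ₂1, hδ₂r⟩ : ∃ δ₂ : ℝ, 0 < δ₂ ∧ δ₂ ≤ δ₁ ∧ δ₂ ≤ r :=
    ⟨min δ₁ r, lt_min hδ₁ hr, min_le_left _ _, min_le_right _ _⟩
  have hsub : ball (0 : Fin 5 → ℂ) δ₂ ⊆ ball 0 δ₁ := ball_subset_ball hδ₂1
  obtain ⟨v₁, hv₁, hqv₁⟩ : ∃ v ∈ ball (0 : Fin 5 → ℂ) δ₂, q v ≠ 0 := by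
    by_contra hcon
    push Not at hcon
    refine hqv₀ (H86.Lang.eqOn_zero_ball hq (u₁ := 0) (mem_ball_self hδ₁) ?_ v₀ hv₀)
    filter_upwards [ball_mem_nhds (0 : Fin 5 → ℂ) hδ₂0] with v hv
    exact hcon v hv
  obtain ⟨Q, hQ1, hQ2, hQ3⟩ := hH δ₂ q hδ₂0 (hq.mono hsub)
  obtain ⟨P, hP1, hP2, hP3⟩ := hH δ₂ p hδ₂0 (hp.mono hsub)
  obtain ⟨d, hd⟩ : ∃ d, Q d v₁ ≠ 0 := by
    by_contra hcon
    push Not at hcon
    have h1 := hQ3 v₁ hv₁ 1 (by simp)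
    rw [act5_one] at h1
    simp only [hcon, mul_zero] at h1
    exact hqv₁ (h1.unique hasSum_zero)
  obtain ⟨k₁, k₂, hk⟩ : ∃ k₁ k₂ : ℕ, k = (k₁ : ℤ) - k₂ := ⟨k.toNat, (-k).toNat, by omega⟩
  have hv₁4 : ‖v₁ 4‖ < δ₂ := by
    rw [mem_ball, dist_zero_right] at hv₁
    exact (norm_le_pi_norm v₁ 4).trans_lt hv₁
  -- the generic identity
  have hgen1 : ∀ᶠ b in residual (Fin 5 → ℂ), ∀ l ∈ L, l ≠ 0 → act5 l b ∈ ball 0 δ₁ →
      q (act5 l b) * h (act5 l b) = p (act5 l b) := by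
    rw [eventually_countable_ball hLc]
    intro l _
    by_cases hl0 : l = 0
    · exact Eventually.of_forall fun b h0 => absurd hl0 h0
    · have h1 := base_act hl0 hqp
      filter_upwards [h1] with b hb _
      exact hb
  have hfin : ∀ᶠ b in residual (Fin 5 → ℂ), ‖b 4‖ < δ₂ →
      Q d b * h b = if d + k₁ < k₂ then 0 else P (d + k₁ - k₂) b := by
    filter_upwards [hgen1, residual_ne 0, residual_ne 1] with b hb1 hb0 hb1' hb4
    exact base_final hLd hhom hδ₂0 hδ₂r hsub hQ2 hQ3 hP2 hP3 hb1 hb0 hb1' hb4 d k₁ k₂ hk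
  by_cases hlt : d + k₁ < k₂
  · refine ⟨δ₂, d, 0, Q d, fun _ => 0, hδ₂0, hδ₂r, hQ1 d, differentiableOn_const 0,
      fun l b hb => hQ2 d l b hb, fun l b _ => by simp, ⟨v₁, hv₁4, hd⟩, ?_⟩
    simp only [if_pos hlt] at hfin
    exact hfin
  · refine ⟨δ₂, d, d + k₁ - k₂, Q d, P (d + k₁ - k₂), hδ₂0, hδ₂r, hQ1 d, hP1 _,
      fun l b hb => hQ2 d l b hb, fun l b hb => hP2 _ l b hb, ⟨v₁, hv₁4, hd⟩, ?_⟩
    simp only [if_neg hlt] at hfin
    exact hfin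

end Pool.Agent.KO.GA
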