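import Pool.Agent.KO.GA.Spec
import Pool.Agent.KO.GA.BaseT

/-!
# Project KO, block G, row G8: the curve
-/

set_option autoImplicit false
set_option maxHeartbeats 400000

namespace Pool.Agent.KO.GA

open Set Filter Topology Metric

lemma circ_residual {i : Fin 5} (hi : i ≠ 1) (a : ℂ) {b : ℂ} (hb : b ≠ 0) :
    ∀ᶠ v in residual (Fin 5 → ℂ), v i ^ 5 * a ≠ v 1 * b := by
  have h1 : IsOpen {v : Fin 5 → ℂ | v i ^ 5 * a ≠ v 1 * b} :=
    isOpen_ne_fun (by fun_prop) (by fun_prop)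
  refine residual_of_dense_open h1 ?_
  rw [dense_iff_closure_eq, eq_univ_iff_forall]
  intro v
  rw [Metric.mem_closure_iff]
  intro ε hε
  by_cases hv : v i ^ 5 * a = v 1 * b
  · refine ⟨Function.update v 1 (v 1 + ((ε / 2 : ℝ) : ℂ)), ?_, ?_⟩
    · change (Function.update v 1 (v 1 + ((ε / 2 : ℝ) : ℂ))) i ^ 5 * a ≠
        (Function.update v 1 (v 1 + ((ε / 2 : ℝ) : ℂ))) 1 * b
      rw [Function.update_self, Function.update_of_ne hi, hv, add_mul]
      intro h
      have h2 : ((ε / 2 : ℝ) : ℂ) * b = 0 := by linear_combination -h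
      rcases mul_eq_zero.mp h2 with h3 | h3
      · have : (ε / 2 : ℝ) = 0 := by exact_mod_cast h3
        linarith
      · exact hb h3
    · rw [dist_pi_lt_iff hε]
      intro j
      by_cases hj : j = 1
      · subst hj
        rw [Function.update_self, dist_self_add_right, Complex.norm_real, Real.norm_eq_abs,
          abs_of_pos (by positivity)]
        linarith
      · rw [Function.update_of_ne hj, dist_self]
        exact hε
  · exact ⟨v, hv, by rwa [dist_self]⟩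

lemma circ_reg {r : ℝ} {k : ℤ} {h : (Fin 5 → ℂ) → ℂ}
    (hhom : ∀ l : ℂ, l ≠ 0 → ∀ b ∈ U5 r, h (act5 l b) = l ^ k * h b) {b : Fin 5 → ℂ}
    (hb : b ∈ U5 r) (hr : Reg h b) {l : ℂ} (hl : l ≠ 0) : Reg h (act5 l b) := by
  have h1 : ∀ᶠ x in 𝓝 b, DifferentiableAt ℂ h x ∧ x ∈ U5 r :=
    hr.and ((isOpen_U5 r).mem_nhds hb)
  have h2 : Tendsto (act5 l⁻¹) (𝓝 (act5 l b)) (𝓝 b) := by
    have h3 := (continuous_act5 l⁻¹).tendsto (act5 l b)
    rwa [act5_act5, inv_mul_cancel₀ hl, act5_one] at h3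
  have hd : Differentiable ℂ (act5 l⁻¹) := by
    rw [differentiable_pi]
    intro i
    simp only [act5]
    fun_prop
  unfold Reg
  filter_upwards [h2.eventually h1, (h2.eventually h1).eventually_nhds] with y hy hy'
  have h4 : h =ᶠ[𝓝 y] fun y' => l ^ k * h (act5 l⁻¹ y') := by
    filter_upwards [hy'] with y' hy''
    rw [← hhom l hl _ hy''.2, act5_act5, mul_inv_cancel₀ hl, act5_one]
  refine DifferentiableAt.congr_of_eventuallyEq ?_ h4
  exact (DifferentiableAt.comp y hy.1 (hd y)).const_mul _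

theorem circ (hG : SpGen) : SpCirc := by
  intro r k h hr hmer hhom
  obtain ⟨R, hR, hR1, hR2⟩ := hG 5 h (U5 r) (isOpen_U5 r) hmer
  obtain ⟨L, hLc, hLd⟩ := TopologicalSpace.exists_countable_dense ℂ
  obtain ⟨e, he⟩ : ∃ e : Fin 5 → ℂ, e = Pi.single 4 1 := ⟨_, rfl⟩
  have hgen : ∀ᶠ v in residual (Fin 5 → ℂ), ∀ τ ∈ L, v + τ • e ∈ R := by
    rw [eventually_countable_ball hLc]
    intro τ _
    exact levi_translate (τ • e) (p := fun v => v ∈ R) hR
  obtain ⟨v, hvb, hv1, hv0, hv1'⟩ : ∃ v ∈ ball (0 : Fin 5 → ℂ) (r / 4),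
      (∀ τ ∈ L, v + τ • e ∈ R) ∧ v 0 ≠ 0 ∧ v 1 ≠ 0 := by
    have h1 : {v : Fin 5 → ℂ | (∀ τ ∈ L, v + τ • e ∈ R) ∧ v 0 ≠ 0 ∧ v 1 ≠ 0} ∈
        residual (Fin 5 → ℂ) := hgen.and ((residual_ne 0).and (residual_ne 1))
    obtain ⟨v, hv1, hv2⟩ := (dense_of_mem_residual h1).inter_open_nonempty
      (ball (0 : Fin 5 → ℂ) (r / 4)) isOpen_ball ⟨0, mem_ball_self (by positivity)⟩
    exact ⟨v, hv1, hv2⟩
  have he4 : e 4 = 1 := by rw [he]; simp
  have hej : ∀ j : Fin 5, j ≠ 4 → e j = 0 := by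
    intro j hj
    rw [he, Pi.single_apply, if_neg hj]
  have hφ4 : ∀ τ : ℂ, (v + τ • e) 4 = v 4 + τ := by
    intro τ
    rw [Pi.add_apply, Pi.smul_apply, he4, smul_eq_mul, mul_one]
  have hφj : ∀ (τ : ℂ) (j : Fin 5), j ≠ 4 → (v + τ • e) j = v j := by
    intro τ j hj
    rw [Pi.add_apply, Pi.smul_apply, hej j hj, smul_zero, add_zero]
  have hφU : ∀ τ : ℂ, ‖v 4 + τ‖ < r → v + τ • e ∈ U5 r := by
    intro τ hτ
    refine ⟨by rwa [hφ4], ⟨0, by decide, ?_⟩, fun h0 => ?_⟩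
    · rwa [hφj τ 0 (by decide)]
    · have h2 := h0.2.1
      rw [hφj τ 1 (by decide)] at h2
      exact hv1' h2
  have hev : ∀ τ : ℂ, ‖v 4 + τ‖ < r → ∀ᶠ x in 𝓝[≠] τ, Reg h (v + x • e) := by
    intro τ hτ
    refine (hR2 (fun x => v + x • e) τ (Eventually.of_forall fun x => by fun_prop)
      (hφU τ hτ) ?_).2
    exact (levi_frequently hLd τ).mono fun x hx => hv1 x hx
  -- the bad values of `t`
  set Bd : Set ℂ := {σ | σ ∈ closedBall (0 : ℂ) (r / 2) ∧ ¬ Reg h (v + (σ - v 4) • e)} with hBd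
  have hBdf : Bd.Finite := by
    by_contra hinf
    have hinf' : Bd.Infinite := hinf
    obtain ⟨x, hx, hacc⟩ := hinf'.exists_accPt_of_subset_isCompact
      (isCompact_closedBall (0 : ℂ) (r / 2)) (fun σ hσ => hσ.1)
    rw [accPt_iff_frequently_nhdsNE] at hacc
    rw [mem_closedBall, dist_zero_right] at hx
    have h1 := hev (x - v 4) (by
      rw [add_sub_cancel]
      linarith)
    have h2 : Tendsto (fun σ : ℂ => σ - v 4) (𝓝[≠] x) (𝓝[≠] (x - v 4)) := by
      refine tendsto_nhdsWithin_iff.mpr ⟨?_, ?_⟩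
      · exact ((continuous_id.sub continuous_const).tendsto x).mono_left nhdsWithin_le_nhds
      · filter_upwards [self_mem_nhdsWithin] with σ hσ
        intro h3
        exact hσ (sub_left_injective h3)
    obtain ⟨σ, hσ1, hσ2⟩ := (hacc.and_eventually (h2.eventually h1)).exists
    exact hσ1.2 hσ2
  obtain ⟨ρ, hρ0, hρr, hρ⟩ : ∃ ρ : ℝ, 0 < ρ ∧ ρ < r / 2 ∧ ∀ σ ∈ Bd, ‖σ‖ ≠ ρ := by
    have h1 : (Ioo (0 : ℝ) (r / 2) \ (norm '' Bd)).Nonempty :=
      ((Ioo_infinite (by positivity)).diff (hBdf.image _)).nonempty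
    obtain ⟨ρ, hρ1, hρ2⟩ := h1
    exact ⟨ρ, hρ1.1, hρ1.2, fun σ hσ h2 => hρ2 ⟨σ, hσ, h2⟩⟩
  have hgood : ∀ σ : ℂ, ‖σ‖ = ρ → Reg h (v + (σ - v 4) • e) := by
    intro σ hσ
    by_contra hcon
    refine hρ σ ⟨?_, hcon⟩ hσ
    rw [mem_closedBall, dist_zero_right, hσ]
    exact hρr.le
  have hρ0' : (ρ : ℂ) ≠ 0 := by exact_mod_cast hρ0.ne'
  -- the curve
  obtain ⟨g, hg⟩ : ∃ g : ℂ → Fin 5 → ℂ, g = fun l => ![l * v 0, l ^ 5 * v 1, l ^ 6 * v 2,
    l ^ 22 * v 3, l * ρ] := ⟨_, rfl⟩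
  have hgd : Differentiable ℂ g := by
    rw [differentiable_pi, hg]
    intro i
    fin_cases i
    · change Differentiable ℂ fun l : ℂ => l * v 0
      fun_prop
    · change Differentiable ℂ fun l : ℂ => l ^ 5 * v 1
      fun_prop
    · change Differentiable ℂ fun l : ℂ => l ^ 6 * v 2
      fun_prop
    · change Differentiable ℂ fun l : ℂ => l ^ 22 * v 3
      fun_prop
    · change Differentiable ℂ fun l : ℂ => l * ρ
      fun_prop
  have hg0 : g 0 = 0 := by
    rw [hg]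
    funext i
    fin_cases i <;> simp
  have hgact : ∀ l : ℂ, g l = act5 l (v + (l * ρ - v 4) • e) := by
    intro l
    have a0 := hφj (l * ρ - v 4) 0 (by decide)
    have a1 := hφj (l * ρ - v 4) 1 (by decide)
    have a2 := hφj (l * ρ - v 4) 2 (by decide)
    have a3 := hφj (l * ρ - v 4) 3 (by decide)
    have a4 := hφ4 (l * ρ - v 4)
    rw [add_sub_cancel] at a4
    rw [hg]
    funext i
    fin_cases i
    · change l * v 0 = l ^ 1 * (v + (l * ρ - v 4) • e) 0
      rw [a0, pow_one]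
    · change l ^ 5 * v 1 = l ^ 5 * (v + (l * ρ - v 4) • e) 1
      rw [a1]
    · change l ^ 6 * v 2 = l ^ 6 * (v + (l * ρ - v 4) • e) 2
      rw [a2]
    · change l ^ 22 * v 3 = l ^ 22 * (v + (l * ρ - v 4) • e) 3
      rw [a3]
    · change l * ρ = l ^ 0 * (v + (l * ρ - v 4) • e) 4
      rw [a4, pow_zero, one_mul]
  have hnl : ∀ l ∈ sphere (0 : ℂ) 1, ‖l * (ρ : ℂ)‖ = ρ := by
    intro l hl
    rw [mem_sphere, dist_zero_right] at hl
    rw [norm_mul, hl, one_mul, Complex.norm_real, Real.norm_eq_abs, abs_of_pos hρ0]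
  have hgreg : ∀ l ∈ sphere (0 : ℂ) 1, Reg h (g l) := by
    intro l hl
    have hl0 : l ≠ 0 := by
      rintro rfl
      rw [mem_sphere, dist_self] at hl
      exact zero_ne_one hl
    rw [hgact]
    refine circ_reg hhom (hφU _ ?_) (hgood _ (hnl l hl)) hl0
    rw [add_sub_cancel, hnl l hl]
    linarith
  have hOo : IsOpen {b : Fin 5 → ℂ | Reg h b} := by
    rw [isOpen_iff_eventually]
    intro b hb
    exact hb.eventually_nhds
  obtain ⟨δ, hδ, hδ'⟩ := ((isCompact_sphere (0 : ℂ) 1).image hgd.continuous).exists_thickening_subset_open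
    hOo (by
      rintro _ ⟨l, hl, rfl⟩
      exact hgreg l hl)
  refine ⟨g, min δ (r / 2), by positivity, hgd, hg0, ?_, ?_⟩
  · intro l hl x hx
    have h1 : x + g l ∈ thickening δ (g '' sphere (0 : ℂ) 1) := by
      rw [mem_thickening_iff]
      refine ⟨g l, ⟨l, hl, rfl⟩, ?_⟩
      rw [dist_eq_norm, add_sub_cancel_right]
      rw [mem_ball, dist_zero_right] at hx
      exact hx.trans_le (min_le_left _ _)
    exact (hδ' h1).self_of_nhds
  · have hρ5 : (ρ : ℂ) ^ 5 ≠ 0 := pow_ne_zero _ hρ0'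
    have hv05 : v 0 ^ 5 ≠ 0 := pow_ne_zero _ hv0
    filter_upwards [circ_residual (i := 4) (by decide) (v 1) hρ5,
      circ_residual (i := 0) (by decide) (v 1) hv05] with x hx1 hx2 hxb l hl
    rw [mem_closedBall, dist_zero_right] at hl
    rw [mem_ball, dist_zero_right] at hxb
    have g0 : (x + g l) 0 = x 0 + l * v 0 := by rw [hg]; rfl
    have g1 : (x + g l) 1 = x 1 + l ^ 5 * v 1 := by rw [hg]; rfl
    have g4 : (x + g l) 4 = x 4 + l * ρ := by rw [hg]; rfl
    refine ⟨?_, ?_, ?_⟩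
    · rw [g4]
      have h1 : ‖x 4‖ < r / 2 := ((norm_le_pi_norm x 4).trans_lt hxb).trans_le (min_le_right _ _)
      have h2 : ‖l * (ρ : ℂ)‖ ≤ ρ := by
        rw [norm_mul, Complex.norm_real, Real.norm_eq_abs, abs_of_pos hρ0]
        exact mul_le_of_le_one_left hρ0.le hl
      have h3 := norm_add_le (x 4) (l * ρ)
      linarith
    · by_contra hcon
      push Not at hcon
      have h1 := hcon 0 (by decide)
      have h2 := hcon 1 (by decide)
      rw [g0] at h1
      rw [g1] at h2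
      apply hx2
      have h3 : x 0 = -(l * v 0) := by linear_combination h1
      have h4 : x 1 = -(l ^ 5 * v 1) := by linear_combination h2
      rw [h3, h4]
      ring
    · rintro ⟨h1, h2, -⟩
      rw [g4] at h1
      rw [g1] at h2
      apply hx1
      have h3 : x 4 = -(l * ρ) := by linear_combination h1
      have h4 : x 1 = -(l ^ 5 * v 1) := by linear_combination h2
      rw [h3, h4]
      ring

end Pool.Agent.KO.GA
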