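import Pool.Agent.KO.GA.Spec

/-!
# Project KO, block G, row G20: density on the cone
-/

set_option autoImplicit false
set_option maxHeartbeats 400000

namespace Pool.Agent.KO.GA

open Set Filter Topology Metric

theorem Dense_root (y c c' : ℂ) (hy : y ^ 2 = c) :
    ∃ y' : ℂ, y' ^ 2 = c' ∧ ‖y' - y‖ ^ 2 ≤ ‖c' - c‖ := by
  obtain ⟨s, hs⟩ := IsAlgClosed.exists_pow_nat_eq c' (n := 2) two_pos
  have key : ‖s - y‖ * ‖s + y‖ = ‖c' - c‖ := by
    rw [← norm_mul]
    congr 1
    rw [← hs, ← hy]; ring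
  rcases le_total ‖s - y‖ ‖s + y‖ with h | h
  · refine ⟨s, hs, ?_⟩
    rw [← key, _root_.sq]
    exact mul_le_mul_of_nonneg_left h (norm_nonneg _)
  · refine ⟨-s, by rw [neg_sq, hs], ?_⟩
    have e : ‖-s - y‖ = ‖s + y‖ := by
      rw [show -s - y = -(s + y) by ring, norm_neg]
    rw [e, ← key, _root_.sq]
    exact mul_le_mul_of_nonneg_right h (norm_nonneg _)

theorem Dense_continuous_cc : Continuous cc := by
  unfold cc
  fun_prop

theorem dense_spec (h : SpDpT) : SpDense := by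
  intro r D f hM R hR p hp
  obtain ⟨-, hUc, hDo, hUD⟩ := h r D f hM
  obtain ⟨O, -, hDO⟩ := hM.rel
  have hpc : p ∈ ConeR r := by
    have := hp
    rw [hDO] at this
    exact this.2
  obtain ⟨⟨hG, -, -⟩, -, hr⟩ := hpc
  set b : Fin 5 → ℂ := ![p 0, p 1, p 2, p 3, p 5] with hb
  have hb0 : b 0 = p 0 := rfl
  have hb1 : b 1 = p 1 := rfl
  have hb2 : b 2 = p 2 := rfl
  have hb3 : b 3 = p 3 := rfl
  have hb4 : b 4 = p 5 := rfl
  have hcc : p 4 ^ 2 = cc b := by
    have : G p = 0 := hG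
    unfold G at this
    unfold cc
    rw [hb0, hb1, hb2, hb3, hb4]
    linear_combination this
  have hpu : p = up b (p 4) := by
    funext i
    fin_cases i <;> rfl
  have hbcl : b ∈ closure (Dp r D ∩ R) := by
    have h1 : b ∈ closure (U5 r) := hUc (by
      show ‖b 4‖ < r
      rw [hb4]; exact hr)
    have h2 : b ∈ closure (Dp r D) := by
      have := closure_mono hUD h1
      rwa [closure_closure] at this
    have h3 : Dp r D ⊆ closure (Dp r D ∩ R) :=
      (dense_of_mem_residual hR).open_subset_closure_inter hDo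
    have := closure_mono h3 h2
    rwa [closure_closure] at this
  rw [Metric.mem_closure_iff]
  intro ε hε
  have hcont := (Metric.continuous_iff.1 Dense_continuous_cc) b (ε ^ 2) (by positivity)
  obtain ⟨δ, hδ, hδ'⟩ := hcont
  obtain ⟨b', hb'm, hb'd⟩ := Metric.mem_closure_iff.1 hbcl (min δ ε) (lt_min hδ hε)
  have hd1 : dist b' b < δ := by
    rw [dist_comm]; exact lt_of_lt_of_le hb'd (min_le_left _ _)
  have hd2 : dist b b' < ε := lt_of_lt_of_le hb'd (min_le_right _ _)
  obtain ⟨y', hy', hyn⟩ := Dense_root (p 4) (cc b) (cc b') hcc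
  have hyd : ‖y' - p 4‖ < ε := by
    have h1 : ‖cc b' - cc b‖ < ε ^ 2 := by
      rw [← dist_eq_norm]; exact hδ' b' hd1
    exact lt_of_pow_lt_pow_left₀ 2 hε.le (lt_of_le_of_lt hyn h1)
  refine ⟨up b' y', ⟨hb'm.1.2.2 y' hy', b', y', rfl, hy', hb'm.2, hb'm.1⟩, ?_⟩
  rw [hpu, dist_pi_lt_iff hε]
  have hcoord : ∀ i : Fin 5, dist (b i) (b' i) < ε := fun i =>
    lt_of_le_of_lt (dist_le_pi_dist b b' i) hd2
  intro i
  fin_cases i
  · exact hcoord 0
  · exact hcoord 1
  · exact hcoord 2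
  · exact hcoord 3
  · show dist (p 4) y' < ε
    rw [dist_comm, dist_eq_norm]; exact hyd
  · exact hcoord 4

end Pool.Agent.KO.GA
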