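import Pool.Agent.KO.GA.Spec

/-!
# Project KO, block G, row G13: division by `y² - cc` near a branch point
-/

set_option autoImplicit false
set_option maxHeartbeats 400000

namespace Pool.Agent.KO.GA

open Set Filter Topology Metric

/-- The base point under a point of `Fin 6 → ℂ`. -/
def divBase (p : Fin 6 → ℂ) : Fin 5 → ℂ := ![p 0, p 1, p 2, p 3, p 5]

/-- The vertical vector of length `z`. -/
def divG (z : ℂ) : Fin 6 → ℂ := ![0, 0, 0, 0, z, 0]

theorem divBase_up (b : Fin 5 → ℂ) (y : ℂ) : divBase (up b y) = b := by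
  ext i
  fin_cases i <;> simp [divBase, up]

theorem div_up_add (b : Fin 5 → ℂ) (z : ℂ) : up b 0 + divG z = up b z := by
  ext i
  fin_cases i <;> simp [divG, up]

theorem div_cc_differentiable : Differentiable ℂ cc := by
  unfold cc
  fun_prop

theorem divBase_differentiable : Differentiable ℂ divBase := by
  rw [differentiable_pi]
  intro i
  fin_cases i <;> simp [divBase] <;> fun_prop

theorem div_up_differentiable : Differentiable ℂ (fun b : Fin 5 → ℂ => up b 0) := by
  rw [differentiable_pi]
  intro i
  fin_cases i <;> simp [up] <;> fun_prop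

theorem div_up_differentiable' (b : Fin 5 → ℂ) : Differentiable ℂ (fun y : ℂ => up b y) := by
  rw [differentiable_pi]
  intro i
  fin_cases i <;> simp [up]

theorem divG_continuous : Continuous divG := by
  refine continuous_pi fun i => ?_
  fin_cases i <;> simp [divG] <;> fun_prop

theorem div_up_mem_ball (b b₀ : Fin 5 → ℂ) (y : ℂ) (δ : ℝ) (hb : b ∈ ball b₀ δ) (hy : ‖y‖ < δ) :
    up b y ∈ ball (up b₀ 0) δ := by
  have hδ : 0 < δ := (norm_nonneg y).trans_lt hy
  rw [mem_ball, dist_pi_lt_iff hδ] at hb ⊢
  intro i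
  fin_cases i
  · simpa [up] using hb 0
  · simpa [up] using hb 1
  · simpa [up] using hb 2
  · simpa [up] using hb 3
  · simpa [up] using hy
  · simpa [up] using hb 4

/-- **Row G13.** -/
theorem div_spec (hT : SpT) : SpDiv := by
  intro F V b₀ hV hF hb₀ hmem
  obtain ⟨δ, hδ, hδV⟩ := Metric.isOpen_iff.1 hV _ hmem
  set s : ℝ := δ / 2 with hs
  have hs0 : 0 < s := by positivity
  have hδs : δ = 2 * s := by rw [hs]; ring
  -- the function under the integral
  set V' : Set (Fin 6 → ℂ) := V ∩ {p | p 4 ^ 2 - cc (divBase p) ≠ 0} with hV'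
  have hccB : Differentiable ℂ (fun p : Fin 6 → ℂ => p 4 ^ 2 - cc (divBase p)) := by
    have h1 : Differentiable ℂ (fun p : Fin 6 → ℂ => p 4 ^ 2) := by fun_prop
    exact h1.sub (div_cc_differentiable.comp divBase_differentiable)
  have hV'o : IsOpen V' := hV.inter (isOpen_ne_fun hccB.continuous continuous_const)
  set f : (Fin 6 → ℂ) → ℂ := fun p => F p / (p 4 ^ 2 - cc (divBase p)) with hf
  have hfd : DifferentiableOn ℂ f V' := by
    have h1 : DifferentiableOn ℂ F V' := hF.mono inter_subset_left
    have h2 : DifferentiableOn ℂ (fun p : Fin 6 → ℂ => p 4 ^ 2 - cc (divBase p)) V' :=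
      hccB.differentiableOn
    have h3 : DifferentiableOn ℂ (fun p : Fin 6 → ℂ => (p 4 ^ 2 - cc (divBase p))⁻¹) V' :=
      h2.fun_inv (fun p hp => hp.2)
    have h4 := h1.fun_mul h3
    simpa only [hf, div_eq_mul_inv] using h4
  have hcc4 : Continuous (fun v : Fin 6 → ℂ => ‖cc (divBase v)‖) :=
    (div_cc_differentiable.comp divBase_differentiable).continuous.norm
  set W : Set (Fin 6 → ℂ) :=
    ball (up b₀ 0) s ∩ ({v | ‖v 4‖ < s / 2} ∩ {v | ‖cc (divBase v)‖ < (s / 2) ^ 2}) with hW
  have hWo : IsOpen W := by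
    refine isOpen_ball.inter (IsOpen.inter ?_ ?_)
    · exact isOpen_lt (by fun_prop) continuous_const
    · exact isOpen_lt hcc4 continuous_const
  have hWV : ∀ v ∈ W, ∀ z ∈ sphere (0 : ℂ) s, v + divG z ∈ V' := by
    rintro v ⟨hv1, hv2, hv3⟩ z hz
    have hz' : ‖z‖ = s := by simpa using hz
    have h4 : (v + divG z) 4 = v 4 + z := by simp [divG]
    have hbase : divBase (v + divG z) = divBase v := by
      ext i
      fin_cases i <;> simp [divBase, divG]
    refine ⟨hδV ?_, ?_⟩
    · rw [mem_ball, dist_pi_lt_iff hδ]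
      rw [mem_ball, dist_pi_lt_iff hs0] at hv1
      intro i
      have hi := hv1 i
      by_cases h : i = 4
      · subst h
        rw [h4]
        have h0 : up b₀ 0 4 = 0 := by simp [up]
        rw [h0, dist_zero_right]
        have := norm_add_le (v 4) z
        simp only [mem_ofPred_eq] at hv2
        linarith
      · have hg : (v + divG z) i = v i := by
          have hz0 : divG z i = 0 := by
            revert h
            fin_cases i <;> simp [divG]
          rw [Pi.add_apply, hz0, add_zero]
        rw [hg]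
        linarith
    · simp only [mem_ofPred_eq]
      rw [h4, hbase]
      intro h0
      have h5 : (v 4 + z) ^ 2 = cc (divBase v) := by linear_combination h0
      have h6 : ‖v 4 + z‖ ^ 2 < (s / 2) ^ 2 := by
        rw [← norm_pow, h5]
        exact hv3
      have h7 : ‖v 4 + z‖ < s / 2 := lt_of_pow_lt_pow_left₀ 2 (by positivity) h6
      have h8 : ‖z‖ ≤ ‖v 4 + z‖ + ‖v 4‖ := by
        have := norm_sub_le (v 4 + z) (v 4)
        simpa using this
      simp only [mem_ofPred_eq] at hv2
      linarith
  -- the radius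
  have hccc : Continuous (fun b : Fin 5 → ℂ => ‖cc b‖) := div_cc_differentiable.continuous.norm
  have hopen : IsOpen {b : Fin 5 → ℂ | ‖cc b‖ < (s / 2) ^ 2} := isOpen_lt hccc continuous_const
  obtain ⟨ε₁, hε₁, hε₁s⟩ := Metric.isOpen_iff.1 hopen b₀ (by
    simp only [mem_ofPred_eq, hb₀, norm_zero]
    positivity)
  set ε : ℝ := min ε₁ s with hε
  have hε0 : 0 < ε := lt_min hε₁ hs0
  have hbW : ∀ b ∈ ball b₀ ε, up b 0 ∈ W := by
    intro b hb
    refine ⟨div_up_mem_ball b b₀ 0 s (ball_subset_ball (min_le_right _ _) hb) (by simpa), ?_, ?_⟩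
    · simp only [mem_ofPred_eq]
      simpa [up] using hs0
    · simp only [mem_ofPred_eq]
      rw [divBase_up]
      exact hε₁s (ball_subset_ball (min_le_left _ _) hb)
  have hcont1 : ContinuousOn divG (sphere 0 s) := divG_continuous.continuousOn
  have hA := hT 6 f V' W divG (fun z => z) s hs0 hV'o hfd hcont1 continuousOn_id hWo hWV
  have hB := hT 6 f V' W divG (fun _ => 1) s hs0 hV'o hfd hcont1 continuousOn_const hWo hWV
  have hAb := hA.comp div_up_differentiable.differentiableOn hbW
  have hBb := hB.comp div_up_differentiable.differentiableOn hbW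
  refine ⟨ε, hε0, fun b => (2 * Real.pi * Complex.I)⁻¹ *
      ∮ z in C(0, s), z * f (up b 0 + divG z),
    fun b => (2 * Real.pi * Complex.I)⁻¹ * ∮ z in C(0, s), 1 * f (up b 0 + divG z),
    hAb.const_mul _, hBb.const_mul _, ?_⟩
  intro b hb y hy
  have hbs : b ∈ ball b₀ s := ball_subset_ball (min_le_right _ _) hb
  have hys : ‖y‖ < s := by
    have h1 : ‖y‖ ^ 2 < (s / 2) ^ 2 := by
      rw [← norm_pow, hy]
      exact hε₁s (ball_subset_ball (min_le_left _ _) hb)
    have h2 : ‖y‖ < s / 2 := lt_of_pow_lt_pow_left₀ 2 (by positivity) h1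
    linarith
  have hbδ : b ∈ ball b₀ δ := ball_subset_ball (by linarith) hbs
  refine ⟨hδV (div_up_mem_ball b b₀ y δ hbδ (by linarith)), ?_⟩
  -- Cauchy's formula
  have hFb : DifferentiableOn ℂ (fun η : ℂ => F (up b η)) (closedBall 0 s) := by
    refine hF.comp (div_up_differentiable' b).differentiableOn ?_
    intro η hη
    refine hδV (div_up_mem_ball b b₀ η δ hbδ ?_)
    have : ‖η‖ ≤ s := by simpa using hη
    linarith
  have hC := hFb.circleIntegral_sub_inv_smul (w := y) (by simpa using hys)
  have hval : ∀ z : ℂ, f (up b 0 + divG z) = F (up b z) / (z ^ 2 - cc b) := by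
    intro z
    rw [div_up_add, hf]
    simp only [divBase_up]
    simp [up]
  have hne : ∀ z ∈ sphere (0 : ℂ) s, z ^ 2 - cc b ≠ 0 := by
    intro z hz
    have := (hWV _ (hbW b hb) z hz).2
    simp only [mem_ofPred_eq] at this
    rw [div_up_add, divBase_up] at this
    simpa [up] using this
  have hcF : ContinuousOn (fun z : ℂ => F (up b z) / (z ^ 2 - cc b)) (sphere 0 s) := by
    refine ContinuousOn.div (hFb.continuousOn.mono sphere_subset_closedBall) (by fun_prop) hne
  have hI1 : CircleIntegrable (fun z : ℂ => z * f (up b 0 + divG z)) 0 s := by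
    refine ContinuousOn.circleIntegrable hs0.le ?_
    simp only [hval]
    exact continuousOn_id.mul hcF
  have hI2 : CircleIntegrable (fun z : ℂ => y * (1 * f (up b 0 + divG z))) 0 s := by
    refine ContinuousOn.circleIntegrable hs0.le ?_
    simp only [hval, one_mul]
    exact continuousOn_const.mul hcF
  have hsum : (∮ z in C(0, s), z * f (up b 0 + divG z)) +
      y * (∮ z in C(0, s), 1 * f (up b 0 + divG z)) =
        ∮ z in C(0, s), (z - y)⁻¹ • F (up b z) := by
    rw [← circleIntegral.integral_const_mul, ← circleIntegral.integral_add hI1 hI2]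
    refine circleIntegral.integral_congr hs0.le ?_
    intro z hz
    have h1 := hne z hz
    have h2 : z - y ≠ 0 := by
      intro h0
      apply h1
      rw [← hy]
      linear_combination (z + y) * h0
    simp only [hval, smul_eq_mul]
    rw [← hy] at h1 ⊢
    have h3 : z + y ≠ 0 := by
      intro h0
      apply h1
      linear_combination (z - y) * h0
    field_simp
    ring
  have hpi : (2 * Real.pi * Complex.I : ℂ) ≠ 0 := Complex.two_pi_I_ne_zero
  have : (2 * Real.pi * Complex.I)⁻¹ * (∮ z in C(0, s), z * f (up b 0 + divG z)) +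
      y * ((2 * Real.pi * Complex.I)⁻¹ * (∮ z in C(0, s), 1 * f (up b 0 + divG z))) =
        F (up b y) := by
    calc _ = (2 * Real.pi * Complex.I)⁻¹ * ((∮ z in C(0, s), z * f (up b 0 + divG z)) +
          y * (∮ z in C(0, s), 1 * f (up b 0 + divG z))) := by ring
      _ = (2 * Real.pi * Complex.I)⁻¹ * ((2 * Real.pi * Complex.I : ℂ) • F (up b y)) := by
          rw [hsum, hC]
      _ = F (up b y) := by
          rw [smul_eq_mul, ← mul_assoc, inv_mul_cancel₀ hpi, one_mul]
  exact this.symm

end Pool.Agent.KO.GA
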