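import Pool.Agent.KO.GA.Spec

/-!
# Project KO (MP_eb6d9f_ag), block G, row G21: homogeneity of the traces
-/

set_option autoImplicit false
set_option maxHeartbeats 400000

namespace Pool.Agent.KO.GA

open Set Filter Topology Metric

theorem dpH_cc (l : ℂ) (b : Fin 5 → ℂ) : cc (act5 l b) = l ^ 66 * cc b := by
  have h0 : act5 l b 0 = l ^ 1 * b 0 := rfl
  have h1 : act5 l b 1 = l ^ 5 * b 1 := rfl
  have h2 : act5 l b 2 = l ^ 6 * b 2 := rfl
  have h3 : act5 l b 3 = l ^ 22 * b 3 := rfl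
  have h4 : act5 l b 4 = l ^ 0 * b 4 := rfl
  unfold cc
  rw [h0, h1, h2, h3, h4]
  ring

theorem dpH_up (l : ℂ) (b : Fin 5 → ℂ) (y : ℂ) : up (act5 l b) (l ^ 33 * y) = act l (up b y) := by
  funext i
  fin_cases i <;> rfl

theorem dpH_sq (b : Fin 5 → ℂ) : sq b ^ 2 = cc b := by
  unfold sq
  have h := Complex.cpow_nat_inv_pow (cc b) (n := 2) (by norm_num)
  have h2 : ((1 : ℂ) / 2) = ((2 : ℕ) : ℂ)⁻¹ := by norm_num
  rw [h2]
  exact h

theorem dpH_U5 (r : ℝ) (l : ℂ) (hl : l ≠ 0) (b : Fin 5 → ℂ) (hb : b ∈ U5 r) :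
    act5 l b ∈ U5 r := by
  obtain ⟨hb1, ⟨i, hi, hbi⟩, hb3⟩ := hb
  have h0 : act5 l b 0 = l ^ 1 * b 0 := rfl
  have h1 : act5 l b 1 = l ^ 5 * b 1 := rfl
  have h2 : act5 l b 2 = l ^ 6 * b 2 := rfl
  have h3 : act5 l b 3 = l ^ 22 * b 3 := rfl
  have h4 : act5 l b 4 = l ^ 0 * b 4 := rfl
  refine ⟨?_, ⟨i, hi, ?_⟩, ?_⟩
  · rw [h4, pow_zero, one_mul]
    exact hb1
  · exact mul_ne_zero (pow_ne_zero _ hl) hbi
  · rintro ⟨e1, e2, e3⟩
    apply hb3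
    rw [h4, pow_zero, one_mul] at e1
    rw [h1] at e2
    rw [h3, h0, h2] at e3
    refine ⟨e1, (mul_eq_zero.1 e2).resolve_left (pow_ne_zero _ hl), ?_⟩
    have h5 : l ^ 22 ≠ 0 := pow_ne_zero _ hl
    apply mul_left_cancel₀ h5
    rw [e3]
    ring

theorem dpH_Dp (r : ℝ) (D : Set (Fin 6 → ℂ)) (hst : ∀ l : ℂ, l ≠ 0 → ∀ p ∈ D, act l p ∈ D)
    (l : ℂ) (hl : l ≠ 0) (b : Fin 5 → ℂ) (hb : b ∈ Dp r D) : act5 l b ∈ Dp r D := by
  obtain ⟨hb1, hb2, hb3⟩ := hb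
  refine ⟨dpH_U5 r l hl b hb1, ?_, ?_⟩
  · rw [dpH_cc]
    exact mul_ne_zero (pow_ne_zero _ hl) hb2
  · intro y hy
    have h33 : l ^ 33 ≠ 0 := pow_ne_zero _ hl
    have h1 : (y / l ^ 33) ^ 2 = cc b := by
      rw [div_pow, hy, dpH_cc, ← pow_mul]
      field_simp
    have h2 := hst l hl _ (hb3 _ h1)
    rw [← dpH_up, mul_div_cancel₀ _ h33] at h2
    exact h2

/-- Row G21. -/
theorem dpH : SpDpH := by
  intro r D f hf
  have hst := hf.stable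
  refine ⟨fun l hl b hb => dpH_U5 r l hl b hb, fun l hl b hb => dpH_Dp r D hst l hl b hb,
    ?_, ?_⟩
  · intro l hl b hb
    have hs : sq b ^ 2 = cc b := dpH_sq b
    have hv : ∀ y : ℂ, y ^ 2 = cc b → f (up (act5 l b) (l ^ 33 * y)) = f (up b y) := by
      intro y hy
      rw [dpH_up]
      exact hf.inv l hl _ (hb.2.2 y hy)
    have h1 := hv (sq b) hs
    have h2 := hv (-sq b) (by rw [neg_sq, hs])
    have hS : sq (act5 l b) ^ 2 = (l ^ 33 * sq b) ^ 2 := by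
      rw [dpH_sq, dpH_cc, mul_pow, hs, ← pow_mul]
    rw [zpow_zero, one_mul]
    unfold f0
    rcases sq_eq_sq_iff_eq_or_eq_neg.1 hS with h | h
    · rw [h, ← mul_neg, h1, h2]
    · rw [h, neg_neg, ← mul_neg, h1, h2, add_comm]
  · intro l hl b hb
    have hs : sq b ^ 2 = cc b := dpH_sq b
    have hs0 : sq b ≠ 0 := by
      intro h
      apply hb.2.1
      rw [← hs, h]
      ring
    have hv : ∀ y : ℂ, y ^ 2 = cc b → f (up (act5 l b) (l ^ 33 * y)) = f (up b y) := by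
      intro y hy
      rw [dpH_up]
      exact hf.inv l hl _ (hb.2.2 y hy)
    have h1 := hv (sq b) hs
    have h2 := hv (-sq b) (by rw [neg_sq, hs])
    have hS : sq (act5 l b) ^ 2 = (l ^ 33 * sq b) ^ 2 := by
      rw [dpH_sq, dpH_cc, mul_pow, hs, ← pow_mul]
    have h33 : l ^ 33 ≠ 0 := pow_ne_zero _ hl
    have hz : l ^ (-33 : ℤ) = (l ^ 33)⁻¹ := by
      rw [zpow_neg]
      norm_cast
    rw [hz]
    unfold f1
    rcases sq_eq_sq_iff_eq_or_eq_neg.1 hS with h | h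
    · rw [h, ← mul_neg, h1, h2]
      field_simp
    · rw [h, neg_neg, ← mul_neg, h1, h2]
      field_simp
      ring

end Pool.Agent.KO.GA
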