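import Pool.Agent.KO.GA.Spec

/-!
# Project KO, block G, row G17: the domain of the traces (helper84)
-/

set_option autoImplicit false
set_option maxHeartbeats 400000

namespace Pool.Agent.KO.GA

open Set Filter Topology Metric

theorem DpT_cont_cc : Continuous cc := by
  unfold cc
  fun_prop

/-- The projection to the base. -/
def DpT_pr (p : Fin 6 → ℂ) : Fin 5 → ℂ := ![p 0, p 1, p 2, p 3, p 5]

theorem DpT_cont_pr : Continuous DpT_pr := by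
  refine continuous_pi fun i => ?_
  fin_cases i
  · exact continuous_apply 0
  · exact continuous_apply 1
  · exact continuous_apply 2
  · exact continuous_apply 3
  · exact continuous_apply 5

theorem DpT_cont_up : Continuous fun x : (Fin 5 → ℂ) × ℂ => up x.1 x.2 := by
  refine continuous_pi fun i => ?_
  fin_cases i
  · exact (continuous_apply (0 : Fin 5)).comp continuous_fst
  · exact (continuous_apply (1 : Fin 5)).comp continuous_fst
  · exact (continuous_apply (2 : Fin 5)).comp continuous_fst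
  · exact (continuous_apply (3 : Fin 5)).comp continuous_fst
  · exact continuous_snd
  · exact (continuous_apply (4 : Fin 5)).comp continuous_fst

theorem DpT_up_pr (p : Fin 6 → ℂ) : up (DpT_pr p) (p 4) = p := by
  funext i
  fin_cases i <;> rfl

theorem DpT_pr_up (b : Fin 5 → ℂ) (y : ℂ) : DpT_pr (up b y) = b := by
  funext i
  fin_cases i <;> rfl

theorem DpT_G_up (b : Fin 5 → ℂ) (y : ℂ) : G (up b y) = y ^ 2 - cc b := by
  have h : G (up b y) = y ^ 2 + b 3 ^ 3 + b 4 * b 2 ^ 11 + b 1 * b 0 * b 2 ^ 10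
      + b 1 ^ 12 * b 2 - b 0 ^ 66 - b 0 ^ 12 * b 2 ^ 9 := rfl
  rw [h]
  unfold cc
  ring

theorem DpT_cone {r : ℝ} (hr : r ≤ 1) {b : Fin 5 → ℂ} (hb : b ∈ U5 r) {y : ℂ}
    (hy : y ^ 2 = cc b) : up b y ∈ ConeR r := by
  obtain ⟨h1, ⟨i, hi, hi0⟩, h3⟩ := hb
  refine ⟨⟨?_, ?_, ?_⟩, ?_, h1⟩
  · rw [DpT_G_up, hy, sub_self]
  · fin_cases i
    · exact ⟨0, by decide, hi0⟩
    · exact ⟨1, by decide, hi0⟩
    · exact ⟨2, by decide, hi0⟩
    · exact ⟨3, by decide, hi0⟩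
    · exact absurd rfl hi
  · exact lt_of_lt_of_le h1 hr
  · rintro ⟨g1, g2, g3, _⟩
    exact h3 ⟨g1, g2, g3⟩

theorem DpT_root (b : Fin 5 → ℂ) : ∃ y : ℂ, y ^ 2 = cc b :=
  IsAlgClosed.exists_pow_nat_eq (cc b) two_pos

theorem DpT_cc_pr {r : ℝ} {p : Fin 6 → ℂ} (hp : p ∈ ConeR r) : (p 4) ^ 2 = cc (DpT_pr p) := by
  have h1 : G p = 0 := hp.1.1
  have h2 := DpT_G_up (DpT_pr p) (p 4)
  rw [DpT_up_pr, h1] at h2
  exact (sub_eq_zero.1 h2.symm)

theorem DpT_openU (r : ℝ) : IsOpen (U5 r) := by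
  have h1 : IsOpen {b : Fin 5 → ℂ | ‖b 4‖ < r} :=
    isOpen_lt ((continuous_apply (4 : Fin 5)).norm) continuous_const
  have h2 : IsOpen {b : Fin 5 → ℂ | ∃ i : Fin 5, i ≠ 4 ∧ b i ≠ 0} := by
    have h : {b : Fin 5 → ℂ | ∃ i : Fin 5, i ≠ 4 ∧ b i ≠ 0} =
        ⋃ i : Fin 5, {b : Fin 5 → ℂ | i ≠ 4 ∧ b i ≠ 0} := by
      ext b
      simp
    rw [h]
    refine isOpen_iUnion fun i => ?_
    by_cases hi : i = 4
    · have h5 : {b : Fin 5 → ℂ | i ≠ 4 ∧ b i ≠ 0} = ∅ := by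
        ext b
        simp [hi]
      rw [h5]
      exact isOpen_empty
    · have h5 : {b : Fin 5 → ℂ | i ≠ 4 ∧ b i ≠ 0} = {b : Fin 5 → ℂ | b i ≠ 0} := by
        ext b
        simp [hi]
      rw [h5]
      exact isOpen_ne_fun (continuous_apply i) continuous_const
  have h3 : IsOpen {b : Fin 5 → ℂ | ¬ (b 4 = 0 ∧ b 1 = 0 ∧ b 3 = b 0 ^ 4 * b 2 ^ 3)} := by
    have hc : IsClosed {b : Fin 5 → ℂ | b 4 = 0 ∧ b 1 = 0 ∧ b 3 = b 0 ^ 4 * b 2 ^ 3} := by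
      refine (isClosed_eq (continuous_apply (4 : Fin 5)) continuous_const).inter
        ((isClosed_eq (continuous_apply (1 : Fin 5)) continuous_const).inter
          (isClosed_eq (continuous_apply (3 : Fin 5)) ?_))
      exact ((continuous_apply (0 : Fin 5)).pow 4).mul ((continuous_apply (2 : Fin 5)).pow 3)
    exact hc.isOpen_compl
  exact h1.inter (h2.inter h3)

theorem DpT_closU (r : ℝ) : {b : Fin 5 → ℂ | ‖b 4‖ < r} ⊆ closure (U5 r) := by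
  intro b hb
  rw [Metric.mem_closure_iff]
  intro ε hε
  have h0 : ((ε / 2 : ℝ) : ℂ) ≠ 0 := by
    have : ε / 2 ≠ 0 := by positivity
    exact_mod_cast this
  have hex : ∃ c : ℂ, b 1 + c ≠ 0 ∧ ‖c‖ < ε := by
    by_cases h1 : b 1 = 0
    · refine ⟨((ε / 2 : ℝ) : ℂ), by rw [h1, zero_add]; exact h0, ?_⟩
      rw [Complex.norm_real, Real.norm_eq_abs, abs_of_pos (by positivity)]
      linarith
    · exact ⟨0, by rw [add_zero]; exact h1, by rw [norm_zero]; exact hε⟩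
  obtain ⟨c, hc, hc2⟩ := hex
  have e1 : (Function.update b 1 (b 1 + c) : Fin 5 → ℂ) 1 = b 1 + c := Function.update_self _ _ _
  have e4 : (Function.update b 1 (b 1 + c) : Fin 5 → ℂ) 4 = b 4 :=
    Function.update_of_ne (by decide) _ _
  refine ⟨Function.update b 1 (b 1 + c), ⟨?_, ⟨1, by decide, ?_⟩, ?_⟩, ?_⟩
  · rw [e4]; exact hb
  · rw [e1]; exact hc
  · rintro ⟨_, g2, _⟩
    rw [e1] at g2
    exact hc g2
  · rw [dist_pi_lt_iff hε]
    intro i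
    by_cases hi : i = 1
    · subst hi
      rw [e1, dist_self_add_right]
      exact hc2
    · rw [Function.update_of_ne hi, dist_self]
      exact hε

/-- Points with `cc ≠ 0` are dense. -/
theorem DpT_cc_ne (N : Set (Fin 5 → ℂ)) (hN : IsOpen N) (b : Fin 5 → ℂ) (hb : b ∈ N) :
    ∃ b' ∈ N, cc b' ≠ 0 := by
  have hcont : Continuous fun c : ℂ => (Function.update b 3 (b 3 + c) : Fin 5 → ℂ) :=
    continuous_const.update 3 (continuous_const.add continuous_id)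
  have hop := hN.preimage hcont
  have h0 : (0 : ℂ) ∈ (fun c : ℂ => (Function.update b 3 (b 3 + c) : Fin 5 → ℂ)) ⁻¹' N := by
    rw [mem_preimage, add_zero, Function.update_eq_self]
    exact hb
  obtain ⟨δ, hδ, hsub⟩ := Metric.isOpen_iff.1 hop 0 h0
  by_contra hcon
  push Not at hcon
  have key : ∀ c : ℂ, ‖c‖ < δ → cc b + b 3 ^ 3 = (b 3 + c) ^ 3 := by
    intro c hc
    have h1 := hcon _ (hsub (by rw [mem_ball_zero_iff]; exact hc))
    have h2 : cc (Function.update b 3 (b 3 + c)) = b 0 ^ 66 + b 0 ^ 12 * b 2 ^ 9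
        - (b 3 + c) ^ 3 - b 4 * b 2 ^ 11 - b 1 * b 0 * b 2 ^ 10 - b 1 ^ 12 * b 2 := by
      unfold cc
      rw [Function.update_self, Function.update_of_ne (by decide : (0 : Fin 5) ≠ 3),
        Function.update_of_ne (by decide : (2 : Fin 5) ≠ 3),
        Function.update_of_ne (by decide : (4 : Fin 5) ≠ 3),
        Function.update_of_ne (by decide : (1 : Fin 5) ≠ 3)]
    rw [h2] at h1
    unfold cc
    linear_combination h1
  have hh : ‖((δ / 2 : ℝ) : ℂ)‖ < δ := by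
    rw [Complex.norm_real, Real.norm_eq_abs, abs_of_pos (by positivity)]
    linarith
  have hne : ((δ / 2 : ℝ) : ℂ) ≠ 0 := by
    have : δ / 2 ≠ 0 := by positivity
    exact_mod_cast this
  have k0 := key 0 (by rw [norm_zero]; exact hδ)
  have k1 := key _ hh
  have k2 := key (-((δ / 2 : ℝ) : ℂ)) (by rw [norm_neg]; exact hh)
  set h := ((δ / 2 : ℝ) : ℂ) with hdef
  have k3 : 6 * b 3 * h ^ 2 = 0 := by linear_combination 2 * k0 - k1 - k2
  have k4 : b 3 = 0 := by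
    rcases mul_eq_zero.1 k3 with h5 | h5
    · rcases mul_eq_zero.1 h5 with h6 | h6
      · norm_num at h6
      · exact h6
    · exact absurd (pow_eq_zero_iff (two_ne_zero)|>.1 h5) hne
  have k5 : h ^ 3 = 0 := by
    rw [k4] at k0 k1
    linear_combination k0 - k1
  exact hne (pow_eq_zero_iff (three_ne_zero)|>.1 k5)

theorem DpT_openD {r : ℝ} {D : Set (Fin 6 → ℂ)} (hr : r ≤ 1)
    (hD : ∃ O : Set (Fin 6 → ℂ), IsOpen O ∧ D = O ∩ ConeR r) : IsOpen (Dp r D) := by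
  obtain ⟨O, hO, rfl⟩ := hD
  rw [isOpen_iff_mem_nhds]
  rintro b ⟨hbU, hbc, hby⟩
  obtain ⟨y₀, hy₀⟩ := DpT_root b
  have hop := hO.preimage DpT_cont_up
  have m1 : ((b, y₀) : (Fin 5 → ℂ) × ℂ) ∈ (fun x : (Fin 5 → ℂ) × ℂ => up x.1 x.2) ⁻¹' O :=
    (hby y₀ hy₀).1
  have m2 : ((b, -y₀) : (Fin 5 → ℂ) × ℂ) ∈ (fun x : (Fin 5 → ℂ) × ℂ => up x.1 x.2) ⁻¹' O :=
    (hby (-y₀) (by rw [neg_sq]; exact hy₀)).1
  obtain ⟨e1, he1, s1⟩ := Metric.isOpen_iff.1 hop _ m1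
  obtain ⟨e2, he2, s2⟩ := Metric.isOpen_iff.1 hop _ m2
  have he : 0 < min e1 e2 := lt_min he1 he2
  have n1 : ∀ᶠ b' in 𝓝 b, b' ∈ U5 r := (DpT_openU r).mem_nhds hbU
  have n2 : ∀ᶠ b' in 𝓝 b, cc b' ≠ 0 := DpT_cont_cc.continuousAt.eventually_ne hbc
  have n3 : ∀ᶠ b' in 𝓝 b, dist b' b < min e1 e2 := Metric.ball_mem_nhds b he
  have n4 : ∀ᶠ b' in 𝓝 b, dist (cc b') (cc b) < (min e1 e2) ^ 2 :=
    (DpT_cont_cc.tendsto b).eventually (Metric.ball_mem_nhds (cc b) (by positivity))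
  filter_upwards [n1, n2, n3, n4] with b' g1 g2 g3 g4
  refine ⟨g1, g2, fun y hy => ⟨?_, DpT_cone hr g1 hy⟩⟩
  have h1 : ‖y - y₀‖ * ‖y + y₀‖ < (min e1 e2) ^ 2 := by
    rw [← norm_mul]
    have h2 : (y - y₀) * (y + y₀) = cc b' - cc b := by
      rw [← hy, ← hy₀]; ring
    rw [h2, ← dist_eq_norm]
    exact g4
  by_cases h3 : ‖y - y₀‖ < min e1 e2
  · have h4 : ((b', y) : (Fin 5 → ℂ) × ℂ) ∈ ball (b, y₀) e1 := by
      rw [Metric.mem_ball, Prod.dist_eq]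
      refine max_lt (lt_of_lt_of_le g3 (min_le_left _ _)) ?_
      rw [dist_eq_norm]
      exact lt_of_lt_of_le h3 (min_le_left _ _)
    exact s1 h4
  · push Not at h3
    have h4 : ‖y + y₀‖ < min e1 e2 := by
      by_contra h5
      push Not at h5
      have h6 : (min e1 e2) ^ 2 ≤ ‖y - y₀‖ * ‖y + y₀‖ := by
        rw [pow_two]
        exact mul_le_mul h3 h5 he.le (norm_nonneg _)
      linarith
    have h5 : ((b', y) : (Fin 5 → ℂ) × ℂ) ∈ ball (b, -y₀) e2 := by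
      rw [Metric.mem_ball, Prod.dist_eq]
      refine max_lt (lt_of_lt_of_le g3 (min_le_right _ _)) ?_
      rw [dist_eq_norm]
      have h6 : y - -y₀ = y + y₀ := by ring
      rw [h6]
      exact lt_of_lt_of_le h4 (min_le_right _ _)
    exact s2 h5

theorem DpT_closD {r : ℝ} {D : Set (Fin 6 → ℂ)} (hr : r ≤ 1)
    (hD : ∃ O : Set (Fin 6 → ℂ), IsOpen O ∧ D = O ∩ ConeR r) (hdense : ConeR r ⊆ closure D) :
    U5 r ⊆ closure (Dp r D) := by
  obtain ⟨O, hO, rfl⟩ := hD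
  intro b hb
  rw [Metric.mem_closure_iff]
  intro ε hε
  have hN0 : IsOpen (ball b ε ∩ U5 r) := isOpen_ball.inter (DpT_openU r)
  obtain ⟨b₁, hb₁, hc₁⟩ := DpT_cc_ne _ hN0 b ⟨mem_ball_self hε, hb⟩
  have hN : IsOpen ((ball b ε ∩ U5 r) ∩ {x : Fin 5 → ℂ | cc x ≠ 0}) :=
    hN0.inter (isOpen_ne_fun DpT_cont_cc continuous_const)
  obtain ⟨y₁, hy₁⟩ := DpT_root b₁
  have hcl := hdense (DpT_cone hr hb₁.2 hy₁)
  have hW1 := hN.preimage DpT_cont_pr
  have hm1 : up b₁ y₁ ∈ DpT_pr ⁻¹' ((ball b ε ∩ U5 r) ∩ {x : Fin 5 → ℂ | cc x ≠ 0}) := by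
    rw [mem_preimage, DpT_pr_up]
    exact ⟨hb₁, hc₁⟩
  obtain ⟨q, hq1, hqO, hqC⟩ := mem_closure_iff.1 hcl _ hW1 hm1
  have hq2 := DpT_cc_pr hqC
  have hmem2 : up (DpT_pr q) (-(q 4)) ∈ ConeR r :=
    DpT_cone hr hq1.1.2 (by rw [neg_sq]; exact hq2)
  have hcl2 := hdense hmem2
  have hcont2 : Continuous fun p : Fin 6 → ℂ => up (DpT_pr p) (-(p 4)) :=
    DpT_cont_up.comp (DpT_cont_pr.prodMk (continuous_apply (4 : Fin 6)).neg)
  have hW2 : IsOpen ((DpT_pr ⁻¹' ((ball b ε ∩ U5 r) ∩ {x : Fin 5 → ℂ | cc x ≠ 0})) ∩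
      (fun p : Fin 6 → ℂ => up (DpT_pr p) (-(p 4))) ⁻¹' O) :=
    hW1.inter (hO.preimage hcont2)
  have hm2 : up (DpT_pr q) (-(q 4)) ∈
      (DpT_pr ⁻¹' ((ball b ε ∩ U5 r) ∩ {x : Fin 5 → ℂ | cc x ≠ 0})) ∩
      (fun p : Fin 6 → ℂ => up (DpT_pr p) (-(p 4))) ⁻¹' O := by
    refine ⟨?_, ?_⟩
    · rw [mem_preimage, DpT_pr_up]
      exact hq1
    · change up (DpT_pr (up (DpT_pr q) (-(q 4)))) (-(-(q 4))) ∈ O
      rw [DpT_pr_up, neg_neg, DpT_up_pr]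
      exact hqO
  obtain ⟨p, ⟨hp1, hp2⟩, hpO, hpC⟩ := mem_closure_iff.1 hcl2 _ hW2 hm2
  have hp3 := DpT_cc_pr hpC
  refine ⟨DpT_pr p, ⟨hp1.1.2, hp1.2, fun y hy => ?_⟩, ?_⟩
  · refine ⟨?_, DpT_cone hr hp1.1.2 hy⟩
    rw [← hp3] at hy
    rcases sq_eq_sq_iff_eq_or_eq_neg.1 hy with h | h
    · rw [h, DpT_up_pr]
      exact hpO
    · rw [h]
      exact hp2
  · have h := hp1.1.1
    rw [Metric.mem_ball, dist_comm] at h
    exact h

theorem dpT : SpDpT := fun r _ _ h =>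
  ⟨DpT_openU r, DpT_closU r, DpT_openD h.le_one h.rel, DpT_closD h.le_one h.rel h.dense⟩

end Pool.Agent.KO.GA
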