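import Pool.Agent.KO.GA.Spec
import Pool.Agent.H86.Lang.Ext

/-!
# Project KO (MP_eb6d9f_ag), block G, row G18: from functions on `D` to functions everywhere
-/

set_option autoImplicit false
set_option maxHeartbeats 400000

namespace Pool.Agent.KO.GA

open Set Filter Topology Metric

variable {n : ℕ}

/-- The value of the extension at a point where the local denominator does not vanish. -/
lemma ext_value {D : Set (Fin n → ℂ)} {h N M : (Fin n → ℂ) → ℂ} {x : Fin n → ℂ}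
    (hx : x ∈ closure D) (hN : ContinuousAt N x) (hM : ContinuousAt M x) (h0 : N x ≠ 0)
    (hh : ∀ᶠ y in 𝓝 x, y ∈ D → N y * h y = M y) : ext D h x = M x / N x := by
  have h1 : (𝓝[D] x).NeBot := mem_closure_iff_nhdsWithin_neBot.mp hx
  have h2 : Tendsto (fun y => M y / N y) (𝓝[D] x) (𝓝 (M x / N x)) :=
    (hM.tendsto.div hN.tendsto h0).mono_left nhdsWithin_le_nhds
  have h3 : h =ᶠ[𝓝[D] x] fun y => M y / N y := by
    have h4 : ∀ᶠ y in 𝓝[D] x, N y * h y = M y := by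
      rw [eventually_nhdsWithin_iff]
      exact hh
    have h5 : ∀ᶠ y in 𝓝[D] x, N y ≠ 0 :=
      (hN.eventually_ne h0).filter_mono nhdsWithin_le_nhds
    filter_upwards [h4, h5] with y h6 h7
    rw [← h6, mul_div_cancel_left₀ _ h7]
  have h6 : Tendsto h (𝓝[D] x) (𝓝 (M x / N x)) := h2.congr' h3.symm
  have h7 : ∃ c, Tendsto h (𝓝[D] x) (𝓝 c) := ⟨_, h6⟩
  have h8 : ext D h x = h7.choose := by
    unfold ext
    rw [dif_pos h7]
  rw [h8]
  exact tendsto_nhds_unique h7.choose_spec h6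

/-- The local data, in a ball inside `U`. -/
lemma ext_local {U D : Set (Fin n → ℂ)} {h : (Fin n → ℂ) → ℂ} (hU : IsOpen U)
    (hUD : U ⊆ closure D) {b : Fin n → ℂ} (hb : b ∈ U) (hm : WMer D h b) :
    ∃ ε : ℝ, 0 < ε ∧ ∃ N M : (Fin n → ℂ) → ℂ, DifferentiableOn ℂ N (ball b ε) ∧
      DifferentiableOn ℂ M (ball b ε) ∧ (∃ x ∈ ball b ε, N x ≠ 0) ∧ ball b ε ⊆ U ∧
        (∀ x ∈ ball b ε, x ∈ D → N x * h x = M x) ∧
          ∀ x ∈ ball b ε, N x ≠ 0 → ext D h x = M x / N x := by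
  obtain ⟨ε, hε, N, M, hN, hM, ⟨x₀, hx₀, hNx₀⟩, hh⟩ := hm
  obtain ⟨δ, hδ, hδU⟩ := Metric.isOpen_iff.mp hU b hb
  have hs : ball b (min ε δ) ⊆ ball b ε := ball_subset_ball (min_le_left _ _)
  have hs' : ball b (min ε δ) ⊆ U := (ball_subset_ball (min_le_right _ _)).trans hδU
  refine ⟨min ε δ, lt_min hε hδ, N, M, hN.mono hs, hM.mono hs, ?_, hs',
    fun x hx => hh x (hs hx), fun x hx h0 => ?_⟩
  · by_contra hcon
    push Not at hcon
    have h1 : ∀ᶠ u in 𝓝 b, N u = 0 := by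
      filter_upwards [ball_mem_nhds b (lt_min hε hδ)] with u hu
      exact hcon u hu
    exact hNx₀ (Pool.Agent.H86.Lang.eqOn_zero_ball hN (mem_ball_self hε) h1 x₀ hx₀)
  · have h2 : ball b ε ∈ 𝓝 x := isOpen_ball.mem_nhds (hs hx)
    refine ext_value (hUD (hs' hx)) ((hN x (hs hx)).differentiableAt h2).continuousAt
      ((hM x (hs hx)).differentiableAt h2).continuousAt h0 ?_
    filter_upwards [h2] with y hy
    exact hh y hy

/-- The zeros of a denominator in a ball are nowhere dense. -/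
lemma ext_residual {N : (Fin n → ℂ) → ℂ} {b : Fin n → ℂ} {ε : ℝ}
    (hN : DifferentiableOn ℂ N (ball b ε)) (h0 : ∃ x ∈ ball b ε, N x ≠ 0) :
    ∀ᶠ x in residual (Fin n → ℂ), x ∈ ball b ε → N x ≠ 0 := by
  have hO : IsOpen ({x | x ∈ ball b ε ∧ N x ≠ 0} ∪ (closure (ball b ε))ᶜ) := by
    refine IsOpen.union ?_ isClosed_closure.isOpen_compl
    rw [isOpen_iff_mem_nhds]
    rintro x ⟨hx, hx0⟩
    have h1 := isOpen_ball.mem_nhds hx
    filter_upwards [h1, (((hN x hx).differentiableAt h1).continuousAt.eventually_ne hx0)]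
      with y hy hy'
    exact ⟨hy, hy'⟩
  have hD : Dense ({x | x ∈ ball b ε ∧ N x ≠ 0} ∪ (closure (ball b ε))ᶜ) := by
    rw [dense_iff_inter_open]
    rintro W hW ⟨x, hx⟩
    by_cases hc : x ∈ closure (ball b ε)
    · obtain ⟨y, hyW, hyb⟩ := mem_closure_iff.mp hc W hW hx
      by_contra hemp
      have h2 : ∀ᶠ u in 𝓝 y, N u = 0 := by
        filter_upwards [hW.mem_nhds hyW, isOpen_ball.mem_nhds hyb] with u hu hu'
        by_contra hne
        exact hemp ⟨u, hu, Or.inl ⟨hu', hne⟩⟩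
      obtain ⟨z, hz, hz0⟩ := h0
      exact hz0 (Pool.Agent.H86.Lang.eqOn_zero_ball hN hyb h2 z hz)
    · exact ⟨x, hx, Or.inr hc⟩
  filter_upwards [residual_of_dense_open hO hD] with x hx hxb
  rcases hx with hx | hx
  · exact hx.2
  · exact absurd (subset_closure hxb) hx

/-- **Row G18.** From functions on `D` to functions everywhere. -/
theorem ext_spec : SpExt := by
  intro n U D h hU hUD hm
  have hloc := fun b (hb : b ∈ U) => ext_local hU hUD hb (hm b hb)
  refine ⟨fun b hb => ?_, ?_⟩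
  · obtain ⟨ε, hε, N, M, hN, hM, h0, -, -, hx⟩ := hloc b hb
    refine ⟨ε, hε, N, M, hN, hM, h0, fun x hxb hx0 => ?_⟩
    rw [hx x hxb hx0, mul_div_cancel₀ _ hx0]
  · choose! ε hε N M hN hM h0 _ hh hx using hloc
    obtain ⟨S, hSU, hSc, hS⟩ := TopologicalSpace.countable_cover_nhdsWithin
      (s := U) (f := fun b => ball b (ε b)) fun b hb =>
        mem_nhdsWithin_of_mem_nhds (ball_mem_nhds b (hε b hb))
    have h1 : ∀ᶠ x in residual (Fin n → ℂ), ∀ b ∈ S, x ∈ ball b (ε b) → N b x ≠ 0 := by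
      rw [eventually_countable_ball hSc]
      exact fun b hb => ext_residual (hN b (hSU hb)) (h0 b (hSU hb))
    filter_upwards [h1] with x hx1 hxU hxD
    obtain ⟨b, hbS, hxb⟩ := mem_iUnion₂.mp (hS hxU)
    have h2 := hx1 b hbS hxb
    rw [hx b (hSU hbS) x hxb h2, ← hh b (hSU hbS) x hxb hxD, mul_div_cancel_left₀ _ h2]

end Pool.Agent.KO.GA
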