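import Pool.Agent.KO.GA.Spec

/-!
# Project KO (MP_eb6d9f_ag), block G, row G19: homogeneity of the extension
-/

set_option autoImplicit false
set_option maxHeartbeats 400000

namespace Pool.Agent.KO.GA

open Set Filter Topology Metric

lemma extHom_continuous (l : ℂ) : Continuous (act5 l) := by
  unfold act5
  fun_prop

lemma extHom_inv {l : ℂ} (hl : l ≠ 0) (b : Fin 5 → ℂ) : act5 l⁻¹ (act5 l b) = b := by
  funext i
  simp only [act5]
  rw [← mul_assoc, ← mul_pow, inv_mul_cancel₀ hl, one_pow, one_mul]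

lemma extHom_inv' {l : ℂ} (hl : l ≠ 0) (b : Fin 5 → ℂ) : act5 l (act5 l⁻¹ b) = b := by
  funext i
  simp only [act5]
  rw [← mul_assoc, ← mul_pow, mul_inv_cancel₀ hl, one_pow, one_mul]

lemma extHom_tendsto {D : Set (Fin 5 → ℂ)} {h : (Fin 5 → ℂ) → ℂ} {k : ℤ}
    (hD : ∀ l : ℂ, l ≠ 0 → ∀ b ∈ D, act5 l b ∈ D)
    (hh : ∀ l : ℂ, l ≠ 0 → ∀ b ∈ D, h (act5 l b) = l ^ k * h b)
    {l : ℂ} (hl : l ≠ 0) {b : Fin 5 → ℂ} {c : ℂ} (H : Tendsto h (𝓝[D] b) (𝓝 c)) :
    Tendsto h (𝓝[D] (act5 l b)) (𝓝 (l ^ k * c)) := by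
  have h1 : Tendsto (act5 l⁻¹) (𝓝[D] (act5 l b)) (𝓝[D] b) := by
    refine tendsto_nhdsWithin_iff.2 ⟨?_, ?_⟩
    · have := (extHom_continuous l⁻¹).tendsto (act5 l b)
      rw [extHom_inv hl] at this
      exact this.mono_left nhdsWithin_le_nhds
    · exact eventually_mem_nhdsWithin.mono fun x hx => hD _ (inv_ne_zero hl) _ hx
  refine ((H.comp h1).const_mul (l ^ k)).congr' ?_
  filter_upwards [eventually_mem_nhdsWithin] with x hx
  have h2 := hh l hl (act5 l⁻¹ x) (hD _ (inv_ne_zero hl) _ hx)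
  rw [extHom_inv' hl] at h2
  exact h2.symm

lemma extHom_closure {D : Set (Fin 5 → ℂ)} (hD : ∀ l : ℂ, l ≠ 0 → ∀ b ∈ D, act5 l b ∈ D)
    {l : ℂ} (hl : l ≠ 0) {b : Fin 5 → ℂ} (hb : b ∈ closure D) : act5 l b ∈ closure D :=
  map_mem_closure (extHom_continuous l) hb fun x hx => hD l hl x hx

/-- **Row G19.** -/
theorem extHom : SpExtHom := by
  intro D h k hD hh l hl b hb
  classical
  have hb1 : (𝓝[D] b).NeBot := mem_closure_iff_nhdsWithin_neBot.1 hb
  have hb2 : (𝓝[D] (act5 l b)).NeBot :=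
    mem_closure_iff_nhdsWithin_neBot.1 (extHom_closure hD hl hb)
  by_cases H : ∃ c, Tendsto h (𝓝[D] b) (𝓝 c)
  · have H' : ∃ c, Tendsto h (𝓝[D] (act5 l b)) (𝓝 c) :=
      ⟨_, extHom_tendsto hD hh hl H.choose_spec⟩
    have e1 : ext D h b = H.choose := dif_pos H
    have e2 : ext D h (act5 l b) = H'.choose := dif_pos H'
    rw [e1, e2]
    exact tendsto_nhds_unique H'.choose_spec (extHom_tendsto hD hh hl H.choose_spec)
  · have H' : ¬ ∃ c, Tendsto h (𝓝[D] (act5 l b)) (𝓝 c) := by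
      rintro ⟨c, hc⟩
      apply H
      have := extHom_tendsto hD hh (inv_ne_zero hl) hc
      rw [extHom_inv hl] at this
      exact ⟨_, this⟩
    have e1 : ext D h b = 0 := dif_neg H
    have e2 : ext D h (act5 l b) = 0 := dif_neg H'
    rw [e1, e2, mul_zero]

end Pool.Agent.KO.GA
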