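import Pool.Agent.KO.GA.Spec
import Pool.Agent.H86.Lang.Ext

/-!
# Project KO, block G, row G2: generic points, countably many local denominators (helper25)
-/

set_option autoImplicit false
set_option maxHeartbeats 400000

namespace Pool.Agent.KO.GA

open Set Filter Topology Metric

/-- Off the zeros of a local denominator: a residual set. -/
theorem Gen_res {n : ℕ} {N : (Fin n → ℂ) → ℂ} {b : Fin n → ℂ} {ε : ℝ}
    (hN : DifferentiableOn ℂ N (ball b ε)) (hx : ∃ x ∈ ball b ε, N x ≠ 0) :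
    {x | x ∈ ball b ε → N x ≠ 0} ∈ residual (Fin n → ℂ) := by
  have hO1 : IsOpen (ball b ε ∩ N ⁻¹' {0}ᶜ) :=
    hN.continuousOn.isOpen_inter_preimage isOpen_ball isOpen_compl_singleton
  have hO : IsOpen ((closure (ball b ε))ᶜ ∪ (ball b ε ∩ N ⁻¹' {0}ᶜ)) :=
    isClosed_closure.isOpen_compl.union hO1
  have hD : Dense ((closure (ball b ε))ᶜ ∪ (ball b ε ∩ N ⁻¹' {0}ᶜ)) := by
    rw [dense_iff_inter_open]
    rintro W hW ⟨x, hxW⟩
    by_cases hxc : x ∈ closure (ball b ε)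
    · obtain ⟨y, hyW, hyb⟩ := mem_closure_iff.1 hxc W hW hxW
      by_contra hcon
      have h0 : ∀ᶠ u in 𝓝 y, N u = 0 := by
        filter_upwards [(hW.inter isOpen_ball).mem_nhds ⟨hyW, hyb⟩] with u hu
        by_contra hu0
        exact hcon ⟨u, hu.1, Or.inr ⟨hu.2, hu0⟩⟩
      obtain ⟨x', hx', hne⟩ := hx
      exact hne (Pool.Agent.H86.Lang.eqOn_zero_ball hN hyb h0 x' hx')
    · exact ⟨x, hxW, Or.inl hxc⟩
  refine mem_of_superset (residual_of_dense_open hO hD) ?_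
  rintro x (hxc | hxN) hxb
  · exact absurd (subset_closure hxb) hxc
  · exact hxN.2

/-- A quotient of holomorphic functions is holomorphic off the zeros of the denominator. -/
theorem Gen_reg {n : ℕ} {h N M : (Fin n → ℂ) → ℂ} {b : Fin n → ℂ} {ε : ℝ}
    (hN : DifferentiableOn ℂ N (ball b ε)) (hM : DifferentiableOn ℂ M (ball b ε))
    (hh : ∀ x ∈ ball b ε, N x ≠ 0 → N x * h x = M x) {x : Fin n → ℂ} (hxb : x ∈ ball b ε)
    (hx : N x ≠ 0) : Reg h x := by
  have hO1 : IsOpen (ball b ε ∩ N ⁻¹' {0}ᶜ) :=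
    hN.continuousOn.isOpen_inter_preimage isOpen_ball isOpen_compl_singleton
  have hmem : ball b ε ∩ N ⁻¹' {0}ᶜ ∈ 𝓝 x := hO1.mem_nhds ⟨hxb, hx⟩
  have heq : ∀ y ∈ ball b ε ∩ N ⁻¹' {0}ᶜ, h y = M y / N y := by
    intro y hy
    rw [eq_div_iff hy.2, mul_comm]
    exact hh y hy.1 hy.2
  filter_upwards [hmem] with y hy
  have h1 : h =ᶠ[𝓝 y] fun u => M u / N u := by
    filter_upwards [hO1.mem_nhds hy] with u hu
    exact heq u hu
  refine DifferentiableAt.congr_of_eventuallyEq ?_ h1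
  have h2 : ball b ε ∈ 𝓝 y := isOpen_ball.mem_nhds hy.1
  simp only [div_eq_mul_inv]
  exact (hM.differentiableAt h2).mul ((hN.differentiableAt h2).inv hy.2)

/-- **Row G2.** -/
theorem gen : SpGen := by
  intro n h U hU hm
  choose! ε hε N M hN hM hx hh using hm
  obtain ⟨T, hTU, hTc, hT⟩ := TopologicalSpace.countable_cover_nhdsWithin
    (f := fun b => ball b (ε b)) (s := U)
    (fun b hb => mem_nhdsWithin_of_mem_nhds (ball_mem_nhds b (hε b hb)))
  refine ⟨⋂ b ∈ T, {x | x ∈ ball b (ε b) → N b x ≠ 0}, ?_, ?_, ?_⟩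
  · rw [countable_bInter_mem hTc]
    intro b hb
    exact Gen_res (hN b (hTU hb)) (hx b (hTU hb))
  · intro x hxR hxU
    obtain ⟨b, hb, hxb⟩ := mem_iUnion₂.1 (hT hxU)
    have h1 : N b x ≠ 0 := mem_iInter₂.1 hxR b hb hxb
    exact Gen_reg (hN b (hTU hb)) (hM b (hTU hb)) (hh b (hTU hb)) hxb h1
  · intro φ l hφ hl hR
    obtain ⟨b, hb, hlb⟩ := mem_iUnion₂.1 (hT hl)
    have hNb := hN b (hTU hb)
    have hMb := hM b (hTU hb)
    have hφc : ∀ᶠ x in 𝓝 l, φ x ∈ ball b (ε b) :=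
      hφ.self_of_nhds.continuousAt.eventually_mem (isOpen_ball.mem_nhds hlb)
    have hcomp : ∀ F : (Fin n → ℂ) → ℂ, DifferentiableOn ℂ F (ball b (ε b)) →
        AnalyticAt ℂ (fun x => F (φ x)) l := by
      intro F hF
      rw [Complex.analyticAt_iff_eventually_differentiableAt]
      filter_upwards [hφ, hφc] with x h1 h2
      exact (hF.differentiableAt (isOpen_ball.mem_nhds h2)).comp x h1
    have hNa := hcomp _ hNb
    have hMa := hcomp _ hMb
    have hne : ∀ᶠ x in 𝓝[≠] l, N b (φ x) ≠ 0 := by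
      rcases hNa.eventually_eq_zero_or_eventually_ne_zero with h0 | h0
      · exfalso
        have h1 : ∀ᶠ x in 𝓝[≠] l, N b (φ x) = 0 := h0.filter_mono nhdsWithin_le_nhds
        have h2 : ∀ᶠ x in 𝓝[≠] l, φ x ∈ ball b (ε b) := hφc.filter_mono nhdsWithin_le_nhds
        obtain ⟨x, hxR, hx1, hx2⟩ := (hR.and_eventually (h1.and h2)).exists
        exact (mem_iInter₂.1 hxR b hb hx2) hx1
      · exact h0
    have hφc' : ∀ᶠ x in 𝓝[≠] l, φ x ∈ ball b (ε b) := hφc.filter_mono nhdsWithin_le_nhds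
    refine ⟨?_, ?_⟩
    · refine (hMa.meromorphicAt.div hNa.meromorphicAt).congr ?_
      filter_upwards [hne, hφc'] with x h1 h2
      change M b (φ x) / N b (φ x) = h (φ x)
      rw [div_eq_iff h1, mul_comm]
      exact (hh b (hTU hb) (φ x) h2 h1).symm
    · filter_upwards [hne, hφc'] with x h1 h2
      exact Gen_reg hNb hMb (hh b (hTU hb)) h2 h1

end Pool.Agent.KO.GA
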