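import Pool.Agent.KO.GA.T

/-!
# Project KO, block G, row G9: weighted homogeneous components (helper15)
-/

set_option autoImplicit false
set_option maxHeartbeats 400000

namespace Pool.Agent.KO.GA

open Set Filter Topology Metric

/-- Iterated derivatives of `x ↦ f (c x)`, without any assumption on `f`. -/
theorem Hom_iter (c : ℂ) (f : ℂ → ℂ) (d : ℕ) :
    iteratedDeriv d (fun x => f (c * x)) = fun x => c ^ d * iteratedDeriv d f (c * x) := by
  induction d with
  | zero => funext x; simp
  | succ d ih =>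
    rw [iteratedDeriv_succ, ih]
    funext x
    rw [deriv_const_mul_field]
    have h1 : deriv (fun y => iteratedDeriv d f (c * y)) x =
        c • deriv (iteratedDeriv d f) (c * x) := deriv_comp_mul_left c (iteratedDeriv d f) x
    rw [h1, iteratedDeriv_succ, smul_eq_mul, pow_succ]
    ring

theorem Hom_act_act (l m : ℂ) (b : Fin 5 → ℂ) : act5 l (act5 m b) = act5 (m * l) b := by
  funext i
  simp only [act5]
  rw [mul_pow]
  ring

/-- The action, as a function on `ℂ^6`. -/
def Hom_a (p : Fin 6 → ℂ) : Fin 5 → ℂ := act5 (p 5) ![p 0, p 1, p 2, p 3, p 4]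

theorem Hom_a_diff : Differentiable ℂ Hom_a := by
  rw [differentiable_pi]
  intro i
  fin_cases i <;> simp [Hom_a, act5, w5] <;> fun_prop

/-- The embedding of `ℂ^5`. -/
def Hom_i (b : Fin 5 → ℂ) : Fin 6 → ℂ := ![b 0, b 1, b 2, b 3, b 4, 0]

theorem Hom_i_diff : Differentiable ℂ Hom_i := by
  rw [differentiable_pi]
  intro i
  fin_cases i <;> simp [Hom_i] <;> fun_prop

/-- The line. -/
def Hom_g (z : ℂ) : Fin 6 → ℂ := ![0, 0, 0, 0, 0, z]

theorem Hom_g_cont : Continuous Hom_g := by
  rw [continuous_pi_iff]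
  intro i
  fin_cases i <;> simp [Hom_g] <;> fun_prop

theorem Hom_ag (b : Fin 5 → ℂ) (z : ℂ) : Hom_a (Hom_i b + Hom_g z) = act5 z b := by
  funext i
  fin_cases i <;> simp [Hom_a, Hom_i, Hom_g, act5, w5]

/-- Row G9. -/
theorem hom : SpHom := by
  intro δ F hδ hF
  refine ⟨fun d b => ((d.factorial : ℂ))⁻¹ * iteratedDeriv d (fun l => F (act5 l b)) 0,
    ?_, ?_, ?_⟩
  · intro d b₀ hb₀
    have hopen : IsOpen (Hom_a ⁻¹' ball (0 : Fin 5 → ℂ) δ) :=
      isOpen_ball.preimage Hom_a_diff.continuous
    have h0 : Hom_i b₀ + Hom_g 0 ∈ Hom_a ⁻¹' ball (0 : Fin 5 → ℂ) δ := by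
      rw [mem_preimage, Hom_ag, mem_ball, dist_zero_right, pi_norm_lt_iff hδ]
      intro i
      fin_cases i
      · simpa [act5, w5] using hδ
      · simpa [act5, w5] using hδ
      · simpa [act5, w5] using hδ
      · simpa [act5, w5] using hδ
      · simpa [act5, w5] using hb₀
    have hcont : Continuous fun q : (Fin 5 → ℂ) × ℂ => Hom_i q.1 + Hom_g q.2 :=
      (Hom_i_diff.continuous.comp continuous_fst).add (Hom_g_cont.comp continuous_snd)
    have h1 : ∀ᶠ q : (Fin 5 → ℂ) × ℂ in 𝓝 (b₀, 0), Hom_i q.1 + Hom_g q.2 ∈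
        Hom_a ⁻¹' ball (0 : Fin 5 → ℂ) δ := hcont.continuousAt (hopen.mem_nhds h0)
    rw [Metric.eventually_nhds_iff] at h1
    obtain ⟨ε, hε, h2⟩ := h1
    have h3 : ∀ b ∈ ball b₀ ε, ∀ z ∈ closedBall (0 : ℂ) (ε / 2), act5 z b ∈
        ball (0 : Fin 5 → ℂ) δ := by
      intro b hb z hz
      have h4 := @h2 (b, z) (by
        rw [Prod.dist_eq, max_lt_iff]
        refine ⟨hb, ?_⟩
        have h5 : dist z 0 ≤ ε / 2 := hz
        change dist z 0 < ε
        linarith)
      rwa [mem_preimage, Hom_ag] at h4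
    have hs : 0 < ε / 2 := by positivity
    -- Cauchy's formula
    have hact : ∀ b : Fin 5 → ℂ, Differentiable ℂ fun z : ℂ => act5 z b := by
      intro b
      rw [differentiable_pi]
      intro i
      simp only [act5]
      fun_prop
    have h5 : ∀ b ∈ ball b₀ ε, ((d.factorial : ℂ))⁻¹ *
        iteratedDeriv d (fun l => F (act5 l b)) 0 = (2 * Real.pi * Complex.I)⁻¹ *
          ∮ z in C(0, ε / 2), (1 / z ^ (d + 1)) * (F ∘ Hom_a) (Hom_i b + Hom_g z) := by
      intro b hb
      have h6 : DifferentiableOn ℂ (fun l => F (act5 l b)) (closedBall 0 (ε / 2)) := by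
        intro z hz
        have h7 : DifferentiableAt ℂ F (act5 z b) :=
          (hF _ (h3 b hb z hz)).differentiableAt (isOpen_ball.mem_nhds (h3 b hb z hz))
        exact (h7.comp z (hact b z)).differentiableWithinAt
      have h8 := h6.circleIntegral_one_div_sub_center_pow_smul hs d
      have h9 : (∮ z in C(0, ε / 2), (1 / z ^ (d + 1)) * (F ∘ Hom_a) (Hom_i b + Hom_g z)) =
          ∮ z in C(0, ε / 2), (1 / (z - 0) ^ (d + 1)) • F (act5 z b) := by
        congr 1
        funext z
        rw [Function.comp_apply, Hom_ag, sub_zero, smul_eq_mul]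
      rw [h9, h8, smul_eq_mul]
      have h10 : (2 * (Real.pi : ℂ) * Complex.I) ≠ 0 := Complex.two_pi_I_ne_zero
      have h11 : ((d.factorial : ℂ)) ≠ 0 := by
        exact_mod_cast d.factorial_ne_zero
      field_simp
    have h6 : DifferentiableAt ℂ (fun u => ∮ z in C(0, ε / 2), (1 / z ^ (d + 1)) *
        (F ∘ Hom_a) (u + Hom_g z)) (Hom_i b₀) := by
      refine T_diff (V := Hom_a ⁻¹' ball (0 : Fin 5 → ℂ) δ) hopen ?_ hs
        Hom_g_cont.continuousOn ?_ ?_
      · exact hF.comp Hom_a_diff.differentiableOn (fun x hx => hx)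
      · intro z hz
        rw [mem_preimage, Hom_ag]
        exact h3 b₀ (mem_ball_self hε) z (sphere_subset_closedBall hz)
      · intro z hz
        have hz0 : z ≠ 0 := by
          rintro rfl
          rw [mem_sphere, dist_self] at hz
          linarith
        refine ContinuousAt.continuousWithinAt ?_
        exact continuousAt_const.div (continuousAt_id.pow _) (pow_ne_zero _ hz0)
    have h7 : DifferentiableAt ℂ (fun b => (2 * Real.pi * Complex.I)⁻¹ *
        ∮ z in C(0, ε / 2), (1 / z ^ (d + 1)) * (F ∘ Hom_a) (Hom_i b + Hom_g z)) b₀ :=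
      (h6.comp b₀ (Hom_i_diff b₀)).const_mul _
    refine (h7.congr_of_eventuallyEq ?_).differentiableWithinAt
    filter_upwards [ball_mem_nhds b₀ hε] with b hb
    exact h5 b hb
  · intro d l b _
    have h1 : (fun x => F (act5 x (act5 l b))) = fun x => (fun y => F (act5 y b)) (l * x) := by
      funext x
      rw [Hom_act_act]
    simp only
    rw [h1, Hom_iter l (fun y => F (act5 y b)) d]
    simp only [mul_zero]
    ring
  · intro b hb l hl
    have hact : Differentiable ℂ fun z : ℂ => act5 z b := by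
      rw [differentiable_pi]
      intro i
      simp only [act5]
      fun_prop
    have hopen : IsOpen ((fun z : ℂ => act5 z b) ⁻¹' ball (0 : Fin 5 → ℂ) δ) :=
      isOpen_ball.preimage hact.continuous
    have hsub : closedBall (0 : ℂ) 1 ⊆ (fun z : ℂ => act5 z b) ⁻¹' ball (0 : Fin 5 → ℂ) δ := by
      intro z hz
      rw [mem_closedBall, dist_zero_right] at hz
      rw [mem_ball, dist_zero_right, pi_norm_lt_iff hδ] at hb
      rw [mem_preimage, mem_ball, dist_zero_right, pi_norm_lt_iff hδ]
      intro i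
      simp only [act5]
      rw [norm_mul, norm_pow]
      calc ‖z‖ ^ w5 i * ‖b i‖ ≤ 1 * ‖b i‖ := by
            gcongr
            exact pow_le_one₀ (norm_nonneg _) hz
        _ < δ := by rw [one_mul]; exact hb i
    obtain ⟨η, hη, h1⟩ := (isCompact_closedBall (0 : ℂ) 1).exists_thickening_subset_open
      hopen hsub
    rw [thickening_closedBall hη zero_le_one] at h1
    have h2 : DifferentiableOn ℂ (fun z => F (act5 z b)) (ball 0 (η + 1)) := by
      intro z hz
      have h3 : DifferentiableAt ℂ F (act5 z b) :=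
        (hF _ (h1 hz)).differentiableAt (isOpen_ball.mem_nhds (h1 hz))
      exact (h3.comp z (hact z)).differentiableWithinAt
    have h3 := Complex.hasSum_taylorSeries_on_ball h2 (z := l) (by
      rw [mem_ball, dist_zero_right]
      linarith)
    have h4 : (fun d : ℕ => l ^ d * (((d.factorial : ℂ))⁻¹ *
        iteratedDeriv d (fun l => F (act5 l b)) 0)) = fun n : ℕ =>
          ((n.factorial : ℂ))⁻¹ • (l - 0) ^ n • iteratedDeriv n (fun z => F (act5 z b)) 0 := by
      funext d
      rw [sub_zero, smul_eq_mul, smul_eq_mul]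
      ring
    rw [h4]
    exact h3

end Pool.Agent.KO.GA
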