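import Pool.Agent.KO.GA.Spec

/-!
# Project KO, block G, row G4: the moments satisfy a linear recurrence
-/

set_option autoImplicit false
set_option maxHeartbeats 400000

namespace Pool.Agent.KO.GA

open Set Filter Topology Metric

/-- **Row G4.** -/
theorem kron (h : SpOne) : SpKron := by
  intro H hm hc
  obtain ⟨B, hB, -, A, hA, hBA⟩ := h H hm hc
  have hcs : ContinuousOn H (sphere (0 : ℂ) 1) := fun l hl => (hc l hl).continuousWithinAt
  refine ⟨B.natDegree, B.coeff, hB.coeff_natDegree, fun m => ?_⟩
  have h1 : ∀ j, B.coeff j * (∮ z in C(0, 1), z ^ (m + j) * H z) =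
      ∮ z in C(0, 1), B.coeff j * (z ^ (m + j) * H z) := fun j =>
    (circleIntegral.integral_const_mul _ _ _ _).symm
  have hint : ∀ j ∈ Finset.range (B.natDegree + 1),
      CircleIntegrable (fun z => B.coeff j * (z ^ (m + j) * H z)) 0 1 := fun j _ =>
    ((continuousOn_const).mul (((continuous_id.pow (m + j)).continuousOn).mul hcs)).circleIntegrable
      zero_le_one
  simp_rw [h1]
  rw [← circleIntegral.integral_fun_sum hint]
  have h2 : EqOn (fun z => ∑ j ∈ Finset.range (B.natDegree + 1),
      B.coeff j * (z ^ (m + j) * H z)) (fun z => z ^ m * A z) (sphere (0 : ℂ) 1) := by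
    intro z hz
    have h3 := hBA z (sphere_subset_closedBall hz) (hc z hz)
    simp only
    rw [← h3, Polynomial.eval_eq_sum_range, Finset.sum_mul, Finset.mul_sum]
    refine Finset.sum_congr rfl fun j _ => ?_
    rw [pow_add]
    ring
  rw [circleIntegral.integral_congr zero_le_one h2]
  have hd : DiffContOnCl ℂ (fun z : ℂ => z ^ m) (ball 0 1) :=
    (differentiable_id.pow m).diffContOnCl
  exact (hd.smul hA).circleIntegral_eq_zero zero_le_one

end Pool.Agent.KO.GA
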