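import Pool.Agent.KO.GA.Spec

/-!
# Project KO, row G10: entire functions of polynomial growth (helper71)
-/

set_option autoImplicit false
set_option maxHeartbeats 400000

namespace Pool.Agent.KO.GA

open Set Filter Topology Metric

/-- An entire function of polynomial growth is a polynomial. -/
theorem lag_poly (d : ℕ) : ∀ (F : ℂ → ℂ) (C : ℝ), Differentiable ℂ F →
    (∀ z, ‖F z‖ ≤ C * (1 + ‖z‖) ^ d) →
    ∃ P : Polynomial ℂ, P.natDegree ≤ d ∧ ∀ z, F z = P.eval z := by
  induction d with
  | zero =>
    intro F C hF hb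
    refine ⟨Polynomial.C (F 0), by simp, fun z => ?_⟩
    rw [Polynomial.eval_C]
    refine hF.apply_eq_apply_of_bounded ?_ z 0
    refine (isBounded_iff_forall_norm_le).2 ⟨C, ?_⟩
    rintro _ ⟨w, rfl⟩
    simpa using hb w
  | succ d ih =>
    intro F C hF hb
    have hC : 0 ≤ C := by
      have h := (norm_nonneg (F 0)).trans (hb 0)
      simpa using h
    have hG : Differentiable ℂ (dslope F 0) := by
      rw [← differentiableOn_univ]
      exact (Complex.differentiableOn_dslope univ_mem).2 hF.differentiableOn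
    have hFG : ∀ z, F z = F 0 + z * dslope F 0 z := by
      intro z
      have h := sub_smul_dslope F 0 z
      rw [sub_zero, smul_eq_mul] at h
      rw [h]
      ring
    obtain ⟨M, hM⟩ := (isCompact_closedBall (0 : ℂ) 1).exists_bound_of_continuousOn
      hG.continuous.continuousOn
    have hM0 : 0 ≤ M := (norm_nonneg _).trans (hM 0 (by simp))
    obtain ⟨P, hP, hPe⟩ := ih (dslope F 0) (M + 3 * C) hG (by
      intro z
      have h1 : (1 : ℝ) ≤ (1 + ‖z‖) ^ d := one_le_pow₀ (by linarith [norm_nonneg z])
      by_cases hz : ‖z‖ ≤ 1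
      · have h2 := hM z (by simpa using hz)
        nlinarith
      · push Not at hz
        have hz0 : 0 < ‖z‖ := by linarith
        have h3 : ‖z‖ * ‖dslope F 0 z‖ ≤ ‖F z‖ + ‖F 0‖ := by
          rw [← norm_mul]
          have h4 : z * dslope F 0 z = F z - F 0 := by rw [hFG z]; ring
          rw [h4]
          exact norm_sub_le _ _
        have h5 := hb z
        have h6 : ‖F 0‖ ≤ C := by simpa using hb 0
        have h7 : C * (1 + ‖z‖) ^ (d + 1) ≤ 2 * C * (1 + ‖z‖) ^ d * ‖z‖ := by
          rw [pow_succ]
          have h8 : 0 ≤ C * (1 + ‖z‖) ^ d := by positivity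
          nlinarith
        have h9 : C ≤ C * (1 + ‖z‖) ^ d * ‖z‖ := by
          have h10 : C ≤ C * (1 + ‖z‖) ^ d := by nlinarith
          have h11 : 0 ≤ C * (1 + ‖z‖) ^ d := by positivity
          nlinarith
        have h12 : ‖z‖ * ‖dslope F 0 z‖ ≤ ‖z‖ * (3 * C * (1 + ‖z‖) ^ d) := by nlinarith
        have h13 := le_of_mul_le_mul_left h12 hz0
        have h14 : 0 ≤ M * (1 + ‖z‖) ^ d := by positivity
        nlinarith)
    refine ⟨Polynomial.C (F 0) + Polynomial.X * P, ?_, fun z => ?_⟩
    · refine (Polynomial.natDegree_add_le _ _).trans ?_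
      rw [Polynomial.natDegree_C]
      have h := Polynomial.natDegree_mul_le (p := (Polynomial.X : Polynomial ℂ)) (q := P)
      rw [Polynomial.natDegree_X] at h
      omega
    · rw [Polynomial.eval_add, Polynomial.eval_C, Polynomial.eval_mul, Polynomial.eval_X,
        ← hPe z]
      exact hFG z

theorem lag : SpLag := by
  intro d F C hF hb z
  obtain ⟨P, hP, hPe⟩ := lag_poly d F C hF hb
  have hinj : Set.InjOn (fun i : ℕ => (i : ℂ)) (Finset.range (d + 1)) := by
    intro a _ b _ hab
    exact Nat.cast_injective (R := ℂ) hab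
  have hdeg : P.degree < (Finset.range (d + 1)).card := by
    rw [Finset.card_range]
    refine lt_of_le_of_lt Polynomial.degree_le_natDegree ?_
    exact_mod_cast Nat.lt_succ_of_le hP
  have h := Lagrange.eq_interpolate hinj hdeg
  rw [hPe z]
  conv_lhs => rw [h]
  rw [Lagrange.interpolate_apply, Polynomial.eval_finset_sum]
  refine Finset.sum_congr rfl fun i _ => ?_
  rw [Polynomial.eval_mul, Polynomial.eval_C, mul_comm, hPe]

end Pool.Agent.KO.GA
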