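import Pool.Agent.KO.GA.Spec

/-!
# Project KO, block G, row G15: local form of `f` over a point of the base
-/

set_option autoImplicit false
set_option maxHeartbeats 400000

namespace Pool.Agent.KO.GA

open Set Filter Topology Metric

/-- The base point. -/
def lift_bs (p : Fin 6 → ℂ) : Fin 5 → ℂ := ![p 0, p 1, p 2, p 3, p 5]

theorem lift_up_bs (p : Fin 6 → ℂ) : up (lift_bs p) (p 4) = p := by
  funext i
  fin_cases i <;> rfl

theorem lift_bs_up (b : Fin 5 → ℂ) (y : ℂ) : lift_bs (up b y) = b := by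
  funext i
  fin_cases i <;> rfl

theorem lift_G_up (b : Fin 5 → ℂ) (y : ℂ) : G (up b y) = y ^ 2 - cc b := by
  have h0 : up b y 0 = b 0 := rfl
  have h1 : up b y 1 = b 1 := rfl
  have h2 : up b y 2 = b 2 := rfl
  have h3 : up b y 3 = b 3 := rfl
  have h4 : up b y 4 = y := rfl
  have h5 : up b y 5 = b 4 := rfl
  simp only [G, cc, h0, h1, h2, h3, h4, h5]
  ring

theorem lift_cont_bs : Continuous lift_bs := by
  refine continuous_pi fun i => ?_
  fin_cases i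
  · exact continuous_apply 0
  · exact continuous_apply 1
  · exact continuous_apply 2
  · exact continuous_apply 3
  · exact continuous_apply 5

theorem lift_cont_up : Continuous fun x : (Fin 5 → ℂ) × ℂ => up x.1 x.2 := by
  have h : ∀ j : Fin 5, Continuous fun x : (Fin 5 → ℂ) × ℂ => x.1 j := fun j =>
    (continuous_apply j).comp continuous_fst
  refine continuous_pi fun i => ?_
  fin_cases i
  · exact h 0
  · exact h 1
  · exact h 2
  · exact h 3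
  · exact continuous_snd
  · exact h 4

theorem lift_diff_up {S : Set (Fin 5 → ℂ)} {Y : (Fin 5 → ℂ) → ℂ} (hY : DifferentiableOn ℂ Y S) :
    DifferentiableOn ℂ (fun b => up b (Y b)) S := by
  refine differentiableOn_pi.2 fun i => ?_
  fin_cases i
  · exact (differentiable_apply (𝕜 := ℂ) (0 : Fin 5)).differentiableOn
  · exact (differentiable_apply (𝕜 := ℂ) (1 : Fin 5)).differentiableOn
  · exact (differentiable_apply (𝕜 := ℂ) (2 : Fin 5)).differentiableOn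
  · exact (differentiable_apply (𝕜 := ℂ) (3 : Fin 5)).differentiableOn
  · exact hY
  · exact (differentiable_apply (𝕜 := ℂ) (4 : Fin 5)).differentiableOn

theorem lift_mem_cone {b : Fin 5 → ℂ} {y : ℂ} : up b y ∈ Cone ↔
    y ^ 2 = cc b ∧ (∃ i : Fin 6, i ≠ 5 ∧ up b y i ≠ 0) ∧ ‖b 4‖ < 1 := by
  unfold Cone
  rw [mem_ofPred_eq, lift_G_up, sub_eq_zero]
  rfl

/-- The involution preserves the cone. -/
theorem lift_cone_neg {b : Fin 5 → ℂ} {y : ℂ} (h : up b y ∈ Cone) : up b (-y) ∈ Cone := by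
  rw [lift_mem_cone] at h ⊢
  obtain ⟨h1, ⟨i, hi, hi'⟩, h3⟩ := h
  refine ⟨by rw [neg_sq, h1], ⟨i, hi, ?_⟩, h3⟩
  fin_cases i
  · exact hi'
  · exact hi'
  · exact hi'
  · exact hi'
  · exact neg_ne_zero.2 hi'
  · exact absurd rfl hi

theorem lift_coneR {r : ℝ} (hr : r ≤ 1) {b : Fin 5 → ℂ} (hb : b ∈ U5 r) {y : ℂ}
    (hy : y ^ 2 = cc b) : up b y ∈ ConeR r := by
  obtain ⟨h1, ⟨i, hi, hi'⟩, h3⟩ := hb
  refine ⟨lift_mem_cone.2 ⟨hy, ?_, h1.trans_le hr⟩, ?_, h1⟩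
  · fin_cases i
    · exact ⟨0, by decide, hi'⟩
    · exact ⟨1, by decide, hi'⟩
    · exact ⟨2, by decide, hi'⟩
    · exact ⟨3, by decide, hi'⟩
    · exact absurd rfl hi
  · rintro ⟨g1, g2, g3, -⟩
    exact h3 ⟨g1, g2, g3⟩

/-- Both branches are nonzero somewhere. -/
theorem lift_key (V₁ V₂ : Set (Fin 6 → ℂ)) (F₁ F₂ : (Fin 6 → ℂ) → ℂ) (hV₁ : IsOpen V₁)
    (hV₂ : IsOpen V₂) (hF₁ : ContinuousOn F₁ V₁)
    (hd₁ : V₁ ∩ Cone ⊆ closure {x | x ∈ V₁ ∩ Cone ∧ F₁ x ≠ 0})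
    (hd₂ : V₂ ∩ Cone ⊆ closure {x | x ∈ V₂ ∩ Cone ∧ F₂ x ≠ 0})
    (W : Set ((Fin 5 → ℂ) × ℂ)) (hW : IsOpen W) (b : Fin 5 → ℂ) (y : ℂ) (hb : (b, y) ∈ W)
    (h1 : up b y ∈ V₁ ∩ Cone) (h2 : up b (-y) ∈ V₂) :
    ∃ (b' : Fin 5 → ℂ) (y' : ℂ), (b', y') ∈ W ∧ y' ^ 2 = cc b' ∧ up b' y' ∈ V₁ ∧
      F₁ (up b' y') ≠ 0 ∧ up b' (-y') ∈ V₂ ∧ F₂ (up b' (-y')) ≠ 0 := by
  -- the involution
  let τ : (Fin 6 → ℂ) → (Fin 6 → ℂ) := fun p => up (lift_bs p) (-p 4)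
  have hτc : Continuous τ :=
    lift_cont_up.comp (lift_cont_bs.prodMk (continuous_apply 4).neg)
  have hπ : Continuous fun p : Fin 6 → ℂ => (lift_bs p, p 4) :=
    lift_cont_bs.prodMk (continuous_apply 4)
  have hτup : ∀ (c : Fin 5 → ℂ) (v : ℂ), τ (up c v) = up c (-v) := by
    intro c v
    show up (lift_bs (up c v)) (-(up c v 4)) = up c (-v)
    rw [lift_bs_up]
    rfl
  have hττ : ∀ p, τ (τ p) = p := by
    intro p
    show τ (up (lift_bs p) (-p 4)) = p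
    rw [hτup, neg_neg, lift_up_bs]
  have hτC : ∀ p ∈ Cone, τ p ∈ Cone := by
    intro p hp
    rw [← lift_up_bs p] at hp
    exact lift_cone_neg hp
  let O₁ : Set (Fin 6 → ℂ) := V₁ ∩ τ ⁻¹' V₂ ∩ (fun p => (lift_bs p, p 4)) ⁻¹' W
  have hO₁ : IsOpen O₁ := (hV₁.inter (hV₂.preimage hτc)).inter (hW.preimage hπ)
  have hbO : up b y ∈ O₁ := by
    refine ⟨⟨h1.1, ?_⟩, ?_⟩
    · show τ (up b y) ∈ V₂
      rw [hτup]
      exact h2
    · show (lift_bs (up b y), up b y 4) ∈ W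
      rw [lift_bs_up]
      exact hb
  obtain ⟨x1, hx1O, ⟨hx1V, hx1C⟩, hx1F⟩ := mem_closure_iff.1 (hd₁ h1) O₁ hO₁ hbO
  let N : Set (Fin 6 → ℂ) := V₁ ∩ F₁ ⁻¹' {0}ᶜ
  have hN : IsOpen N := hF₁.isOpen_inter_preimage hV₁ isOpen_compl_singleton
  let O₂ : Set (Fin 6 → ℂ) := τ ⁻¹' (O₁ ∩ N)
  have hO₂ : IsOpen O₂ := (hO₁.inter hN).preimage hτc
  have hτx1 : τ x1 ∈ O₂ := by
    show τ (τ x1) ∈ O₁ ∩ N
    rw [hττ]
    exact ⟨hx1O, hx1V, hx1F⟩
  have hτx1' : τ x1 ∈ V₂ ∩ Cone := ⟨hx1O.1.2, hτC x1 hx1C⟩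
  obtain ⟨x2, hx2O, ⟨hx2V, hx2C⟩, hx2F⟩ := mem_closure_iff.1 (hd₂ hτx1') O₂ hO₂ hτx1
  have hp : τ x2 ∈ O₁ ∩ N := hx2O
  have hpC : τ x2 ∈ Cone := hτC x2 hx2C
  have hup : up (lift_bs (τ x2)) (τ x2 4) = τ x2 := lift_up_bs _
  have hup' : up (lift_bs (τ x2)) (-(τ x2 4)) = x2 := by
    have : up (lift_bs (τ x2)) (-(τ x2 4)) = τ (τ x2) := rfl
    rw [this, hττ]
  refine ⟨lift_bs (τ x2), τ x2 4, hp.1.2, ?_, ?_, ?_, ?_, ?_⟩
  · rw [← hup] at hpC
    exact (lift_mem_cone.1 hpC).1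
  · rw [hup]
    exact hp.1.1.1
  · rw [hup]
    exact hp.2.2
  · rw [hup']
    exact hx2V
  · rw [hup']
    exact hx2F

theorem lift (h1 : SpDiv) (h2 : SpRoot) : SpLift := by
  intro r D f hM b₀ hb₀
  by_cases hc : cc b₀ = 0
  · -- a branch point
    have hp : up b₀ 0 ∈ ConeR r := lift_coneR hM.le_one hb₀ (by rw [hc]; ring)
    obtain ⟨V, hV, hpV, F0, F1, hF0, hF1, hd, hf⟩ := hM.mer _ hp
    obtain ⟨ε0, hε0, A0, B0, hA0, hB0, h0⟩ := h1 F0 V b₀ hV hF0 hc hpV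
    obtain ⟨ε1, hε1, A1, B1, hA1, hB1, h1'⟩ := h1 F1 V b₀ hV hF1 hc hpV
    have hs0 : ball b₀ (min ε0 ε1) ⊆ ball b₀ ε0 := ball_subset_ball (min_le_left _ _)
    have hs1 : ball b₀ (min ε0 ε1) ⊆ ball b₀ ε1 := ball_subset_ball (min_le_right _ _)
    refine ⟨min ε0 ε1, lt_min hε0 hε1, A0, B0, A1, B1, hA0.mono hs0, hB0.mono hs0,
      hA1.mono hs1, hB1.mono hs1, ?_, ?_⟩
    · obtain ⟨b, y, hbW, hy, -, hFy, -, hFy'⟩ := lift_key V V F0 F0 hV hV hF0.continuousOn hd hd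
        (ball b₀ (min ε0 ε1) ×ˢ univ) (isOpen_ball.prod isOpen_univ) b₀ 0
        ⟨mem_ball_self (lt_min hε0 hε1), mem_univ _⟩ ⟨hpV, hp.1⟩ (by rw [neg_zero]; exact hpV)
      have hb : b ∈ ball b₀ (min ε0 ε1) := hbW.1
      refine ⟨b, hb, ?_⟩
      have e1 := (h0 b (hs0 hb) y hy).2
      have e2 := (h0 b (hs0 hb) (-y) (by rw [neg_sq, hy])).2
      have e3 : A0 b ^ 2 - cc b * B0 b ^ 2 = F0 (up b y) * F0 (up b (-y)) := by
        rw [e1, e2, ← hy]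
        ring
      rw [e3]
      exact mul_ne_zero hFy hFy'
    · intro b hb y hy hyD
      obtain ⟨g1, g2⟩ := h0 b (hs0 hb) y hy
      obtain ⟨-, g3⟩ := h1' b (hs1 hb) y hy
      rw [← g2, ← g3]
      exact hf _ ⟨g1, hyD⟩
  · -- not a branch point
    obtain ⟨y0, hy0⟩ : ∃ y0 : ℂ, y0 ^ 2 = cc b₀ := IsAlgClosed.exists_pow_nat_eq _ two_pos
    have hy0' : y0 ≠ 0 := by
      rintro rfl
      exact hc (by rw [← hy0]; ring)
    have hp : up b₀ y0 ∈ ConeR r := lift_coneR hM.le_one hb₀ hy0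
    have hm : up b₀ (-y0) ∈ ConeR r := lift_coneR hM.le_one hb₀ (by rw [neg_sq, hy0])
    obtain ⟨V, hV, hpV, F0, F1, hF0, hF1, hd, hf⟩ := hM.mer _ hp
    obtain ⟨V', hV', hpV', F0', F1', hF0', hF1', hd', hf'⟩ := hM.mer _ hm
    obtain ⟨ε, hε, Y, hY, hYp⟩ := h2 V V' b₀ y0 hV hV' hy0 hy0' hpV hpV'
    have hYn : DifferentiableOn ℂ (fun b => -Y b) (ball b₀ ε) := hY.neg
    have hc0 : DifferentiableOn ℂ (fun b => F0 (up b (Y b))) (ball b₀ ε) :=
      hF0.comp (lift_diff_up hY) fun b hb => (hYp b hb).2.2.1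
    have hc1 : DifferentiableOn ℂ (fun b => F1 (up b (Y b))) (ball b₀ ε) :=
      hF1.comp (lift_diff_up hY) fun b hb => (hYp b hb).2.2.1
    have hc0' : DifferentiableOn ℂ (fun b => F0' (up b (-Y b))) (ball b₀ ε) :=
      hF0'.comp (lift_diff_up hYn) fun b hb => (hYp b hb).2.2.2
    have hc1' : DifferentiableOn ℂ (fun b => F1' (up b (-Y b))) (ball b₀ ε) :=
      hF1'.comp (lift_diff_up hYn) fun b hb => (hYp b hb).2.2.2
    have h2Y : ∀ b ∈ ball b₀ ε, 2 * Y b ≠ 0 := fun b hb =>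
      mul_ne_zero two_ne_zero (hYp b hb).2.1
    have hinv : DifferentiableOn ℂ (fun b => (2 * Y b)⁻¹) (ball b₀ ε) :=
      (hY.const_mul 2).inv h2Y
    have hdiv : ∀ u : (Fin 5 → ℂ) → ℂ, DifferentiableOn ℂ u (ball b₀ ε) →
        DifferentiableOn ℂ (fun b => u b / (2 * Y b)) (ball b₀ ε) := by
      intro u hu
      simp only [div_eq_mul_inv]
      exact hu.mul hinv
    have hdiv2 : ∀ u : (Fin 5 → ℂ) → ℂ, DifferentiableOn ℂ u (ball b₀ ε) →
        DifferentiableOn ℂ (fun b => u b / 2) (ball b₀ ε) := by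
      intro u hu
      simp only [div_eq_mul_inv]
      exact hu.mul_const _
    refine ⟨ε, hε, fun b => (F0 (up b (Y b)) + F0' (up b (-Y b))) / 2,
      fun b => (F0 (up b (Y b)) - F0' (up b (-Y b))) / (2 * Y b),
      fun b => (F1 (up b (Y b)) + F1' (up b (-Y b))) / 2,
      fun b => (F1 (up b (Y b)) - F1' (up b (-Y b))) / (2 * Y b),
      hdiv2 _ (hc0.add hc0'), hdiv _ (hc0.sub hc0'),
      hdiv2 _ (hc1.add hc1'), hdiv _ (hc1.sub hc1'), ?_, ?_⟩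
    · have hb0 : b₀ ∈ ball b₀ ε := mem_ball_self hε
      obtain ⟨k1, k2, k3, k4⟩ := hYp b₀ hb0
      -- the neighbourhoods
      let W : Set ((Fin 5 → ℂ) × ℂ) :=
        (ball b₀ ε ∩ Y ⁻¹' ball (Y b₀) ‖Y b₀‖) ×ˢ ball (Y b₀) ‖Y b₀‖
      have hW : IsOpen W :=
        (hY.continuousOn.isOpen_inter_preimage isOpen_ball isOpen_ball).prod isOpen_ball
      have hbW : (b₀, Y b₀) ∈ W :=
        ⟨⟨hb0, mem_ball_self (norm_pos_iff.2 k2)⟩, mem_ball_self (norm_pos_iff.2 k2)⟩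
      have hC : up b₀ (Y b₀) ∈ ConeR r := lift_coneR hM.le_one hb₀ k1
      obtain ⟨b, y, ⟨⟨hb, hYb⟩, hyb⟩, hy, -, hFy, -, hFy'⟩ := lift_key V V' F0 F0' hV hV'
        hF0.continuousOn hd hd' W hW b₀ (Y b₀) hbW ⟨k3, hC.1⟩ k4
      obtain ⟨m1, m2, m3, m4⟩ := hYp b hb
      have hyY : y = Y b := by
        have h5 : (y - Y b) * (y + Y b) = 0 := by
          have : (y - Y b) * (y + Y b) = y ^ 2 - Y b ^ 2 := by ring
          rw [this, hy, m1, sub_self]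
        rcases mul_eq_zero.1 h5 with h6 | h6
        · exact sub_eq_zero.1 h6
        · exfalso
          have h7 : ‖Y b - Y b₀‖ < ‖Y b₀‖ := by
            have := mem_preimage.1 hYb
            rwa [mem_ball, dist_eq_norm] at this
          have h8 : ‖y - Y b₀‖ < ‖Y b₀‖ := by
            have hyb' : y ∈ ball (Y b₀) ‖Y b₀‖ := hyb
            rwa [mem_ball, dist_eq_norm] at hyb'
          have h9 : (y - Y b₀) + (Y b - Y b₀) = -(2 * Y b₀) := by
            linear_combination h6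
          have h10 : ‖(2 : ℂ) * Y b₀‖ ≤ ‖y - Y b₀‖ + ‖Y b - Y b₀‖ := by
            rw [← norm_neg ((2 : ℂ) * Y b₀), ← h9]
            exact norm_add_le _ _
          rw [norm_mul, Complex.norm_two] at h10
          linarith
      subst hyY
      refine ⟨b, hb, ?_⟩
      have e3 : ((F0 (up b (Y b)) + F0' (up b (-Y b))) / 2) ^ 2 -
          cc b * ((F0 (up b (Y b)) - F0' (up b (-Y b))) / (2 * Y b)) ^ 2 =
            F0 (up b (Y b)) * F0' (up b (-Y b)) := by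
        rw [← m1]
        field_simp
        ring
      show ((F0 (up b (Y b)) + F0' (up b (-Y b))) / 2) ^ 2 -
          cc b * ((F0 (up b (Y b)) - F0' (up b (-Y b))) / (2 * Y b)) ^ 2 ≠ 0
      rw [e3]
      exact mul_ne_zero hFy hFy'
    · intro b hb y hy hyD
      obtain ⟨m1, m2, m3, m4⟩ := hYp b hb
      have h5 : (y - Y b) * (y + Y b) = 0 := by
        have : (y - Y b) * (y + Y b) = y ^ 2 - Y b ^ 2 := by ring
        rw [this, hy, m1, sub_self]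
      show ((F0 (up b (Y b)) + F0' (up b (-Y b))) / 2 +
          y * ((F0 (up b (Y b)) - F0' (up b (-Y b))) / (2 * Y b))) * f (up b y) =
        (F1 (up b (Y b)) + F1' (up b (-Y b))) / 2 +
          y * ((F1 (up b (Y b)) - F1' (up b (-Y b))) / (2 * Y b))
      rcases mul_eq_zero.1 h5 with h6 | h6
      · have hyY : y = Y b := sub_eq_zero.1 h6
        subst hyY
        have g1 := hf _ ⟨m3, hyD⟩
        have g2 : ∀ u v : ℂ, (u + v) / 2 + Y b * ((u - v) / (2 * Y b)) = u := by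
          intro u v
          field_simp
          ring
        rw [g2, g2]
        exact g1
      · have hyY : y = -Y b := eq_neg_of_add_eq_zero_left h6
        subst hyY
        have g1 := hf' _ ⟨m4, hyD⟩
        have g2 : ∀ u v : ℂ, (u + v) / 2 + -Y b * ((u - v) / (2 * Y b)) = v := by
          intro u v
          field_simp
          ring
        rw [g2, g2]
        exact g1

end Pool.Agent.KO.GA
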