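import Pool.Agent.KO.GA.Spec
import Pool.Agent.KO.GA.BaseT
import Pool.Agent.H86.Lang.Ext

/-!
# Project KO, block G, row G22: the main theorem from the rows
-/

set_option autoImplicit false
set_option maxHeartbeats 400000

namespace Pool.Agent.KO.GA

open Set Filter Topology Metric

/-- The base point of a point of the cone. -/
def dn (p : Fin 6 → ℂ) : Fin 5 → ℂ := ![p 0, p 1, p 2, p 3, p 5]

lemma continuous_dn : Continuous dn := by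
  refine continuous_pi fun i => ?_
  fin_cases i
  · exact continuous_apply 0
  · exact continuous_apply 1
  · exact continuous_apply 2
  · exact continuous_apply 3
  · exact continuous_apply 5

lemma dn_up (b : Fin 5 → ℂ) (y : ℂ) : dn (up b y) = b := by
  funext i
  fin_cases i <;> rfl

lemma main_ne {δ δ' : ℝ} (hδ : 0 < δ) (hδ' : δ ≤ δ') {q : (Fin 5 → ℂ) → ℂ} {d : ℕ}
    (hq : DifferentiableOn ℂ q {b | ‖b 4‖ < δ'})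
    (hom : ∀ l : ℂ, ∀ b : Fin 5 → ℂ, ‖b 4‖ < δ' → q (act5 l b) = l ^ d * q b)
    (hne : ∃ b : Fin 5 → ℂ, ‖b 4‖ < δ' ∧ q b ≠ 0) : ∃ b ∈ ball (0 : Fin 5 → ℂ) δ, q b ≠ 0 := by
  obtain ⟨b, hb4, hb⟩ := hne
  have hδ'0 : 0 < δ' := hδ.trans_le hδ'
  obtain ⟨μ, hμ, hμb⟩ := base_radius hδ'0 b hb4
  have h1 : q (act5 (μ : ℂ) b) ≠ 0 := by
    rw [hom _ _ hb4]
    exact mul_ne_zero (pow_ne_zero _ (by exact_mod_cast hμ.ne')) hb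
  by_contra hcon
  push Not at hcon
  refine h1 (H86.Lang.eqOn_zero_ball (hq.mono ?_) (u₁ := 0) (mem_ball_self hδ'0) ?_ _ hμb)
  · intro x hx
    rw [mem_ball, dist_zero_right] at hx
    exact (norm_le_pi_norm x 4).trans_lt hx
  · filter_upwards [ball_mem_nhds (0 : Fin 5 → ℂ) hδ] with v hv
    exact hcon v hv

lemma main_gAff {δ : ℝ} (s : ball (0 : ℂ) δ) (u w x y : ℂ) :
    MvPolynomial.eval₂ (evR s) ![u, w, x, y] (gAff (tR δ)) =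
      y ^ 2 + x ^ 3 + s * w ^ 11 + u * w ^ 10 + u ^ 12 * w - 1 - w ^ 9 := by
  have h1 : evR s (tR δ) = s := rfl
  simp only [gAff, MvPolynomial.eval₂_add, MvPolynomial.eval₂_sub, MvPolynomial.eval₂_mul,
    MvPolynomial.eval₂_pow, MvPolynomial.eval₂_X, MvPolynomial.eval₂_C, MvPolynomial.eval₂_one, h1]
  simp

lemma main_ndvd {δ δ₀ δ₁ : ℝ} (hδ : 0 < δ) (h0 : δ ≤ δ₀) (h1 : δ ≤ δ₁)
    {q₀ q₁ : (Fin 5 → ℂ) → ℂ} {d₀ d₁ : ℕ}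
    (hq₀ : DifferentiableOn ℂ q₀ {b | ‖b 4‖ < δ₀}) (hq₁ : DifferentiableOn ℂ q₁ {b | ‖b 4‖ < δ₁})
    (hom₀ : ∀ l : ℂ, ∀ b : Fin 5 → ℂ, ‖b 4‖ < δ₀ → q₀ (act5 l b) = l ^ d₀ * q₀ b)
    (hom₁ : ∀ l : ℂ, ∀ b : Fin 5 → ℂ, ‖b 4‖ < δ₁ → q₁ (act5 l b) = l ^ d₁ * q₁ b)
    (hne₀ : ∃ b : Fin 5 → ℂ, ‖b 4‖ < δ₀ ∧ q₀ b ≠ 0)
    (hne₁ : ∃ b : Fin 5 → ℂ, ‖b 4‖ < δ₁ ∧ q₁ b ≠ 0) {Q₀ Q₁ : MvPolynomial (Fin 4) (AnR δ)}
    (hQ₀ : ∀ (s : ball (0 : ℂ) δ) (u w x y : ℂ),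
      MvPolynomial.eval₂ (evR s) ![u, w, x, y] Q₀ = q₀ ![1, u, w, x, s])
    (hQ₁ : ∀ (s : ball (0 : ℂ) δ) (u w x y : ℂ),
      MvPolynomial.eval₂ (evR s) ![u, w, x, y] Q₁ = q₁ ![1, u, w, x, s]) :
    ¬ gAff (tR δ) ∣ Q₀ * Q₁ := by
  rintro ⟨R, hR⟩
  have hs : ∀ {δ' : ℝ}, δ ≤ δ' → ball (0 : Fin 5 → ℂ) δ ⊆ {b | ‖b 4‖ < δ'} := by
    intro δ' hδ' x hx
    rw [mem_ball, dist_zero_right] at hx
    exact ((norm_le_pi_norm x 4).trans_lt hx).trans_le hδ'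
  obtain ⟨b, hb, hbne⟩ := H86.Lang.exists_common_ne (κ := Fin 3)
    (h := ![q₀, q₁, fun b => b 0]) (v := (0 : Fin 5 → ℂ)) (ρ := δ) Finset.univ (by
      intro i _
      fin_cases i
      · exact hq₀.mono (hs h0)
      · exact hq₁.mono (hs h1)
      · exact (differentiable_apply (𝕜 := ℂ) (0 : Fin 5)).differentiableOn) (by
      intro i _
      fin_cases i
      · exact main_ne hδ h0 hq₀ hom₀ hne₀
      · exact main_ne hδ h1 hq₁ hom₁ hne₁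
      · refine ⟨fun _ => ((δ / 2 : ℝ) : ℂ), ?_, ?_⟩
        · rw [mem_ball, dist_zero_right, pi_norm_lt_iff hδ]
          intro _
          rw [Complex.norm_real, Real.norm_eq_abs, abs_of_pos (by positivity)]
          linarith
        · change ((δ / 2 : ℝ) : ℂ) ≠ 0
          exact_mod_cast (by positivity : (δ / 2 : ℝ) ≠ 0)) isOpen_ball (subset_refl _)
      ⟨0, mem_ball_self hδ⟩
  have hb0 : q₀ b ≠ 0 := hbne 0 (Finset.mem_univ _)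
  have hb1 : q₁ b ≠ 0 := hbne 1 (Finset.mem_univ _)
  have hb2 : b 0 ≠ 0 := hbne 2 (Finset.mem_univ _)
  have hb4 : ‖b 4‖ < δ := hs le_rfl hb
  have hl : (b 0)⁻¹ ≠ 0 := inv_ne_zero hb2
  have hc0 : q₀ (act5 (b 0)⁻¹ b) ≠ 0 := by
    rw [hom₀ _ _ (hb4.trans_le h0)]
    exact mul_ne_zero (pow_ne_zero _ hl) hb0
  have hc1 : q₁ (act5 (b 0)⁻¹ b) ≠ 0 := by
    rw [hom₁ _ _ (hb4.trans_le h1)]
    exact mul_ne_zero (pow_ne_zero _ hl) hb1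
  obtain ⟨c, hc⟩ : ∃ c : Fin 5 → ℂ, c = act5 (b 0)⁻¹ b := ⟨_, rfl⟩
  have hc00 : c 0 = 1 := by
    rw [hc]
    simp [act5, w5, inv_mul_cancel₀ hb2]
  have hc4 : c 4 ∈ ball (0 : ℂ) δ := by
    rw [hc, act5_four, mem_ball, dist_zero_right]
    exact hb4
  rw [← hc] at hc0 hc1
  have hcv : c = ![1, c 1, c 2, c 3, ((⟨c 4, hc4⟩ : ball (0 : ℂ) δ) : ℂ)] := by
    funext i
    fin_cases i
    · exact hc00
    all_goals rfl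
  obtain ⟨y, hy⟩ := IsAlgClosed.exists_pow_nat_eq
    (-(c 3 ^ 3 + c 4 * c 2 ^ 11 + c 1 * c 2 ^ 10 + c 1 ^ 12 * c 2 - 1 - c 2 ^ 9)) (n := 2)
    (by norm_num)
  have h2 := congrArg (MvPolynomial.eval₂ (evR ⟨c 4, hc4⟩) ![c 1, c 2, c 3, y]) hR
  rw [MvPolynomial.eval₂_mul, MvPolynomial.eval₂_mul, hQ₀, hQ₁, main_gAff, ← hcv, hy] at h2
  have h3 : q₀ c * q₁ c = 0 := by
    rw [h2]
    ring
  exact (mul_ne_zero hc0 hc1) h3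

theorem main_of (hTr : SpTr) (hDpT : SpDpT) (hDpH : SpDpH) (hExt : SpExt) (hExtHom : SpExtHom)
    (hBase : SpBase) (hPol : SpPol) (hDense : SpDense) : GMain := by
  intro r D f hM
  obtain ⟨hUo, hUc, hDo, hDc⟩ := hDpT r D f hM
  obtain ⟨hUst, hDst, hf0, hf1⟩ := hDpH r D f hM
  have htr := hTr r D f hM
  obtain ⟨m0, e0⟩ := hExt 5 (U5 r) (Dp r D) (f0 f) hUo hDc (fun b hb => (htr b hb).1)
  obtain ⟨m1, e1⟩ := hExt 5 (U5 r) (Dp r D) (f1 f) hUo hDc (fun b hb => (htr b hb).2)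
  have hh0 := hExtHom (Dp r D) (f0 f) 0 hDst hf0
  have hh1 := hExtHom (Dp r D) (f1 f) (-33) hDst hf1
  obtain ⟨δ₀, d₀, e₀, q₀, p₀, hδ₀, hδ₀r, hq₀, hp₀, homq₀, homp₀, hne₀, hid₀⟩ :=
    hBase r 0 (ext (Dp r D) (f0 f)) hM.pos m0 (fun l hl b hb => hh0 l hl b (hDc hb))
  obtain ⟨δ₁, d₁, e₁, q₁, p₁, hδ₁, hδ₁r, hq₁, hp₁, homq₁, homp₁, hne₁, hid₁⟩ :=
    hBase r (-33) (ext (Dp r D) (f1 f)) hM.pos m1 (fun l hl b hb => hh1 l hl b (hDc hb))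
  obtain ⟨δ, hδ, h0, h1⟩ : ∃ δ : ℝ, 0 < δ ∧ δ ≤ δ₀ ∧ δ ≤ δ₁ :=
    ⟨min δ₀ δ₁, lt_min hδ₀ hδ₁, min_le_left _ _, min_le_right _ _⟩
  have hs0 : {b : Fin 5 → ℂ | ‖b 4‖ < δ} ⊆ {b | ‖b 4‖ < δ₀} := fun b hb => lt_of_lt_of_le hb h0
  have hs1 : {b : Fin 5 → ℂ | ‖b 4‖ < δ} ⊆ {b | ‖b 4‖ < δ₁} := fun b hb => lt_of_lt_of_le hb h1
  obtain ⟨Q₀, hQ₀⟩ := hPol δ d₀ q₀ hδ (hq₀.mono hs0) (fun l b hb => homq₀ l b (hs0 hb))
  obtain ⟨P₀, hP₀⟩ := hPol δ e₀ p₀ hδ (hp₀.mono hs0) (fun l b hb => homp₀ l b (hs0 hb))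
  obtain ⟨Q₁, hQ₁⟩ := hPol δ d₁ q₁ hδ (hq₁.mono hs1) (fun l b hb => homq₁ l b (hs1 hb))
  obtain ⟨P₁, hP₁⟩ := hPol δ e₁ p₁ hδ (hp₁.mono hs1) (fun l b hb => homp₁ l b (hs1 hb))
  refine ⟨δ, hδ, h0.trans hδ₀r, P₀ * Q₁ + MvPolynomial.X 3 * P₁ * Q₀, Q₀ * Q₁,
    main_ndvd hδ h0 h1 hq₀ hq₁ homq₀ homq₁ hne₀ hne₁ hQ₀ hQ₁, ?_⟩
  intro p hp hp0 hp5
  have hp5' : ‖p 5‖ < δ := by
    rw [mem_ball, dist_zero_right] at hp5
    exact hp5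
  -- the residual set
  obtain ⟨R, hR⟩ : ∃ R : Set (Fin 5 → ℂ), R = {b | (‖b 4‖ < δ₀ →
      q₀ b * ext (Dp r D) (f0 f) b = p₀ b) ∧ (‖b 4‖ < δ₁ → q₁ b * ext (Dp r D) (f1 f) b = p₁ b) ∧
      (b ∈ U5 r → b ∈ Dp r D → ext (Dp r D) (f0 f) b = f0 f b) ∧
      (b ∈ U5 r → b ∈ Dp r D → ext (Dp r D) (f1 f) b = f1 f b)} := ⟨_, rfl⟩
  have hRres : R ∈ residual (Fin 5 → ℂ) := by
    have h2 := hid₀.and (hid₁.and (e0.and e1))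
    rw [hR]
    exact h2
  have hcl := hDense r D f hM R hRres p hp
  obtain ⟨S, hS⟩ : ∃ S : Set (Fin 6 → ℂ), S = {x | x ∈ D ∧ ∃ (b : Fin 5 → ℂ) (y : ℂ),
    x = up b y ∧ y ^ 2 = cc b ∧ b ∈ R ∧ b ∈ Dp r D} := ⟨_, rfl⟩
  rw [← hS] at hcl
  have hSD : S ⊆ D := by
    rw [hS]
    exact fun x hx => hx.1
  obtain ⟨Φ, hΦ⟩ : ∃ Φ : (Fin 6 → ℂ) → ℂ, Φ = fun x => q₀ (dn x) * q₁ (dn x) * f x -
      (p₀ (dn x) * q₁ (dn x) + x 4 * p₁ (dn x) * q₀ (dn x)) := ⟨_, rfl⟩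
  have hdn4 : ∀ x : Fin 6 → ℂ, dn x 4 = x 5 := fun x => rfl
  have hopen : ∀ δ' : ℝ, IsOpen {b : Fin 5 → ℂ | ‖b 4‖ < δ'} := fun δ' =>
    isOpen_lt (by fun_prop) continuous_const
  have hcq : ∀ {q : (Fin 5 → ℂ) → ℂ} {δ' : ℝ}, δ ≤ δ' → DifferentiableOn ℂ q {b | ‖b 4‖ < δ'} →
      ContinuousAt (fun x => q (dn x)) p := by
    intro q δ' hδ' hq
    have h2 : dn p ∈ {b : Fin 5 → ℂ | ‖b 4‖ < δ'} := by
      rw [mem_setOf_eq, hdn4]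
      exact hp5'.trans_le hδ'
    have h3 : ContinuousAt q (dn p) :=
      ((hq _ h2).differentiableAt ((hopen δ').mem_nhds h2)).continuousAt
    exact ContinuousAt.comp (f := dn) (g := q) h3 continuous_dn.continuousAt
  have hΦc : ContinuousWithinAt Φ S p := by
    have hf : ContinuousWithinAt f S p := (hM.cont p hp).mono hSD
    have hx4 : ContinuousAt (fun x : Fin 6 → ℂ => x 4) p := (continuous_apply 4).continuousAt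
    have a1 := (hcq h0 hq₀).continuousWithinAt (s := S)
    have a2 := (hcq h1 hq₁).continuousWithinAt (s := S)
    have a3 := (hcq h0 hp₀).continuousWithinAt (s := S)
    have a4 := (hcq h1 hp₁).continuousWithinAt (s := S)
    have a5 := hx4.continuousWithinAt (s := S)
    rw [hΦ]
    exact ((a1.mul a2).mul hf).sub ((a3.mul a2).add ((a5.mul a4).mul a1))
  have hΦ0 : ∀ x ∈ S, ‖x 5‖ < δ → Φ x = 0 := by
    intro x hx hx5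
    rw [hS] at hx
    obtain ⟨hxD, b, y, rfl, hy, hbR, hbD⟩ := hx
    rw [hR] at hbR
    obtain ⟨r1, r2, r3, r4⟩ := hbR
    have hb4 : ‖b 4‖ < δ := hx5
    have r1' := r1 (hb4.trans_le h0)
    have r2' := r2 (hb4.trans_le h1)
    rw [r3 hbD.1 hbD] at r1'
    rw [r4 hbD.1 hbD] at r2'
    have hsq : sq b ^ 2 = cc b := by
      rw [sq, ← Complex.cpow_nat_mul]
      norm_num
    have hsq0 : sq b ≠ 0 := by
      intro h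
      rw [h] at hsq
      exact hbD.2.1 (by rw [← hsq]; ring)
    have hfx : f (up b y) = f0 f b + y * f1 f b := by
      rcases sq_eq_sq_iff_eq_or_eq_neg.mp (hy.trans hsq.symm) with h | h
      · rw [h, f0, f1]
        field_simp
        ring
      · rw [h, f0, f1]
        field_simp
        ring
    rw [hΦ]
    simp only [dn_up]
    have h4 : up b y 4 = y := rfl
    rw [h4, hfx, ← r1', ← r2']
    ring
  have hne : (𝓝[S] p).NeBot := mem_closure_iff_nhdsWithin_neBot.mp hcl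
  have hΦp : Φ p = 0 := by
    refine tendsto_nhds_unique (f := Φ) (l := 𝓝[S] p) hΦc ?_
    refine Tendsto.congr' ?_ tendsto_const_nhds
    have h2 : ∀ᶠ x : Fin 6 → ℂ in 𝓝 p, ‖x 5‖ < δ :=
      (isOpen_lt (by fun_prop) continuous_const).mem_nhds hp5'
    filter_upwards [self_mem_nhdsWithin, nhdsWithin_le_nhds h2] with x hx1 hx2
    exact (hΦ0 x hx1 hx2).symm
  have hdnp : dn p = ![1, p 1, p 2, p 3, ((⟨p 5, hp5⟩ : ball (0 : ℂ) δ) : ℂ)] := by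
    rw [dn, hp0]
  rw [hΦ] at hΦp
  simp only [hdnp] at hΦp
  have g1 := hQ₀ ⟨p 5, hp5⟩ (p 1) (p 2) (p 3) (p 4)
  have g2 := hQ₁ ⟨p 5, hp5⟩ (p 1) (p 2) (p 3) (p 4)
  have g3 := hP₀ ⟨p 5, hp5⟩ (p 1) (p 2) (p 3) (p 4)
  have g4 := hP₁ ⟨p 5, hp5⟩ (p 1) (p 2) (p 3) (p 4)
  rw [affPt, MvPolynomial.eval₂_mul, MvPolynomial.eval₂_add, MvPolynomial.eval₂_mul,
    MvPolynomial.eval₂_mul, MvPolynomial.eval₂_mul, MvPolynomial.eval₂_X, g1, g2, g3, g4]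
  have g5 : (![p 1, p 2, p 3, p 4] : Fin 4 → ℂ) 3 = p 4 := rfl
  rw [g5]
  exact sub_eq_zero.mp hΦp

end Pool.Agent.KO.GA
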