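import Pool.Agent.KO.GA.Spec

/-!
# Project KO, block G, row G5: vanishing moments and Cauchy's formula for `q H`
-/

set_option autoImplicit false
set_option maxHeartbeats 400000

namespace Pool.Agent.KO.GA

open Set Filter Topology Metric

theorem Mom_poly (g : ℂ → ℂ) (hg : ContinuousOn g (sphere (0 : ℂ) 1))
    (hm : ∀ m : ℕ, (∮ z in C(0, 1), z ^ m * g z) = 0) (R : Polynomial ℂ) :
    (∮ z in C(0, 1), R.eval z * g z) = 0 := by
  have h1 : ∀ z, R.eval z * g z =
      ∑ i ∈ Finset.range (R.natDegree + 1), R.coeff i * (z ^ i * g z) := by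
    intro z
    rw [Polynomial.eval_eq_sum_range, Finset.sum_mul]
    exact Finset.sum_congr rfl fun i _ => by ring
  rw [circleIntegral.integral_congr zero_le_one (fun z _ => h1 z),
    circleIntegral.integral_fun_sum]
  · refine Finset.sum_eq_zero fun i _ => ?_
    rw [circleIntegral.integral_const_mul, hm i, mul_zero]
  · intro i _
    exact ContinuousOn.circleIntegrable zero_le_one
      (continuousOn_const.mul ((continuous_pow i).continuousOn.mul hg))

theorem Mom_ind : ∀ (n : ℕ) (B : Polynomial ℂ), B.natDegree = n → B.Monic →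
    (∀ x ∈ B.roots, ‖x‖ < 1) → ∀ C g : ℂ → ℂ, DiffContOnCl ℂ C (ball 0 1) →
    (∀ z ∈ sphere (0 : ℂ) 1, B.eval z * g z = C z) →
    (∀ R : Polynomial ℂ, (∮ z in C(0, 1), R.eval z * g z) = 0) →
    ∃ A : ℂ → ℂ, DiffContOnCl ℂ A (ball 0 1) ∧
      (∀ z ∈ closedBall (0 : ℂ) 1, C z = B.eval z * A z) ∧
      ∀ z ∈ sphere (0 : ℂ) 1, g z = A z := by
  intro n
  induction n with
  | zero =>
    intro B hn hB _ C g hC hg _
    have h1 : B = 1 := Polynomial.eq_one_of_monic_natDegree_zero hB hn
    subst h1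
    refine ⟨C, hC, fun z _ => ?_, fun z hz => ?_⟩
    · rw [Polynomial.eval_one, one_mul]
    · rw [← hg z hz, Polynomial.eval_one, one_mul]
  | succ n ih =>
    intro B hn hB hr C g hC hg hR
    have hB0 : B ≠ 0 := hB.ne_zero
    have hdeg : B.degree ≠ 0 := by
      intro h0
      have := Polynomial.natDegree_eq_of_degree_eq_some (n := 0) h0
      omega
    obtain ⟨b, hb⟩ := IsAlgClosed.exists_root B hdeg
    have hbr : ‖b‖ < 1 := hr b (Polynomial.mem_roots'.2 ⟨hB0, hb⟩)
    obtain ⟨B', hB'⟩ := Polynomial.dvd_iff_isRoot.2 hb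
    have hmon : B'.Monic :=
      Polynomial.Monic.of_mul_monic_left (Polynomial.monic_X_sub_C b) (hB' ▸ hB)
    have hn' : B'.natDegree = n := by
      have h1 := (Polynomial.monic_X_sub_C b).natDegree_mul hmon
      rw [← hB', hn, Polynomial.natDegree_X_sub_C] at h1
      omega
    have hr' : ∀ x ∈ B'.roots, ‖x‖ < 1 := by
      intro x hx
      refine hr x (Polynomial.mem_roots'.2 ⟨hB0, ?_⟩)
      have h1 : B'.eval x = 0 := (Polynomial.mem_roots'.1 hx).2
      rw [Polynomial.IsRoot, hB', Polynomial.eval_mul, h1, mul_zero]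
    have hev : ∀ z, B.eval z = (z - b) * B'.eval z := by
      intro z
      rw [hB', Polynomial.eval_mul, Polynomial.eval_sub, Polynomial.eval_X, Polynomial.eval_C]
    have hzb : ∀ z ∈ sphere (0 : ℂ) 1, z - b ≠ 0 := by
      intro z hz h0
      rw [sub_eq_zero] at h0
      rw [mem_sphere_zero_iff_norm, h0] at hz
      exact absurd hz hbr.ne
    have hbb : b ∈ ball (0 : ℂ) 1 := by
      rw [mem_ball_zero_iff]
      exact hbr
    have hCb : C b = 0 := by
      have h1 := hC.circleIntegral_sub_inv_smul hbb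
      have h2 : (∮ z in C(0, 1), (z - b)⁻¹ • C z) = ∮ z in C(0, 1), B'.eval z * g z := by
        refine circleIntegral.integral_congr zero_le_one fun z hz => ?_
        have h3 := hzb z hz
        simp only [smul_eq_mul]
        rw [← hg z hz, hev z]
        field_simp
      rw [h2, hR B'] at h1
      have h4 : (2 * (Real.pi : ℂ) * Complex.I) ≠ 0 := Complex.two_pi_I_ne_zero
      have h5 := h1.symm
      rw [smul_eq_mul] at h5
      exact (mul_eq_zero.1 h5).resolve_left h4
    have hds : ∀ z, C z = (z - b) * dslope C b z := by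
      intro z
      have h1 := sub_smul_dslope C b z
      rw [smul_eq_mul, hCb, sub_zero] at h1
      exact h1.symm
    have hC' : DiffContOnCl ℂ (dslope C b) (ball 0 1) := by
      refine DiffContOnCl.mk_ball ?_ ?_
      · exact (Complex.differentiableOn_dslope (isOpen_ball.mem_nhds hbb)).2 hC.1
      · refine (continuousOn_dslope ?_).2 ⟨hC.continuousOn_ball, ?_⟩
        · exact Filter.mem_of_superset (isOpen_ball.mem_nhds hbb) ball_subset_closedBall
        · exact hC.1.differentiableAt (isOpen_ball.mem_nhds hbb)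
    obtain ⟨A, hA, h1, h2⟩ := ih B' hn' hmon hr' (dslope C b) g hC' (by
      intro z hz
      have h3 := hg z hz
      rw [hev z, hds z, mul_assoc] at h3
      exact mul_left_cancel₀ (hzb z hz) h3) hR
    refine ⟨A, hA, fun z hz => ?_, h2⟩
    rw [hds z, h1 z hz, hev z, mul_assoc]

/-- Row G5. -/
theorem mom (h : SpOne) : SpMom := by
  intro H hmer hcont k q hmom l hl hlc
  obtain ⟨B, hBm, hBr, A, hA, hBA⟩ := h H hmer hcont
  have hHs : ContinuousOn H (sphere (0 : ℂ) 1) := fun z hz => (hcont z hz).continuousWithinAt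
  have hsc : sphere (0 : ℂ) 1 ⊆ closedBall (0 : ℂ) 1 := sphere_subset_closedBall
  set Q : ℂ → ℂ := fun z => ∑ j ∈ Finset.range (k + 1), q j * z ^ j with hQ
  have hQd : Differentiable ℂ Q := by
    rw [hQ]
    fun_prop
  have hint : ∀ j : ℕ, ContinuousOn (fun z : ℂ => z ^ j * H z) (sphere (0 : ℂ) 1) :=
    fun j => (continuous_pow j).continuousOn.mul hHs
  have hmQ : ∀ m : ℕ, (∮ z in C(0, 1), z ^ m * (Q z * H z)) = 0 := by
    intro m
    refine Eq.trans ?_ (hmom m)
    have h1 : ∀ z, z ^ m * (Q z * H z) =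
        ∑ j ∈ Finset.range (k + 1), q j * (z ^ (m + j) * H z) := by
      intro z
      simp only [hQ]
      rw [Finset.sum_mul, Finset.mul_sum]
      refine Finset.sum_congr rfl fun j _ => ?_
      rw [pow_add]
      ring
    rw [circleIntegral.integral_congr zero_le_one (fun z _ => h1 z),
      circleIntegral.integral_fun_sum]
    · exact Finset.sum_congr rfl fun j _ => circleIntegral.integral_const_mul _ _ _ _
    · intro j _
      exact ContinuousOn.circleIntegrable zero_le_one (continuousOn_const.mul (hint _))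
  have hR := Mom_poly (fun z => Q z * H z) (hQd.continuous.continuousOn.mul hHs) hmQ
  have hQA : DiffContOnCl ℂ (fun z => Q z * A z) (ball 0 1) := by
    have h1 := hQd.diffContOnCl (s := ball (0 : ℂ) 1)
    exact h1.smul hA
  obtain ⟨A', hA', h1, h2⟩ := Mom_ind B.natDegree B rfl hBm hBr (fun z => Q z * A z)
    (fun z => Q z * H z) hQA (fun z hz => by
      show B.eval z * (Q z * H z) = Q z * A z
      rw [← hBA z (hsc hz) (hcont z hz)]
      ring) hR
  have hkey : ∀ x ∈ closedBall (0 : ℂ) 1, ContinuousAt H x → B.eval x ≠ 0 →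
      Q x * H x = A' x := by
    intro x hx hxc hxB
    have h3 : Q x * A x = B.eval x * A' x := h1 x hx
    rw [← hBA x hx hxc] at h3
    refine mul_left_cancel₀ hxB ?_
    rw [← h3]
    ring
  have hlcl : l ∈ closedBall (0 : ℂ) 1 := ball_subset_closedBall hl
  have hlim : Q l * H l = A' l := by
    have hball : ∀ᶠ x in 𝓝[≠] l, x ∈ ball (0 : ℂ) 1 :=
      nhdsWithin_le_nhds (isOpen_ball.mem_nhds hl)
    have hBne : ∀ᶠ x in 𝓝[≠] l, B.eval x ≠ 0 := by
      have hfin : (B.roots.toFinset : Set ℂ).Finite := Finset.finite_toSet _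
      have h4 : ∀ᶠ x in 𝓝[≠] l, x ∉ (B.roots.toFinset : Set ℂ) \ {l} := by
        have h5 : ((B.roots.toFinset : Set ℂ) \ {l})ᶜ ∈ 𝓝 l :=
          (hfin.subset sdiff_subset).isClosed.isOpen_compl.mem_nhds (by simp)
        exact nhdsWithin_le_nhds h5
      filter_upwards [h4, self_mem_nhdsWithin] with x hx hxl h0
      refine hx ⟨?_, hxl⟩
      simp only [Finset.mem_coe, Multiset.mem_toFinset]
      exact Polynomial.mem_roots'.2 ⟨hBm.ne_zero, h0⟩
    have hev : ∀ᶠ x in 𝓝[≠] l, Q x * H x = A' x := by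
      filter_upwards [hball, hBne, (hmer l hlcl).eventually_analyticAt] with x hx hxB hxa
      exact hkey x (ball_subset_closedBall hx) hxa.continuousAt hxB
    have h6 : Tendsto (fun x => Q x * H x) (𝓝[≠] l) (𝓝 (Q l * H l)) :=
      ((hQd.continuous.continuousAt).mul hlc).tendsto.mono_left nhdsWithin_le_nhds
    have h7 : Tendsto A' (𝓝[≠] l) (𝓝 (A' l)) :=
      ((hA'.1.differentiableAt (isOpen_ball.mem_nhds hl)).continuousAt).tendsto.mono_left
        nhdsWithin_le_nhds
    exact tendsto_nhds_unique (h6.congr' hev) h7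
  have hcau := hA'.two_pi_i_inv_smul_circleIntegral_sub_inv_smul hl
  rw [smul_eq_mul] at hcau
  show Q l * H l = _
  rw [hlim, ← hcau]
  congr 1
  have hzl : ∀ z ∈ sphere (0 : ℂ) 1, z - l ≠ 0 := by
    intro z hz h0
    rw [sub_eq_zero] at h0
    rw [mem_sphere_zero_iff_norm, h0] at hz
    rw [mem_ball_zero_iff] at hl
    exact absurd hz hl.ne
  have h8 : ∀ z ∈ sphere (0 : ℂ) 1, (z - l)⁻¹ • A' z =
      ∑ j ∈ Finset.range (k + 1), q j * (z ^ j / (z - l) * H z) := by
    intro z hz
    rw [← h2 z hz, smul_eq_mul]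
    simp only [hQ]
    rw [Finset.sum_mul, Finset.mul_sum]
    refine Finset.sum_congr rfl fun j _ => ?_
    have h9 := hzl z hz
    field_simp
  rw [circleIntegral.integral_congr zero_le_one h8, circleIntegral.integral_fun_sum]
  · exact Finset.sum_congr rfl fun j _ => circleIntegral.integral_const_mul _ _ _ _
  · intro j _
    refine ContinuousOn.circleIntegrable zero_le_one (continuousOn_const.mul (ContinuousOn.mul ?_ hHs))
    exact (continuous_pow j).continuousOn.div (continuousOn_id.sub continuousOn_const) hzl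

end Pool.Agent.KO.GA
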