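import Pool.Agent.KO.GA.Spec

/-!
# Project KO, row G11: homogeneous functions are polynomials (helper48)
-/

set_option autoImplicit false
set_option maxHeartbeats 400000

namespace Pool.Agent.KO.GA

open Set Filter Topology Metric

/-- The point with coordinates `1, u, w, x, s`. -/
def polPt (u w x s : ℂ) : Fin 5 → ℂ := ![1, u, w, x, s]

theorem polPt_four (u w x s : ℂ) : polPt u w x s 4 = s := rfl

/-- The constants in the ring of analytic functions. -/
noncomputable def polC (δ : ℝ) : ℂ →+* AnR δ :=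
  (Pi.constRingHom (ball (0 : ℂ) δ) ℂ).codRestrict (AnR δ)
    fun c => ⟨fun _ => c, fun _ _ => analyticAt_const, fun _ => rfl⟩

theorem polC_ev (δ : ℝ) (s : ball (0 : ℂ) δ) : (evR s).comp (polC δ) = RingHom.id ℂ := by
  ext c
  rfl

/-- Growth. -/
theorem pol_growth {δ : ℝ} {d : ℕ} {F : (Fin 5 → ℂ) → ℂ}
    (hF : DifferentiableOn ℂ F {b | ‖b 4‖ < δ})
    (hh : ∀ l : ℂ, ∀ b : Fin 5 → ℂ, ‖b 4‖ < δ → F (act5 l b) = l ^ d * F b) {s : ℂ}
    (hs : ‖s‖ < δ) :
    ∃ C : ℝ, 0 ≤ C ∧ ∀ u w x : ℂ,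
      ‖F (polPt u w x s)‖ ≤ C * ((1 + ‖u‖) * (1 + ‖w‖) * (1 + ‖x‖)) ^ d := by
  have hK : IsCompact (Set.pi univ (fun i : Fin 5 => if i = 4 then ({s} : Set ℂ) else
      closedBall (0 : ℂ) 1)) := by
    refine isCompact_univ_pi fun i => ?_
    split_ifs
    · exact isCompact_singleton
    · exact isCompact_closedBall 0 1
  obtain ⟨C, hC⟩ := hK.exists_bound_of_continuousOn (hF.continuousOn.mono (by
    intro b hb
    have h4 := hb 4 (mem_univ _)
    simp only [if_true, mem_singleton_iff] at h4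
    show ‖b 4‖ < δ
    rw [h4]
    exact hs))
  refine ⟨max C 0, le_max_right _ _, fun u w x => ?_⟩
  set L : ℝ := (1 + ‖u‖) * (1 + ‖w‖) * (1 + ‖x‖) with hL
  have hu := norm_nonneg u
  have hw := norm_nonneg w
  have hx := norm_nonneg x
  have h1 : 1 ≤ (1 + ‖u‖) * (1 + ‖w‖) := by nlinarith
  have hL1 : 1 ≤ L := by nlinarith
  have hLu : ‖u‖ ≤ L := by
    have : ‖u‖ ≤ (1 + ‖u‖) * (1 + ‖w‖) := by nlinarith
    nlinarith
  have hLw : ‖w‖ ≤ L := by
    have : ‖w‖ ≤ (1 + ‖u‖) * (1 + ‖w‖) := by nlinarith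
    nlinarith
  have hLx : ‖x‖ ≤ L := by nlinarith
  have hL0 : 0 < L := by linarith
  have hLc : (L : ℂ) ≠ 0 := by exact_mod_cast hL0.ne'
  have hm : ∀ (k : ℕ) (c : ℂ), 0 < k → ‖c‖ ≤ L → ‖((L : ℂ)⁻¹) ^ k * c‖ ≤ 1 := by
    intro k c hk hc
    rw [norm_mul, norm_pow, norm_inv, Complex.norm_real, Real.norm_of_nonneg hL0.le]
    have h2 : L⁻¹ ^ k ≤ L⁻¹ := by
      have h3 : L⁻¹ ≤ 1 := inv_le_one_of_one_le₀ hL1
      exact pow_le_of_le_one (inv_nonneg.2 hL0.le) h3 hk.ne'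
    calc L⁻¹ ^ k * ‖c‖ ≤ L⁻¹ * L :=
          mul_le_mul h2 hc (norm_nonneg c) (inv_nonneg.2 hL0.le)
      _ = 1 := inv_mul_cancel₀ hL0.ne'
  have hmem : act5 ((L : ℂ)⁻¹) (polPt u w x s) ∈
      Set.pi univ (fun i : Fin 5 => if i = 4 then ({s} : Set ℂ) else closedBall (0 : ℂ) 1) := by
    intro i _
    fin_cases i
    · simp only [act5, w5, polPt]
      simpa using hm 1 1 one_pos (by simpa using hL1)
    · simp only [act5, w5, polPt]
      simpa using hm 5 u (by norm_num) hLu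
    · simp only [act5, w5, polPt]
      simpa using hm 6 w (by norm_num) hLw
    · simp only [act5, w5, polPt]
      simpa using hm 22 x (by norm_num) hLx
    · simp [act5, w5, polPt]
  have h2 := hC _ hmem
  have h3 := hh ((L : ℂ)⁻¹) (polPt u w x s) hs
  have h4 : F (polPt u w x s) = (L : ℂ) ^ d * F (act5 ((L : ℂ)⁻¹) (polPt u w x s)) := by
    rw [h3, ← mul_assoc, ← mul_pow, mul_inv_cancel₀ hLc, one_pow, one_mul]
  rw [h4, norm_mul, norm_pow, Complex.norm_real, Real.norm_of_nonneg hL0.le, mul_comm]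
  exact mul_le_mul_of_nonneg_right (h2.trans (le_max_left _ _)) (pow_nonneg hL0.le d)

theorem pol_diff {δ : ℝ} {F : (Fin 5 → ℂ) → ℂ}
    (hF : DifferentiableOn ℂ F {b | ‖b 4‖ < δ}) (g : ℂ → Fin 5 → ℂ) (hg : Differentiable ℂ g)
    (hd : ∀ z, ‖g z 4‖ < δ) : Differentiable ℂ fun z => F (g z) := by
  have ho : IsOpen {b : Fin 5 → ℂ | ‖b 4‖ < δ} :=
    isOpen_lt (continuous_norm.comp (continuous_apply 4)) continuous_const
  intro z
  exact ((hF.differentiableAt (ho.mem_nhds (hd z))).comp z (hg z))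

theorem pol_pt_diff1 (w x s : ℂ) : Differentiable ℂ fun z => polPt z w x s := by
  rw [differentiable_pi]
  intro i
  fin_cases i <;> simp [polPt]

theorem pol_pt_diff2 (u x s : ℂ) : Differentiable ℂ fun z => polPt u z x s := by
  rw [differentiable_pi]
  intro i
  fin_cases i <;> simp [polPt]

theorem pol_pt_diff3 (u w s : ℂ) : Differentiable ℂ fun z => polPt u w z s := by
  rw [differentiable_pi]
  intro i
  fin_cases i <;> simp [polPt]

theorem pol_pt_diff4 (u w x : ℂ) : Differentiable ℂ fun z => polPt u w x z := by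
  rw [differentiable_pi]
  intro i
  fin_cases i <;> simp [polPt]

theorem pol_interp (h : SpLag) {δ : ℝ} {d : ℕ} {F : (Fin 5 → ℂ) → ℂ}
    (hF : DifferentiableOn ℂ F {b | ‖b 4‖ < δ})
    (hh : ∀ l : ℂ, ∀ b : Fin 5 → ℂ, ‖b 4‖ < δ → F (act5 l b) = l ^ d * F b) {s : ℂ}
    (hs : ‖s‖ < δ) (u w x : ℂ) :
    F (polPt u w x s) = ∑ i ∈ Finset.range (d + 1), ∑ j ∈ Finset.range (d + 1),
      ∑ k ∈ Finset.range (d + 1),
      (Lagrange.basis (Finset.range (d + 1)) (fun i : ℕ => (i : ℂ)) i).eval u *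
      (Lagrange.basis (Finset.range (d + 1)) (fun i : ℕ => (i : ℂ)) j).eval w *
      (Lagrange.basis (Finset.range (d + 1)) (fun i : ℕ => (i : ℂ)) k).eval x *
      F (polPt i j k s) := by
  obtain ⟨C, hC0, hC⟩ := pol_growth hF hh hs
  have e1 : ∀ u w x : ℂ, F (polPt u w x s) = ∑ i ∈ Finset.range (d + 1),
      (Lagrange.basis (Finset.range (d + 1)) (fun i : ℕ => (i : ℂ)) i).eval u *
      F (polPt i w x s) := by
    intro u w x
    refine h d (fun z => F (polPt z w x s)) (C * ((1 + ‖w‖) * (1 + ‖x‖)) ^ d)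
      (pol_diff hF _ (pol_pt_diff1 w x s) fun z => hs) (fun z => ?_) u
    refine (hC z w x).trans (le_of_eq ?_)
    rw [mul_assoc, mul_assoc, mul_comm (1 + ‖z‖), mul_pow]
  have e2 : ∀ u w x : ℂ, F (polPt u w x s) = ∑ i ∈ Finset.range (d + 1),
      (Lagrange.basis (Finset.range (d + 1)) (fun i : ℕ => (i : ℂ)) i).eval w *
      F (polPt u i x s) := by
    intro u w x
    refine h d (fun z => F (polPt u z x s)) (C * ((1 + ‖u‖) * (1 + ‖x‖)) ^ d)
      (pol_diff hF _ (pol_pt_diff2 u x s) fun z => hs) (fun z => ?_) w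
    refine (hC u z x).trans (le_of_eq ?_)
    rw [mul_right_comm (1 + ‖u‖), mul_pow ((1 + ‖u‖) * (1 + ‖x‖)), mul_assoc]
  have e3 : ∀ u w x : ℂ, F (polPt u w x s) = ∑ i ∈ Finset.range (d + 1),
      (Lagrange.basis (Finset.range (d + 1)) (fun i : ℕ => (i : ℂ)) i).eval x *
      F (polPt u w i s) := by
    intro u w x
    refine h d (fun z => F (polPt u w z s)) (C * ((1 + ‖u‖) * (1 + ‖w‖)) ^ d)
      (pol_diff hF _ (pol_pt_diff3 u w s) fun z => hs) (fun z => ?_) x
    refine (hC u w z).trans (le_of_eq ?_)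
    rw [mul_pow ((1 + ‖u‖) * (1 + ‖w‖)), mul_assoc]
  rw [e1 u w x]
  refine Finset.sum_congr rfl fun i _ => ?_
  rw [e2 (i : ℂ) w x, Finset.mul_sum]
  refine Finset.sum_congr rfl fun j _ => ?_
  rw [e3 (i : ℂ) (j : ℂ) x, Finset.mul_sum, Finset.mul_sum]
  refine Finset.sum_congr rfl fun k _ => ?_
  ring

theorem pol (h : SpLag) : SpPol := by
  intro δ d F hδ hF hh
  have ha : ∀ u w x : ℂ, ∃ a : AnR δ, ∀ s : ball (0 : ℂ) δ, evR s a = F (polPt u w x s) := by
    intro u w x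
    refine ⟨⟨fun s => F (polPt u w x s), fun s => F (polPt u w x s), ?_, fun _ => rfl⟩,
      fun s => rfl⟩
    refine DifferentiableOn.analyticOnNhd ?_ isOpen_ball
    intro s hs
    have ho : IsOpen {b : Fin 5 → ℂ | ‖b 4‖ < δ} :=
      isOpen_lt (continuous_norm.comp (continuous_apply 4)) continuous_const
    have hs' : ‖s‖ < δ := by simpa using hs
    have h1 : DifferentiableAt ℂ F (polPt u w x s) := hF.differentiableAt (ho.mem_nhds hs')
    exact (h1.comp s (pol_pt_diff4 u w x s)).differentiableWithinAt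
  choose a ha using ha
  refine ⟨∑ i ∈ Finset.range (d + 1), ∑ j ∈ Finset.range (d + 1), ∑ k ∈ Finset.range (d + 1),
    (Lagrange.basis (Finset.range (d + 1)) (fun i : ℕ => (i : ℂ)) i).eval₂
      (MvPolynomial.C.comp (polC δ)) (MvPolynomial.X 0) *
    (Lagrange.basis (Finset.range (d + 1)) (fun i : ℕ => (i : ℂ)) j).eval₂
      (MvPolynomial.C.comp (polC δ)) (MvPolynomial.X 1) *
    (Lagrange.basis (Finset.range (d + 1)) (fun i : ℕ => (i : ℂ)) k).eval₂
      (MvPolynomial.C.comp (polC δ)) (MvPolynomial.X 2) *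
    MvPolynomial.C (a i j k), ?_⟩
  intro s u w x y
  have key : ∀ (p : Polynomial ℂ) (i : Fin 4), MvPolynomial.eval₂ (evR s) ![u, w, x, y]
      (p.eval₂ (MvPolynomial.C.comp (polC δ)) (MvPolynomial.X i)) =
      p.eval (![u, w, x, y] i) := by
    intro p i
    have h1 := Polynomial.hom_eval₂ p (MvPolynomial.C.comp (polC δ))
      (MvPolynomial.eval₂Hom (evR s) ![u, w, x, y]) (MvPolynomial.X i)
    have h2 : ((MvPolynomial.eval₂Hom (evR s) ![u, w, x, y]).comp
        (MvPolynomial.C.comp (polC δ))) = RingHom.id ℂ := by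
      rw [← RingHom.comp_assoc]
      have h3 : (MvPolynomial.eval₂Hom (evR s) ![u, w, x, y]).comp MvPolynomial.C = evR s := by
        ext c
        simp
      rw [h3, polC_ev]
    rw [h2] at h1
    rw [MvPolynomial.coe_eval₂Hom, MvPolynomial.eval₂_X] at h1
    rw [h1]
    rfl
  have hs' : ‖(s : ℂ)‖ < δ := mem_ball_zero_iff.1 s.2
  show _ = F (polPt u w x s)
  rw [pol_interp h hF hh hs' u w x]
  rw [← MvPolynomial.coe_eval₂Hom, map_sum]
  refine Finset.sum_congr rfl fun i _ => ?_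
  rw [map_sum]
  refine Finset.sum_congr rfl fun j _ => ?_
  rw [map_sum]
  refine Finset.sum_congr rfl fun k _ => ?_
  rw [map_mul, map_mul, map_mul]
  rw [MvPolynomial.coe_eval₂Hom, key, key, key, MvPolynomial.eval₂_C, ha]
  rfl

end Pool.Agent.KO.GA
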