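import Pool.Agent.KO.GA.Spec

/-!
# Project KO, block G: row G14, the root near a point that is not a branch point
-/

set_option autoImplicit false
set_option maxHeartbeats 400000

namespace Pool.Agent.KO.GA

open Set Filter Topology Metric

/-- The function `cc` is differentiable. -/
theorem root_cc_diff : Differentiable ℂ cc := by
  unfold cc
  fun_prop

/-- The map `(b, y) ↦ up b y` is continuous. -/
theorem root_up_cont {f : (Fin 5 → ℂ) → ℂ} {b₀ : Fin 5 → ℂ} (hf : ContinuousAt f b₀) :
    ContinuousAt (fun b => up b (f b)) b₀ := by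
  unfold up
  rw [continuousAt_pi]
  intro i
  fin_cases i <;> simp <;> first | exact hf | exact (continuous_apply _).continuousAt

/-- Row G14. -/
theorem root : SpRoot := by
  intro V₁ V₂ b₀ y₀ hV₁ hV₂ hy hy0 h1 h2
  have hc0 : cc b₀ ≠ 0 := by
    rw [← hy]
    exact pow_ne_zero 2 hy0
  have hcc : ContinuousAt (fun b => cc b / cc b₀) b₀ :=
    (root_cc_diff.continuous.continuousAt).div_const _
  have hone : cc b₀ / cc b₀ = 1 := div_self hc0
  set Y : (Fin 5 → ℂ) → ℂ := fun b => y₀ * Complex.exp (Complex.log (cc b / cc b₀) / 2) with hY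
  have hslit : ∀ᶠ b in 𝓝 b₀, cc b / cc b₀ ∈ Complex.slitPlane := by
    apply hcc.eventually
    apply Complex.isOpen_slitPlane.mem_nhds
    change cc b₀ / cc b₀ ∈ Complex.slitPlane
    rw [hone]
    exact Complex.one_mem_slitPlane
  have hdiff : ∀ b, cc b / cc b₀ ∈ Complex.slitPlane → DifferentiableAt ℂ Y b := by
    intro b hb
    have hd : DifferentiableAt ℂ (fun b => cc b / cc b₀) b := by
      have h := (root_cc_diff b).mul_const (cc b₀)⁻¹
      simpa only [div_eq_mul_inv] using h
    have hl : DifferentiableAt ℂ (fun b => Complex.log (cc b / cc b₀) / 2) b := by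
      have h := (hd.clog hb).mul_const (2 : ℂ)⁻¹
      simpa only [div_eq_mul_inv] using h
    exact (hl.cexp).const_mul y₀
  have hY0 : Y b₀ = y₀ := by
    simp [hY, hone]
  have hcont : ContinuousAt Y b₀ := by
    apply (hdiff b₀ _).continuousAt
    rw [hone]
    exact Complex.one_mem_slitPlane
  have hu1 : ∀ᶠ b in 𝓝 b₀, up b (Y b) ∈ V₁ := by
    apply (root_up_cont hcont).eventually
    apply hV₁.mem_nhds
    change up b₀ (Y b₀) ∈ V₁
    rw [hY0]
    exact h1
  have hu2 : ∀ᶠ b in 𝓝 b₀, up b (-Y b) ∈ V₂ := by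
    apply (root_up_cont hcont.neg).eventually
    apply hV₂.mem_nhds
    change up b₀ (-Y b₀) ∈ V₂
    rw [hY0]
    exact h2
  obtain ⟨ε, hε, hall⟩ := Metric.eventually_nhds_iff_ball.mp (hslit.and (hu1.and hu2))
  refine ⟨ε, hε, Y, ?_, ?_⟩
  · intro b hb
    exact (hdiff b (hall b hb).1).differentiableWithinAt
  · intro b hb
    obtain ⟨hs, ha1, ha2⟩ := hall b hb
    have hne : cc b / cc b₀ ≠ 0 := Complex.slitPlane_ne_zero hs
    refine ⟨?_, mul_ne_zero hy0 (Complex.exp_ne_zero _), ha1, ha2⟩
    have hexp : Complex.exp (Complex.log (cc b / cc b₀) / 2) ^ 2 = cc b / cc b₀ := by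
      rw [← Complex.exp_nat_mul]
      rw [show ((2 : ℕ) : ℂ) * (Complex.log (cc b / cc b₀) / 2) = Complex.log (cc b / cc b₀) by
        push_cast
        ring]
      exact Complex.exp_log hne
    rw [hY]
    simp only []
    rw [mul_pow, hexp, hy]
    field_simp

end Pool.Agent.KO.GA
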