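import Pool.Agent.KO.GA.Spec
import Pool.Agent.H86.Lang.SCV

/-!
# Project KO, block G, row G1: integrals with parameters (helper79)
-/

set_option autoImplicit false
set_option maxHeartbeats 400000

namespace Pool.Agent.KO.GA

open Set Filter Topology Metric MeasureTheory

theorem T_diff {n : ℕ} {f : (Fin n → ℂ) → ℂ} {V : Set (Fin n → ℂ)}
    (hV : IsOpen V) (hf : DifferentiableOn ℂ f V) {g : ℂ → Fin n → ℂ} {u₀ : Fin n → ℂ} {s : ℝ}
    (hs : 0 < s) (hg : ContinuousOn g (sphere 0 s))
    (h : ∀ z ∈ sphere (0 : ℂ) s, u₀ + g z ∈ V) {c : ℂ → ℂ} (hc : ContinuousOn c (sphere 0 s)) :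
    DifferentiableAt ℂ (fun u => ∮ z in C(0, s), c z * f (u + g z)) u₀ := by
  set K : Set (Fin n → ℂ) := (fun z : ℂ => u₀ + g z) '' sphere (0 : ℂ) s with hK
  have hKc : IsCompact K := (isCompact_sphere _ _).image_of_continuousOn
    (continuousOn_const.add hg)
  have hKV : K ⊆ V := by
    rintro _ ⟨z, hz, rfl⟩
    exact h z hz
  obtain ⟨δ, hδ, hδV⟩ := hKc.exists_cthickening_subset_open hV hKV
  have hcomp : IsCompact (cthickening δ K) := hKc.cthickening
  obtain ⟨C, hC⟩ := hcomp.exists_bound_of_continuousOn (hf.continuousOn.mono hδV)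
  have hball : ∀ x ∈ ball u₀ (δ / 2), ∀ z ∈ sphere (0 : ℂ) s,
      ball (x + g z) (δ / 2) ⊆ cthickening δ K := by
    intro x hx z hz v hv
    refine mem_cthickening_of_dist_le v (u₀ + g z) δ K ⟨z, hz, rfl⟩ ?_
    have h1 : dist v (x + g z) < δ / 2 := hv
    have h2 : dist (x + g z) (u₀ + g z) < δ / 2 := by
      rw [dist_add_right]
      exact hx
    have h3 := dist_triangle v (x + g z) (u₀ + g z)
    linarith
  have hdiff : ∀ x ∈ ball u₀ (δ / 2), ∀ z ∈ sphere (0 : ℂ) s, DifferentiableAt ℂ f (x + g z) :=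
    fun x hx z hz => (hf _ (hδV (hball x hx z hz (mem_ball_self (by positivity))))).differentiableAt
      (hV.mem_nhds (hδV (hball x hx z hz (mem_ball_self (by positivity)))))
  have hfd : ∀ x ∈ ball u₀ (δ / 2), ∀ z ∈ sphere (0 : ℂ) s,
      ‖fderiv ℂ f (x + g z)‖ ≤ 2 * C / (δ / 2) := by
    intro x hx z hz
    refine Pool.Agent.H86.Lang.norm_fderiv_le' (by positivity) (fun u hu => ?_)
      (fun u hu => hC u (hball x hx z hz hu))
    exact (hf _ (hδV (hball x hx z hz hu))).differentiableAt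
      (hV.mem_nhds (hδV (hball x hx z hz hu)))
  have hsph : ∀ θ : ℝ, circleMap 0 s θ ∈ sphere (0 : ℂ) s := fun θ =>
    circleMap_mem_sphere _ hs.le θ
  have hcc : Continuous fun θ : ℝ => c (circleMap 0 s θ) :=
    hc.comp_continuous (continuous_circleMap 0 s) hsph
  have hgc : Continuous fun θ : ℝ => g (circleMap 0 s θ) :=
    hg.comp_continuous (continuous_circleMap 0 s) hsph
  have hdc : Continuous fun θ : ℝ => deriv (circleMap 0 s) θ := by
    simp only [deriv_circleMap]
    fun_prop
  have hpath : ∀ x : Fin n → ℂ, Continuous fun θ : ℝ => x + g (circleMap 0 s θ) := fun x =>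
    continuous_const.add hgc
  have hfc : ∀ x ∈ ball u₀ (δ / 2), Continuous fun θ : ℝ => f (x + g (circleMap 0 s θ)) := by
    intro x hx
    refine hf.continuousOn.comp_continuous (hpath x) fun θ => ?_
    exact hδV (hball x hx _ (hsph θ) (mem_ball_self (by positivity)))
  obtain ⟨Cc, hCc⟩ := (isCompact_sphere (0 : ℂ) s).exists_bound_of_continuousOn hc
  have hu₀ : u₀ ∈ ball u₀ (δ / 2) := mem_ball_self (by positivity)
  have hmain := intervalIntegral.hasFDerivAt_integral_of_dominated_of_fderiv_le (𝕜 := ℂ)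
    (μ := volume) (a := 0) (b := 2 * Real.pi) (s := ball u₀ (δ / 2)) (x₀ := u₀)
    (bound := fun _ => s * Cc * (2 * C / (δ / 2)))
    (F := fun x θ => deriv (circleMap 0 s) θ • (c (circleMap 0 s θ) *
      f (x + g (circleMap 0 s θ))))
    (F' := fun x θ => (deriv (circleMap 0 s) θ * c (circleMap 0 s θ)) •
      fderiv ℂ f (x + g (circleMap 0 s θ)))
    (ball_mem_nhds _ (by positivity)) ?_ ?_ ?_ ?_ ?_ ?_
  · exact hmain.differentiableAt
  · filter_upwards [ball_mem_nhds u₀ (show 0 < δ / 2 by positivity)] with x hx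
    exact (hdc.smul (hcc.mul (hfc x hx))).aestronglyMeasurable
  · exact (hdc.smul (hcc.mul (hfc u₀ hu₀))).intervalIntegrable _ _
  · have h1 : Measurable fun θ : ℝ => fderiv ℂ f (u₀ + g (circleMap 0 s θ)) :=
      (measurable_fderiv ℂ f).comp (hpath u₀).measurable
    exact ((hdc.mul hcc).aestronglyMeasurable).smul h1.aestronglyMeasurable
  · refine Eventually.of_forall fun θ _ x hx => ?_
    rw [norm_smul, norm_mul]
    have h1 : ‖deriv (circleMap 0 s) θ‖ = s := by
      rw [deriv_circleMap, norm_mul, Complex.norm_I, mul_one, norm_circleMap_zero, abs_of_pos hs]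
    rw [h1]
    have h2 := hCc _ (hsph θ)
    have h3 := hfd x hx _ (hsph θ)
    have h4 : 0 ≤ Cc := (norm_nonneg _).trans h2
    gcongr
  · exact intervalIntegrable_const
  · refine Eventually.of_forall fun θ _ x hx => ?_
    have h1 : HasFDerivAt (fun x => f (x + g (circleMap 0 s θ)))
        (fderiv ℂ f (x + g (circleMap 0 s θ))) x := by
      have h2 := (hdiff x hx _ (hsph θ)).hasFDerivAt
      have h3 := h2.comp x ((hasFDerivAt_id x).add_const (g (circleMap 0 s θ)))
      rwa [ContinuousLinearMap.comp_id] at h3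
    have h2 := (h1.const_mul (c (circleMap 0 s θ))).const_smul (deriv (circleMap 0 s) θ)
    rwa [smul_smul] at h2

theorem t : SpT := by
  intro n f V W g c s hs hV hf hg hc _ h v hv
  exact (T_diff hV hf hs hg (h v hv) hc).differentiableWithinAt

end Pool.Agent.KO.GA
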