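import Pool.Agent.KO.GA.Spec

/-!
# Project KO, row G16: the traces are meromorphic
-/

set_option autoImplicit false
set_option maxHeartbeats 400000

namespace Pool.Agent.KO.GA

open Set Filter Topology Metric

/-- The square of the chosen root. -/
theorem tr_sq (b : Fin 5 → ℂ) : sq b ^ 2 = cc b := by
  have h := Complex.cpow_nat_inv_pow (cc b) (n := 2) two_ne_zero
  unfold sq
  rw [one_div]
  exact_mod_cast h

/-- The equation of the cover is differentiable on the base. -/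
theorem tr_cc : Differentiable ℂ cc := by
  have h : ∀ i : Fin 5, Differentiable ℂ (fun b : Fin 5 → ℂ => b i) :=
    fun i => differentiable_apply i
  unfold cc
  exact (((((h 0).pow 66).add (((h 0).pow 12).mul ((h 2).pow 9))).sub ((h 3).pow 3)).sub
    ((h 4).mul ((h 2).pow 11))).sub (((h 1).mul (h 0)).mul ((h 2).pow 10)) |>.sub
    (((h 1).pow 12).mul (h 2))

/-- Row G16. -/
theorem tr (h : SpLift) : SpTr := by
  intro r D f hf b₀ hb₀
  obtain ⟨ε, hε, A0, B0, A1, B1, dA0, dB0, dA1, dB1, hN, hE⟩ := h r D f hf b₀ hb₀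
  have dcc : DifferentiableOn ℂ cc (ball b₀ ε) := tr_cc.differentiableOn
  have dN : DifferentiableOn ℂ (fun b => A0 b ^ 2 - cc b * B0 b ^ 2) (ball b₀ ε) :=
    (dA0.pow 2).sub (dcc.mul (dB0.pow 2))
  have key : ∀ x ∈ ball b₀ ε, x ∈ Dp r D → sq x ≠ 0 ∧
      (A0 x + sq x * B0 x) * f (up x (sq x)) = A1 x + sq x * B1 x ∧
      (A0 x - sq x * B0 x) * f (up x (-sq x)) = A1 x - sq x * B1 x := by
    intro x hx hD
    have h2 := tr_sq x
    have h0 : sq x ≠ 0 := by
      intro h0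
      rw [h0] at h2
      exact hD.2.1 (by rw [← h2]; ring)
    have hm : (-sq x) ^ 2 = cc x := by rw [← h2]; ring
    refine ⟨h0, hE x hx _ h2 (hD.2.2 _ h2), ?_⟩
    have := hE x hx _ hm (hD.2.2 _ hm)
    linear_combination this
  refine ⟨⟨ε, hε, fun b => A0 b ^ 2 - cc b * B0 b ^ 2, fun b => A0 b * A1 b - cc b * (B0 b * B1 b),
    dN, (dA0.mul dA1).sub (dcc.mul (dB0.mul dB1)), hN, ?_⟩,
    ⟨ε, hε, fun b => A0 b ^ 2 - cc b * B0 b ^ 2, fun b => A0 b * B1 b - B0 b * A1 b,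
    dN, (dA0.mul dB1).sub (dB0.mul dA1), hN, ?_⟩⟩
  · intro x hx hD
    obtain ⟨-, hp, hm⟩ := key x hx hD
    have h2 := tr_sq x
    simp only [f0]
    rw [← h2]
    linear_combination (A0 x - sq x * B0 x) / 2 * hp + (A0 x + sq x * B0 x) / 2 * hm
  · intro x hx hD
    obtain ⟨h0, hp, hm⟩ := key x hx hD
    have h2 := tr_sq x
    simp only [f1]
    rw [← h2, mul_div_assoc', div_eq_iff (mul_ne_zero two_ne_zero h0)]
    linear_combination (A0 x - sq x * B0 x) * hp - (A0 x + sq x * B0 x) * hm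

end Pool.Agent.KO.GA
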