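import Pool.Agent.KO.GA.Baire
import Pool.Agent.KO.GA.BaseT
import Pool.Agent.KO.GA.Circ
import Pool.Agent.KO.GA.Dense
import Pool.Agent.KO.GA.Div
import Pool.Agent.KO.GA.DpH
import Pool.Agent.KO.GA.DpT
import Pool.Agent.KO.GA.Ext
import Pool.Agent.KO.GA.ExtHom
import Pool.Agent.KO.GA.Gen
import Pool.Agent.KO.GA.Hom
import Pool.Agent.KO.GA.Kron
import Pool.Agent.KO.GA.Lag
import Pool.Agent.KO.GA.Levi
import Pool.Agent.KO.GA.Lift
import Pool.Agent.KO.GA.Main
import Pool.Agent.KO.GA.Mom
import Pool.Agent.KO.GA.One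
import Pool.Agent.KO.GA.Pol
import Pool.Agent.KO.GA.Root
import Pool.Agent.KO.GA.T
import Pool.Agent.KO.GA.Tr

/-!
# Project KO, block G: the main theorem
-/

set_option autoImplicit false

namespace Pool.Agent.KO.GA

/-- **The main theorem of block G.** -/
theorem gMain : GMain :=
  main_of (tr (lift (div_spec t) root)) dpT dpH ext_spec extHom
    (baseT (circ gen) (levi t gen (kron one) (mom one) baire) hom) (pol lag) (dense_spec dpT)

end Pool.Agent.KO.GA
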