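import Pool.Agent.KO.GA.Spec
import Pool.Agent.H86.Lang.Ext

/-!
# Project KO, row G6: the recurrence can be chosen holomorphic in the parameter
-/

set_option autoImplicit false
set_option maxHeartbeats 400000

namespace Pool.Agent.KO.GA

open Set Filter Topology Metric

/-- The matrix of a minor. -/
def baireMat {n : ℕ} (a : ℕ → (Fin n → ℂ) → ℂ) {k l : ℕ} (m : Fin k → ℕ) (c : Fin l → ℕ)
    (v : Fin n → ℂ) : Matrix (Fin k) (Fin l) ℂ := fun i j => a (m i + c j) v

lemma baire_prod {n : ℕ} {U : Set (Fin n → ℂ)} {ι : Type*} (s : Finset ι)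
    {f : ι → (Fin n → ℂ) → ℂ} (hf : ∀ i, DifferentiableOn ℂ (f i) U) :
    DifferentiableOn ℂ (fun v => ∏ i ∈ s, f i v) U := by
  classical
  induction s using Finset.induction_on with
  | empty => simp
  | insert i s hi ih =>
    simp only [Finset.prod_insert hi]
    exact (hf i).mul ih

lemma baire_diff {n : ℕ} {a : ℕ → (Fin n → ℂ) → ℂ} {U : Set (Fin n → ℂ)}
    (ha : ∀ i, DifferentiableOn ℂ (a i) U) {k : ℕ} (m c : Fin k → ℕ) :
    DifferentiableOn ℂ (fun v => (baireMat a m c v).det) U := by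
  simp only [Matrix.det_apply, baireMat]
  refine DifferentiableOn.fun_sum fun σ _ => ?_
  refine DifferentiableOn.const_smul ?_ _
  exact baire_prod _ fun i => ha (m (σ i) + c i)

/-- The set where the minors of size `k + 1` vanish. -/
def baireR {n : ℕ} (a : ℕ → (Fin n → ℂ) → ℂ) (k : ℕ) : Set (Fin n → ℂ) :=
  {v | ∀ m : Fin (k + 1) → ℕ, (baireMat a m (fun j : Fin (k + 1) => (j : ℕ)) v).det = 0}

lemma baire_ker {n : ℕ} (a : ℕ → (Fin n → ℂ) → ℂ) (v : Fin n → ℂ) (k : ℕ) (B : ℕ → ℂ)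
    (hB : B k = 1) (h : ∀ m, ∑ j ∈ Finset.range (k + 1), B j * a (m + j) v = 0) :
    v ∈ baireR a k := by
  intro m
  rw [← Matrix.exists_mulVec_eq_zero_iff]
  refine ⟨fun j => B j, fun h0 => ?_, ?_⟩
  · have := congrFun h0 (Fin.last k)
    simp [hB] at this
  · funext i
    have h1 := h (m i)
    rw [Finset.sum_range] at h1
    simp only [Matrix.mulVec, dotProduct, baireMat, Pi.zero_apply]
    rw [← h1]
    exact Finset.sum_congr rfl fun j _ => mul_comm _ _

lemma baire_closed {n : ℕ} {δ : ℝ} (hδ : 0 < δ) {a : ℕ → (Fin n → ℂ) → ℂ}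
    (ha : ∀ i, DifferentiableOn ℂ (a i) (ball 0 δ)) (k : ℕ) :
    IsClosed (baireR a k ∩ closedBall 0 (δ / 2)) := by
  have hsub : closedBall (0 : Fin n → ℂ) (δ / 2) ⊆ ball 0 δ :=
    closedBall_subset_ball (by linarith)
  have h1 : baireR a k ∩ closedBall 0 (δ / 2) =
      ⋂ m : Fin (k + 1) → ℕ, closedBall (0 : Fin n → ℂ) (δ / 2) ∩
        (fun v => (baireMat a m (fun j : Fin (k + 1) => (j : ℕ)) v).det) ⁻¹' {0} := by
    ext v
    simp only [baireR, mem_inter_iff, mem_ofPred_eq, mem_iInter, mem_preimage, mem_singleton_iff]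
    exact ⟨fun h m => ⟨h.2, h.1 m⟩, fun h => ⟨fun m => (h m).2, (h 0).1⟩⟩
  rw [h1]
  refine isClosed_iInter fun m => ?_
  exact ((baire_diff ha m _).continuousOn.mono hsub).preimage_isClosed_of_isClosed
    isClosed_closedBall isClosed_singleton

/-- Some set of vanishing minors has an interior point. -/
lemma baire_interior {n : ℕ} {δ : ℝ} (hδ : 0 < δ) {a : ℕ → (Fin n → ℂ) → ℂ}
    (ha : ∀ i, DifferentiableOn ℂ (a i) (ball 0 δ))
    (h : ∀ᶠ v in residual (Fin n → ℂ), v ∈ ball (0 : Fin n → ℂ) δ →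
      ∃ (k : ℕ) (B : ℕ → ℂ), B k = 1 ∧
        ∀ m, ∑ j ∈ Finset.range (k + 1), B j * a (m + j) v = 0) :
    ∃ k : ℕ, (interior (baireR a k ∩ closedBall 0 (δ / 2))).Nonempty := by
  by_contra hno
  push Not at hno
  have h1 : ∀ᶠ v in residual (Fin n → ℂ), ∀ k, v ∉ baireR a k ∩ closedBall 0 (δ / 2) := by
    rw [eventually_countable_forall]
    intro k
    apply residual_of_dense_open (baire_closed hδ ha k).isOpen_compl
    rw [← interior_eq_empty_iff_dense_compl]
    exact hno k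
  have h2 : Dense {v : Fin n → ℂ | (v ∈ ball (0 : Fin n → ℂ) δ →
      ∃ (k : ℕ) (B : ℕ → ℂ), B k = 1 ∧
        ∀ m, ∑ j ∈ Finset.range (k + 1), B j * a (m + j) v = 0) ∧
      ∀ k, v ∉ baireR a k ∩ closedBall 0 (δ / 2)} := dense_of_mem_residual (h.and h1)
  obtain ⟨v, ⟨hv1, hv2⟩, hv⟩ := h2.exists_mem_open (isOpen_ball (x := (0 : Fin n → ℂ))
    (ε := δ / 2)) ⟨0, mem_ball_self (by linarith)⟩
  obtain ⟨k, B, hB, hB'⟩ := hv1 (ball_subset_ball (by linarith) hv)
  exact hv2 k ⟨baire_ker a v k B hB hB', ball_subset_closedBall hv⟩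

/-- The coefficients: the minors with one column left out. -/
noncomputable def baireQ {n : ℕ} (a : ℕ → (Fin n → ℂ) → ℂ) {k : ℕ} (m : Fin k → ℕ) (j : ℕ)
    (v : Fin n → ℂ) : ℂ :=
  if h : j < k + 1 then
    (-1) ^ (k + j) *
      (baireMat a m (fun l : Fin k => ((Fin.succAbove (⟨j, h⟩ : Fin (k + 1)) l : Fin (k + 1)) : ℕ))
        v).det
  else 0

lemma baire_expand {n : ℕ} (a : ℕ → (Fin n → ℂ) → ℂ) {k : ℕ} (m : Fin k → ℕ) (m₀ : ℕ)
    (v : Fin n → ℂ) :
    ∑ j ∈ Finset.range (k + 1), baireQ a m j v * a (m₀ + j) v =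
      (baireMat a (Fin.snoc m m₀ : Fin (k + 1) → ℕ) (fun j : Fin (k + 1) => (j : ℕ)) v).det := by
  rw [Matrix.det_succ_row _ (Fin.last k), Finset.sum_range]
  refine Finset.sum_congr rfl fun j _ => ?_
  have h1 : baireMat a (Fin.snoc m m₀ : Fin (k + 1) → ℕ) (fun j : Fin (k + 1) => (j : ℕ)) v
      (Fin.last k) j = a (m₀ + j) v := by
    simp only [baireMat, Fin.snoc_last]
  have h2 : (baireMat a (Fin.snoc m m₀ : Fin (k + 1) → ℕ)
      (fun j : Fin (k + 1) => (j : ℕ)) v).submatrix (Fin.last k).succAbove j.succAbove =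
        baireMat a m (fun l : Fin k => ((Fin.succAbove j l : Fin (k + 1)) : ℕ)) v := by
    ext i l
    simp only [Matrix.submatrix_apply, baireMat, Fin.succAbove_last, Fin.snoc_castSucc]
  rw [h1, h2, baireQ, dif_pos j.2]
  simp only [Fin.val_last, Fin.eta]
  ring

lemma baire_last {n : ℕ} (a : ℕ → (Fin n → ℂ) → ℂ) {k : ℕ} (m : Fin k → ℕ) (v : Fin n → ℂ) :
    baireQ a m k v = (baireMat a m (fun j : Fin k => (j : ℕ)) v).det := by
  have h1 : (⟨k, Nat.lt_succ_self k⟩ : Fin (k + 1)) = Fin.last k := rfl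
  rw [baireQ, dif_pos (Nat.lt_succ_self k), h1, Fin.succAbove_last, ← two_mul,
    pow_mul, neg_one_sq, one_pow, one_mul]
  rfl

/-- Row G6. -/
theorem baire : SpBaire := by
  classical
  intro n δ a hδ ha h
  obtain ⟨k₀, u, hu⟩ := baire_interior hδ ha h
  have huB : u ∈ ball (0 : Fin n → ℂ) δ :=
    closedBall_subset_ball (by linarith) (interior_subset hu).2
  have hex : ∃ k : ℕ, ∀ v ∈ ball (0 : Fin n → ℂ) δ, v ∈ baireR a k := by
    refine ⟨k₀, fun v hv m => ?_⟩
    refine Pool.Agent.H86.Lang.eqOn_zero_ball (baire_diff ha m _) huB ?_ v hv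
    filter_upwards [isOpen_interior.mem_nhds hu] with x hx
    exact (interior_subset hx).1 m
  have hfind := Nat.find_spec hex
  have hmin : ∃ m : Fin (Nat.find hex) → ℕ, ∃ v ∈ ball (0 : Fin n → ℂ) δ,
      (baireMat a m (fun j : Fin (Nat.find hex) => (j : ℕ)) v).det ≠ 0 := by
    rcases Nat.eq_zero_or_pos (Nat.find hex) with h0 | h0
    · have : IsEmpty (Fin (Nat.find hex)) := by
        rw [h0]; infer_instance
      exact ⟨fun _ => 0, 0, mem_ball_self hδ, by
        rw [Matrix.det_isEmpty]; exact one_ne_zero⟩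
    · obtain ⟨k, hk⟩ := Nat.exists_eq_succ_of_ne_zero h0.ne'
      have h1 := Nat.find_min hex (m := k) (by omega)
      push Not at h1
      obtain ⟨v, hv, hv'⟩ := h1
      simp only [baireR, mem_ofPred_eq, not_forall] at hv'
      obtain ⟨m, hm⟩ := hv'
      rw [hk]
      exact ⟨m, v, hv, hm⟩
  obtain ⟨m, v₁, hv₁, hm⟩ := hmin
  refine ⟨Nat.find hex, baireQ a m, fun j => ?_, ⟨v₁, hv₁, ?_⟩, fun v hv m₀ => ?_⟩
  · by_cases hj : j < Nat.find hex + 1
    · have h1 : baireQ a m j = fun v => (-1) ^ (Nat.find hex + j) *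
          (baireMat a m (fun l => ((Fin.succAbove (⟨j, hj⟩ : Fin (Nat.find hex + 1)) l :
            Fin (Nat.find hex + 1)) : ℕ)) v).det := by
        funext v
        rw [baireQ, dif_pos hj]
      rw [h1]
      exact (baire_diff ha m _).const_mul _
    · have h1 : baireQ a m j = fun _ => 0 := by
        funext v
        rw [baireQ, dif_neg hj]
      rw [h1]
      exact differentiableOn_const 0
  · rw [baire_last]
    exact hm
  · rw [baire_expand]
    exact hfind v hv _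

end Pool.Agent.KO.GA
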