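import Pool.Agent.KO.GA.Spec

/-!
# Project KO, block G, row G3: clearing the poles in the closed unit disc
-/

set_option autoImplicit false
set_option maxHeartbeats 400000

namespace Pool.Agent.KO.GA

open Set Filter Topology Metric

theorem One_loc (H : ℂ → ℂ) (hm : ∀ l ∈ closedBall (0 : ℂ) 1, MeromorphicAt H l)
    (hc : ∀ l ∈ sphere (0 : ℂ) 1, ContinuousAt H l) (l : ℂ) (hl : l ∈ closedBall (0 : ℂ) 1) :
    ∃ n : ℕ, (∀ᶠ z in 𝓝 l, DifferentiableAt ℂ (fun z => (z - l) ^ n * H z) z) ∧
      (l ∈ sphere (0 : ℂ) 1 → n = 0) := by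
  by_cases hs : l ∈ sphere (0 : ℂ) 1
  · refine ⟨0, ?_, fun _ => rfl⟩
    have h1 : AnalyticAt ℂ H l := MeromorphicAt.analyticAt (hm l hl) (hc l hs)
    filter_upwards [h1.eventually_analyticAt] with z hz
    simpa using hz.differentiableAt
  · obtain ⟨n, hn⟩ := hm l hl
    refine ⟨n, ?_, fun h => absurd h hs⟩
    filter_upwards [hn.eventually_analyticAt] with z hz
    simpa only [smul_eq_mul] using hz.differentiableAt

/-- Row G3. -/
theorem one : SpOne := by
  classical
  intro H hm hc
  choose! n hn hn0 using One_loc H hm hc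
  obtain ⟨t, ht, hcov⟩ := (isCompact_closedBall (0 : ℂ) 1).elim_nhds_subcover
    (fun l => {z | l ∈ closedBall (0 : ℂ) 1 →
      DifferentiableAt ℂ (fun z => (z - l) ^ n l * H z) z})
    (fun l hl => by
      filter_upwards [hn l hl] with z hz _
      exact hz)
  set B : Polynomial ℂ := ∏ l ∈ t, (Polynomial.X - Polynomial.C l) ^ n l with hB
  have hBm : B.Monic := Polynomial.monic_prod_of_monic _ _ fun l _ =>
    (Polynomial.monic_X_sub_C l).pow _
  have hd : ∀ z ∈ closedBall (0 : ℂ) 1, DifferentiableAt ℂ (fun w => B.eval w * H w) z := by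
    intro z hz
    obtain ⟨l, hl, hzl⟩ := mem_iUnion₂.1 (hcov hz)
    have h1 : DifferentiableAt ℂ (fun z => (z - l) ^ n l * H z) z := hzl (ht l hl)
    have h2 : (fun w => B.eval w * H w) = fun w =>
        (∏ j ∈ t.erase l, (Polynomial.X - Polynomial.C j) ^ n j).eval w *
          ((w - l) ^ n l * H w) := by
      funext w
      rw [hB, ← Finset.mul_prod_erase t _ hl]
      simp only [Polynomial.eval_mul, Polynomial.eval_pow, Polynomial.eval_sub,
        Polynomial.eval_X, Polynomial.eval_C]
      ring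
    rw [h2]
    exact (Polynomial.differentiableAt _).mul h1
  refine ⟨B, hBm, ?_, fun w => B.eval w * H w, ?_, fun l _ _ => rfl⟩
  · intro x hx
    have hx0 : B.eval x = 0 := (Polynomial.mem_roots'.1 hx).2
    rw [hB, Polynomial.eval_prod, Finset.prod_eq_zero_iff] at hx0
    obtain ⟨l, hl, hlx⟩ := hx0
    simp only [Polynomial.eval_pow, Polynomial.eval_sub, Polynomial.eval_X,
      Polynomial.eval_C] at hlx
    have hnl : n l ≠ 0 := by
      intro h
      rw [h, pow_zero] at hlx
      exact one_ne_zero hlx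
    have hxl : x = l := sub_eq_zero.1 (pow_eq_zero_iff hnl |>.1 hlx)
    have hl1 := ht l hl
    have hl2 : l ∉ sphere (0 : ℂ) 1 := fun h => hnl (hn0 l hl1 h)
    rw [mem_closedBall, dist_zero_right] at hl1
    rw [mem_sphere, dist_zero_right] at hl2
    rw [hxl]
    exact lt_of_le_of_ne hl1 hl2
  · apply DifferentiableOn.diffContOnCl
    rw [closure_ball (0 : ℂ) one_ne_zero]
    intro z hz
    exact (hd z hz).differentiableWithinAt

end Pool.Agent.KO.GA
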